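import Pool.Agent.MP_24718c_ag.Marked
import Pool.Agent.MP_24718c_ag.Cell

-- part MP_24718c_ag.Pts
section

section partPoints

/-!
Adding points to a marked scheme.
-/

set_option linter.unusedSectionVars false
set_option linter.unusedVariables false

open MvPolynomial

universe u

noncomputable section

namespace Pool.Agent.MP_24718c_ag

variable {σ : Type} [Fintype σ] [DecidableEq σ] {B B' : Type u} [CommRing B] [CommRing B']
  {e d : ℕ} {E E' : Set (σ →₀ ℕ)} {y z : σ} {μ : Fin e → σ →₀ ℕ} {J : Ideal (MvPolynomial σ B)}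
  {p : Fin e → σ → B}

theorem points_coeff (q : σ → B) (f : MvPolynomial σ B) (m : ℕ) :
    ((aeval fun l => Polynomial.C (q l) * Polynomial.X :
      MvPolynomial σ B →ₐ[B] Polynomial B) f).coeff m = eval q (homogeneousComponent m f) := by
  induction f using MvPolynomial.induction_on' with
  | monomial α c =>
    have h : (aeval fun l => Polynomial.C (q l) * Polynomial.X :
        MvPolynomial σ B →ₐ[B] Polynomial B) (monomial α c) =
        Polynomial.C (eval q (monomial α c)) * Polynomial.X ^ α.degree := by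
      rw [aeval_monomial, eval_monomial, Finsupp.prod, Finsupp.prod, Finsupp.degree_apply]
      simp only [mul_pow, Finset.prod_mul_distrib, Finset.prod_pow_eq_pow_sum, map_mul, map_prod,
        map_pow, Polynomial.algebraMap_eq]
      ring
    rw [h, Polynomial.coeff_C_mul_X_pow,
      homogeneousComponent_of_mem (isHomogeneous_monomial' α c)]
    split_ifs <;> simp
  | add f g hf hg => rw [map_add, Polynomial.coeff_add, hf, hg, map_add, map_add]

theorem points_mem {q : σ → B} {f : MvPolynomial σ B} :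
    f ∈ ptI q ↔ ∀ m, eval q (homogeneousComponent m f) = 0 := by
  unfold ptI
  rw [RingHom.mem_ker, Polynomial.ext_iff]
  simp only [points_coeff, Polynomial.coeff_zero]

theorem mem_ptI {q : σ → B} {f : MvPolynomial σ B} (hf : f.IsHomogeneous d) :
    f ∈ ptI q ↔ eval q f = 0 := by
  rw [points_mem]
  constructor
  · intro h
    have := h d
    rwa [homogeneousComponent_of_mem hf, if_pos rfl] at this
  · intro h m
    rw [homogeneousComponent_of_mem hf]
    split_ifs
    · exact h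
    · exact map_zero _

theorem isHomog_ptI (q : σ → B) : IsHomog (ptI q) := fun f hf m =>
  (mem_ptI (homogeneousComponent_isHomogeneous m f)).2 (points_mem.1 hf m)

theorem points_mem_join {f : MvPolynomial σ B} :
    f ∈ joinI J p ↔ f ∈ J ∧ ∀ j, f ∈ ptI (p j) := by
  unfold joinI
  rw [Ideal.mem_inf, Ideal.mem_iInf]

theorem IsHomog.joinI (hJ : IsHomog J) (p : Fin e → σ → B) : IsHomog (joinI J p) :=
  fun f hf m => points_mem_join.2 ⟨hJ f (points_mem_join.1 hf).1 m,
    fun j => isHomog_ptI _ f ((points_mem_join.1 hf).2 j) m⟩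

theorem mem_joinI {f : MvPolynomial σ B} (hf : f.IsHomogeneous d) :
    f ∈ joinI J p ↔ f ∈ J ∧ ∀ j, eval (p j) f = 0 := by
  simp only [points_mem_join, mem_ptI hf]

theorem points_eval_map (φ : B →+* B') (q : σ → B) (f : MvPolynomial σ B) :
    eval (fun l => φ (q l)) (MvPolynomial.map φ f) = φ (eval q f) :=
  (MvPolynomial.map_eval φ q f).symm

theorem bc_joinI_le (hJ : IsHomog J) (φ : B →+* B') :
    bc φ (joinI J p) ≤ joinI (bc φ J) fun j l => φ (p j l) := by
  refine Ideal.map_le_iff_le_comap.2 fun f hf => ?_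
  obtain ⟨h1, h2⟩ := points_mem_join.1 hf
  refine Ideal.mem_comap.2 (points_mem_join.2 ⟨Ideal.mem_map_of_mem _ h1, fun j => ?_⟩)
  refine points_mem.2 fun m => ?_
  rw [basica_hc_map, points_eval_map, points_mem.1 (h2 j) m, map_zero]

theorem Emat_bc (hJ : Marked E' 0 J) (φ : B →+* B') :
    Emat E' μ (bc φ J) (fun j l => φ (p j l)) = (Emat E' μ J p).map φ := by
  ext i j
  simp only [Emat, Matrix.map_apply, Matrix.of_apply]
  rw [hJ.hel_bc φ (Nat.zero_le _), points_eval_map]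

theorem Pair.Nsp_le (hP : Pair E E' y z μ) : Nsp B E' ≤ Nsp B E := fun _ hf =>
  mem_Nsp.2 fun γ hγ => mem_Nsp.1 hf γ (hP.sub hγ)

theorem points_nu (hP : Pair E E' y z μ) (j : Fin e) (t : ℕ) :
    μ j + Finsupp.single z t ∈ E' ∧ μ j + Finsupp.single z t ∉ E := (hP.diff _).2 ⟨j, t, rfl⟩

theorem points_inj (hP : Pair E E' y z μ) {i j : Fin e} {s t : ℕ}
    (h : μ i + Finsupp.single z s = μ j + Finsupp.single z t) : i = j := by
  refine hP.inj (Finsupp.ext fun l => ?_)
  by_cases hl : l = z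
  · rw [hl, hP.muz, hP.muz]
  · have := DFunLike.congr_fun h l
    simpa [Finsupp.single_apply, Ne.symm hl] using this

theorem points_deg (α : σ →₀ ℕ) (z : σ) (t : ℕ) :
    (α + Finsupp.single z t).degree = α.degree + t := by
  rw [map_add, Finsupp.degree_single]

/-- forms of degree `d ≥ |μ j|` supported outside `E` -/
theorem Pair.decomp (hP : Pair E E' y z μ) (hd : ∀ j, (μ j).degree ≤ d) {g : MvPolynomial σ B}
    (hg : g ∈ Nsp B E) (hh : g.IsHomogeneous d) :
    g - ∑ j, coeff (μ j + Finsupp.single z (d - (μ j).degree)) g •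
      monomial (μ j + Finsupp.single z (d - (μ j).degree)) 1 ∈ Nsp B E' := by
  refine mem_Nsp.2 fun γ hγ => ?_
  rw [coeff_sub, coeff_sum, sub_eq_zero]
  simp only [coeff_smul, coeff_monomial, smul_eq_mul, mul_ite, mul_one, mul_zero]
  by_cases h0 : coeff γ g = 0
  · rw [h0]
    refine (Finset.sum_eq_zero fun j _ => ?_).symm
    split_ifs with h
    · rw [h, h0]
    · rfl
  obtain ⟨j, t, rfl⟩ := (hP.diff γ).1 ⟨hγ, fun h => h0 (mem_Nsp.1 hg γ h)⟩
  have h1 := isHomogeneous_iff_degree.1 hh _ h0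
  rw [points_deg] at h1
  have h2 : d - (μ j).degree = t := by omega
  rw [Finset.sum_eq_single j (fun i _ hi => if_neg fun h => hi (points_inj hP h))
    (fun h => absurd (Finset.mem_univ j) h), h2, if_pos rfl]

theorem points_form_mem (hJ : Marked E' 0 J) (c : Fin e → B) :
    ∑ i, c i • (X z ^ (d - (μ i).degree) * Hel E' J (μ i)) ∈ J :=
  (J.restrictScalars B).sum_mem fun _ _ => (J.restrictScalars B).smul_mem _
    (J.mul_mem_left _ (hJ.hel_mem (Nat.zero_le _)))

theorem points_form_hom (hJ : Marked E' 0 J) (hd : ∀ j, (μ j).degree ≤ d) (c : Fin e → B) :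
    (∑ i, c i • (X z ^ (d - (μ i).degree) * Hel E' J (μ i))).IsHomogeneous d := by
  refine (homogeneousSubmodule σ B d).sum_mem fun i _ => (homogeneousSubmodule σ B d).smul_mem _ ?_
  have := (isHomogeneous_X_pow (R := B) z (d - (μ i).degree)).mul
    (hJ.hel_hom (α := μ i) (Nat.zero_le _))
  rwa [Nat.sub_add_cancel (hd i)] at this

theorem points_form_sub (hP : Pair E E' y z μ) (hJ : Marked E' 0 J) (c : Fin e → B) :
    ∑ i, c i • monomial (μ i + Finsupp.single z (d - (μ i).degree)) 1 -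
      ∑ i, c i • (X z ^ (d - (μ i).degree) * Hel E' J (μ i)) ∈ Nsp B E' := by
  rw [← Finset.sum_sub_distrib]
  refine Submodule.sum_mem _ fun i _ => ?_
  rw [← smul_sub]
  refine Submodule.smul_mem _ _ ?_
  have : monomial (μ i + Finsupp.single z (d - (μ i).degree)) 1 -
      X z ^ (d - (μ i).degree) * Hel E' J (μ i) = X z ^ (d - (μ i).degree) * nf E' J (μ i) := by
    rw [monomial_add_single, Hel]
    ring
  rw [this]
  exact Nsp_mul_X_pow hP.fz' (hJ.nf_mem (Nat.zero_le _)) _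

theorem points_form_nsp (hP : Pair E E' y z μ) (hJ : Marked E' 0 J) (c : Fin e → B) :
    ∑ i, c i • (X z ^ (d - (μ i).degree) * Hel E' J (μ i)) ∈ Nsp B E := by
  have h1 : ∑ i, c i • monomial (μ i + Finsupp.single z (d - (μ i).degree)) 1 ∈ Nsp B E :=
    Submodule.sum_mem _ fun i _ => Submodule.smul_mem _ _ (basicb_mono_mem (points_nu hP i _).2 _)
  have := Submodule.sub_mem _ h1 (hP.Nsp_le (points_form_sub (d := d) hP hJ c))
  rwa [sub_sub_cancel] at this

theorem points_form_eval (hp : ∀ j, p j z = 1) (c : Fin e → B) (j : Fin e) :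
    eval (p j) (∑ i, c i • (X z ^ (d - (μ i).degree) * Hel E' J (μ i))) =
      Matrix.vecMul c (Emat E' μ J p) j := by
  simp [Matrix.vecMul, dotProduct, Emat, smul_eq_C_mul, hp]

/-- the forms `X z ^ (d - |μ i|) * Hel E' J (μ i) ∈ J` take the values `Emat i j` -/
theorem exists_sep (hJ : Marked E' 0 J) (hp : ∀ j, p j z = 1)
    (hdet : IsUnit (Emat E' μ J p).det) (hd : ∀ j, (μ j).degree ≤ d) (v : Fin e → B) :
    ∃ c : Fin e → B, ∀ j,
      eval (p j) (∑ i, c i • (X z ^ (d - (μ i).degree) * Hel E' J (μ i))) = v j := by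
  refine ⟨Matrix.vecMul v (Emat E' μ J p)⁻¹, fun j => ?_⟩
  rw [points_form_eval hp, Matrix.vecMul_vecMul, Matrix.nonsing_inv_mul _ hdet, Matrix.vecMul_one]

/-- Spanning: `f - n' ∈ J`, subtract a combination of the forms of `exists_sep`, which lie in
`Nsp E`.  Independence: by `decomp`, `g` minus such a combination is in `Nsp E' ∩ J = 0`; evaluating
gives `c ᵥ* Emat = 0`. -/
theorem pts_marked (hP : Pair E E' y z μ) (hJ : Marked E' 0 J) (hp : ∀ j, p j z = 1)
    (hdet : IsUnit (Emat E' μ J p).det) (hd : ∀ j, (μ j).degree ≤ d) :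
    Marked E d (joinI J p) := by
  refine ⟨hJ.homog.joinI p, fun m hm f hf => ?_, fun m hm g hg hh hI => ?_⟩
  · have hd' : ∀ j, (μ j).degree ≤ m := fun j => (hd j).trans hm
    obtain ⟨g, h1, h2, h3⟩ := hJ.span m (Nat.zero_le _) f hf
    obtain ⟨c, hc⟩ := exists_sep hJ hp hdet hd' fun j => eval (p j) (f - g)
    have h4 := h2.add (points_form_hom (z := z) hJ hd' c)
    refine ⟨_, Submodule.add_mem _ (hP.Nsp_le h1) (points_form_nsp hP hJ c), h4,
      (mem_joinI (hf.sub h4)).2 ⟨?_, fun j => ?_⟩⟩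
    · rw [← sub_sub]
      exact J.sub_mem h3 (points_form_mem hJ c)
    · rw [← sub_sub, map_sub, hc, sub_self]
  · have hd' : ∀ j, (μ j).degree ≤ m := fun j => (hd j).trans hm
    obtain ⟨h1, h2⟩ := (mem_joinI hh).1 hI
    obtain ⟨c, hc⟩ : ∃ c : Fin e → B,
      c = fun j => coeff (μ j + Finsupp.single z (m - (μ j).degree)) g := ⟨_, rfl⟩
    have h3 := Submodule.add_mem _ (hP.decomp hd' hg hh) (points_form_sub (d := m) hP hJ
      fun j => coeff (μ j + Finsupp.single z (m - (μ j).degree)) g)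
    rw [sub_add_sub_cancel] at h3
    have h4 : g = ∑ i, c i • (X z ^ (m - (μ i).degree) * Hel E' J (μ i)) := by
      rw [hc]
      exact sub_eq_zero.1 (hJ.indep_zero h3 (J.sub_mem h1 (points_form_mem hJ _)))
    have h5 : Matrix.vecMul c (Emat E' μ J p) = 0 := by
      funext j
      rw [← points_form_eval (d := m) hp, ← h4]
      exact h2 j
    have h6 : c = 0 := by
      have := congrArg (fun v => Matrix.vecMul v (Emat E' μ J p)⁻¹) h5
      simpa [Matrix.vecMul_vecMul, Matrix.mul_nonsing_inv _ hdet] using this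
    rw [h4, h6]
    simp

theorem agree_bc_joinI (hP : Pair E E' y z μ) (hJ : Marked E' 0 J) (hp : ∀ j, p j z = 1)
    (hdet : IsUnit (Emat E' μ J p).det) (φ : B →+* B') :
    Agree (bc φ (joinI J p)) (joinI (bc φ J) fun j l => φ (p j l)) := by
  have hd : ∀ j, (μ j).degree ≤ Finset.univ.sup fun j => (μ j).degree := fun j =>
    Finset.le_sup (f := fun j => (μ j).degree) (Finset.mem_univ j)
  refine ((pts_marked hP hJ hp hdet hd).bc φ).agree_of_le
    (pts_marked hP (hJ.bc φ) (fun j => by simp [hp]) ?_ hd) (bc_joinI_le hJ.homog φ)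
  rw [Emat_bc hJ]
  have := hdet.map φ
  rwa [RingHom.map_det] at this

/-- distraction constants -/
def dc (z : σ) (a : ℕ → B) : σ → ℕ → B := fun i b => if i = z then 0 else a b

/-- the isolated points of the distraction -/
def dp (z : σ) (a : ℕ → B) (μ : Fin e → σ →₀ ℕ) : Fin e → σ → B :=
  fun j l => if l = z then 1 else a (μ j l)

theorem eval_dis {K : Type u} [Field K] {a : ℕ → K} (ha : Function.Injective a) (j : Fin e)
    (α : σ →₀ ℕ) : eval (dp z a μ j) (Dis z (dc z a) α) = 0 ↔ ∃ l, l ≠ z ∧ μ j l < α l := by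
  simp only [Dis, map_prod, map_sub, map_mul, eval_X, eval_C, Finset.prod_eq_zero_iff,
    Finset.mem_univ, true_and, Finset.mem_range, dp, dc, if_true, mul_one]
  refine exists_congr fun l => ?_
  by_cases hl : l = z
  · simp [hl]
  · simp only [hl, if_false, sub_eq_zero, ha.eq_iff, ne_eq, not_false_eq_true, true_and]
    exact ⟨fun ⟨b, h1, h2⟩ => h2 ▸ h1, fun h => ⟨_, h, rfl⟩⟩

theorem points_eval_zero (hP : Pair E E' y z μ) {K : Type u} [Field K] {a : ℕ → K}
    (ha : Function.Injective a) (j : Fin e) {α : σ →₀ ℕ} (hα : α ∈ E) :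
    eval (dp z a μ j) (Dis z (dc z a) α) = 0 := by
  rw [eval_dis ha]
  by_contra hn
  simp only [not_exists, not_and, not_lt] at hn
  refine (points_nu hP j (α z)).2 (hP.up (fun l => ?_) hα)
  by_cases hl : l = z
  · simp [hl]
  · simpa [Finsupp.single_apply, Ne.symm hl] using hn l hl

theorem disI_le_joinI (hP : Pair E E' y z μ) {K : Type u} [Field K] {a : ℕ → K}
    (ha : Function.Injective a) :
    disI z (dc z a) E ≤ joinI (disI z (dc z a) E') (dp z a μ) := by
  refine Ideal.span_le.2 ?_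
  rintro _ ⟨α, hα, rfl⟩
  exact (mem_joinI (dis_hom z _ α)).2 ⟨Ideal.subset_span ⟨α, hP.sub hα, rfl⟩,
    fun j => points_eval_zero hP ha j hα⟩

/-- Let `c ᵥ* Emat = 0` (`Matrix.exists_vecMul_eq_zero_iff`) and `g = ∑ c i • (z^.. * Hel (μ i))`,
a form of degree `d` in `disI E'` vanishing at all points.  By `mem_disI`,
`g = δ + ∑ c' j • Dis (μ j + t_j e_z)` with `δ ∈ disI E`; evaluating at the point `j` with
`c' j ≠ 0` and `|μ j|` minimal gives a contradiction (`eval_dis`), so `g ∈ disI E ∩ Nsp E = 0`, and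
the coefficient of `g` at `μ i + t_i e_z` is `c i`. -/
theorem det_dis_ne_zero (hP : Pair E E' y z μ) {K : Type u} [Field K] {a : ℕ → K}
    (ha : Function.Injective a) :
    (Emat E' μ (disI z (dc z a) E') (dp z a μ)).det ≠ 0 := by
  classical
  intro hdet
  obtain ⟨c, hc0, hc⟩ := Matrix.exists_vecMul_eq_zero_iff.2 hdet
  obtain ⟨d, hd⟩ : ∃ d, ∀ j, (μ j).degree ≤ d := ⟨_, fun j =>
    Finset.le_sup (f := fun j => (μ j).degree) (Finset.mem_univ j)⟩
  have hz : ∀ b, dc z a z b = 0 := fun b => if_pos rfl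
  have hJ := marked_disI hP.up' hz
  have hh := points_form_hom (z := z) hJ hd c
  have hev := fun j => points_form_eval (d := d) (E' := E') (μ := μ) (J := disI z (dc z a) E')
    (p := dp z a μ) (z := z) (fun _ => if_pos rfl) c j
  have hs := points_form_sub (d := d) hP hJ c
  have hN := points_form_nsp (d := d) hP hJ c
  have hm := (mem_disI hP.up' hz hh).1 (points_form_mem hJ c)
  generalize ∑ i, c i • (X z ^ (d - (μ i).degree) * Hel E' (disI z (dc z a) E') (μ i)) = g
    at hh hev hs hN hm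
  have hm' : g ∈ Submodule.span K (Dis z (dc z a) '' E) ⊔ Submodule.span K
      (Set.range fun j => Dis z (dc z a) (μ j + Finsupp.single z (d - (μ j).degree))) := by
    rw [← Submodule.span_union]
    refine Submodule.span_mono ?_ hm
    rintro _ ⟨α, ⟨h1, h2⟩, rfl⟩
    by_cases hα : α ∈ E
    · exact Or.inl ⟨α, hα, rfl⟩
    · obtain ⟨j, t, rfl⟩ := (hP.diff α).1 ⟨h1, hα⟩
      rw [points_deg] at h2
      exact Or.inr ⟨j, by rw [show t = d - (μ j).degree by omega]⟩
  obtain ⟨δ, hδ, w, hw, rfl⟩ := Submodule.mem_sup.1 hm'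
  obtain ⟨c', rfl⟩ := (Submodule.mem_span_range_iff_exists_fun K).1 hw
  have hδ0 : ∀ j, eval (dp z a μ j) δ = 0 := by
    intro j
    refine Submodule.span_induction (p := fun f _ => eval (dp z a μ j) f = 0) ?_ (map_zero _)
      (fun f g _ _ h1 h2 => by rw [map_add, h1, h2, add_zero])
      (fun r f _ h => by rw [smul_eq_C_mul, map_mul, h, mul_zero]) hδ
    rintro _ ⟨α, hα, rfl⟩
    exact points_eval_zero hP ha j hα
  have hc' : c' = 0 := by
    by_contra hn
    obtain ⟨j0, hj0⟩ := Function.ne_iff.1 hn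
    obtain ⟨k, hk, hmin⟩ := Finset.exists_min_image (Finset.univ.filter fun j => c' j ≠ 0)
      (fun j => (μ j).degree) ⟨j0, Finset.mem_filter.2 ⟨Finset.mem_univ _, hj0⟩⟩
    have h1 := hev k
    rw [hc, map_add, hδ0, zero_add, map_sum, Finset.sum_eq_single k, smul_eq_C_mul, map_mul,
      eval_C] at h1
    · rcases mul_eq_zero.1 h1 with h2 | h2
      · exact (Finset.mem_filter.1 hk).2 h2
      · obtain ⟨l, h3, h4⟩ := (eval_dis ha _ _).1 h2
        simp [Ne.symm h3] at h4
    · intro j _ hj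
      rw [smul_eq_C_mul, map_mul, eval_C]
      by_cases h2 : c' j = 0
      · rw [h2, zero_mul]
      refine mul_eq_zero_of_right _ ((eval_dis ha _ _).2 ?_)
      by_contra h3
      simp only [not_exists, not_and, not_lt] at h3
      have h4 : μ j ≤ μ k := fun l => by
        by_cases hl : l = z
        · rw [hl, hP.muz, hP.muz]
        · simpa [Finsupp.single_apply, Ne.symm hl] using h3 l hl
      obtain ⟨β, hβ⟩ := exists_add_of_le h4
      have h5 := hmin j (Finset.mem_filter.2 ⟨Finset.mem_univ _, h2⟩)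
      rw [hβ, map_add] at h5
      have h6 : β = 0 := (Finsupp.degree_eq_zero_iff β).1 (by omega)
      rw [h6, add_zero] at hβ
      exact hj (hP.inj hβ.symm)
    · exact fun h => absurd (Finset.mem_univ k) h
  simp only [hc', Pi.zero_apply, zero_smul, Finset.sum_const_zero, add_zero] at hs hN
  have h0 : δ = 0 := (marked_disI hP.up hz).indep_zero hN
    (Submodule.span_le_restrictScalars K (MvPolynomial σ K) _ hδ)
  rw [h0, sub_zero] at hs
  refine hc0 (funext fun i => ?_)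
  have h1 := mem_Nsp.1 hs _ (points_nu hP i (d - (μ i).degree)).1
  rw [coeff_sum, Finset.sum_eq_single i] at h1
  · simpa using h1
  · intro j _ hj
    rw [coeff_smul, coeff_monomial, if_neg fun h => hj (points_inj hP h), smul_zero]
  · exact fun h => absurd (Finset.mem_univ i) h

end Pool.Agent.MP_24718c_ag

end

end partPoints

section partVersA

/-!
A first order deformation of a scheme with isolated points deforms the points.
-/

set_option linter.unusedSectionVars false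
set_option linter.unusedVariables false

open MvPolynomial

universe u

noncomputable section

namespace Pool.Agent.MP_24718c_ag

variable {σ : Type} [Fintype σ] [DecidableEq σ] {F : Type u} [Field F]
  {e d : ℕ} {E E' : Set (σ →₀ ℕ)} {y z : σ} {μ : Fin e → σ →₀ ℕ} {J : Ideal (MvPolynomial σ F)}
  {p : Fin e → σ → F} {𝒦 : Ideal (MvPolynomial σ (DualNumber F))}

theorem versa_sub (z : σ) (q : σ → F) (f : MvPolynomial σ F) : ∃ a : σ → MvPolynomial σ F,
    f - aeval (fun l => (C (q l) * X z : MvPolynomial σ F)) f =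
      ∑ l, a l * (X l - C (q l) * X z) := by
  induction f using MvPolynomial.induction_on with
  | C c => exact ⟨0, by simp⟩
  | add f g hf hg =>
    obtain ⟨a, ha⟩ := hf
    obtain ⟨b, hb⟩ := hg
    refine ⟨a + b, ?_⟩
    simp only [Pi.add_apply, add_mul, Finset.sum_add_distrib, map_add]
    rw [← ha, ← hb]
    ring
  | mul_X f i hf =>
    obtain ⟨a, ha⟩ := hf
    refine ⟨fun l => X i * a l +
      if l = i then aeval (fun l => (C (q l) * X z : MvPolynomial σ F)) f else 0, ?_⟩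
    simp only [add_mul, Finset.sum_add_distrib, ite_mul, zero_mul, Finset.sum_ite_eq',
      Finset.mem_univ, if_true, mul_assoc, map_mul, aeval_X]
    rw [← Finset.mul_sum, ← ha]
    ring

theorem versa_aeval (z : σ) (q : σ → F) {f : MvPolynomial σ F} (hf : f.IsHomogeneous d) :
    aeval (fun l => (C (q l) * X z : MvPolynomial σ F)) f = C (eval q f) * X z ^ d := by
  conv_lhs => rw [f.as_sum]
  conv_rhs => rw [f.as_sum]
  rw [map_sum, map_sum, map_sum, Finset.sum_mul]
  refine Finset.sum_congr rfl fun α hα => ?_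
  rw [aeval_monomial, eval_monomial, ← isHomogeneous_iff_degree.1 hf α (mem_support_iff.1 hα)]
  simp only [Finsupp.prod, mul_pow, Finset.prod_mul_distrib, Finset.prod_pow_eq_pow_sum, map_mul,
    map_prod, map_pow, algebraMap_eq, Finsupp.degree_apply]
  ring

theorem versa_lin_hom (z : σ) (q : σ → F) (l : σ) :
    (X l - C (q l) * X z : MvPolynomial σ F).IsHomogeneous 1 :=
  (isHomogeneous_X F l).sub ((isHomogeneous_X F z).C_mul _)

theorem sub_mem_span_lin {q : σ → F} (hq : q z = 1) {f : MvPolynomial σ F}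
    (hf : f.IsHomogeneous (d + 1)) (h0 : eval q f = 0) : ∃ a : σ → MvPolynomial σ F,
      (∀ l, (a l).IsHomogeneous d) ∧ f = ∑ l, a l * (X l - C (q l) * X z) := by
  obtain ⟨a, ha⟩ := versa_sub z q f
  rw [versa_aeval z q hf, h0, map_zero, zero_mul, sub_zero] at ha
  refine ⟨fun l => homogeneousComponent d (a l), fun l => homogeneousComponent_isHomogeneous _ _,
    ?_⟩
  have h1 := congrArg (homogeneousComponent (d + 1)) ha
  rw [homogeneousComponent_of_mem hf, if_pos rfl, map_sum] at h1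
  rw [h1]
  refine Finset.sum_congr rfl fun l _ => ?_
  rw [basica_hc_mul (versa_lin_hom z q l), if_pos (by omega), Nat.add_sub_cancel]

theorem versa_eval_map (q v : σ → F) (f : MvPolynomial σ F) :
    (eval (fun l => (TrivSqZeroExt.inl (q l) + TrivSqZeroExt.inr (v l) : DualNumber F))
      (MvPolynomial.map (dinl F) f)).fst = eval q f ∧
    (eval (fun l => (TrivSqZeroExt.inl (q l) + TrivSqZeroExt.inr (v l) : DualNumber F))
      (MvPolynomial.map (dinl F) f)).snd = ∑ l, v l * eval q (pderiv l f) := by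
  induction f using MvPolynomial.induction_on with
  | C c => simp [TrivSqZeroExt.algebraMap_eq_inl]
  | add f g hf hg =>
    simp only [map_add, TrivSqZeroExt.fst_add, TrivSqZeroExt.snd_add, hf.1, hf.2, hg.1, hg.2,
      mul_add, Finset.sum_add_distrib, and_self]
  | mul_X f i hf =>
    have h1 : ∀ l, v l * eval q (pderiv l (f * X i)) =
        q i * (v l * eval q (pderiv l f)) + if l = i then eval q f * v l else 0 := by
      intro l
      rw [Derivation.leibniz, pderiv_X, smul_eq_mul, smul_eq_mul, map_add, map_mul, map_mul, eval_X]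
      by_cases hl : l = i
      · subst hl
        rw [if_pos rfl, Pi.single_eq_same, map_one]
        ring
      · rw [if_neg hl, Pi.single_eq_of_ne (Ne.symm hl), map_zero]
        ring
    simp only [h1, Finset.sum_add_distrib, Finset.sum_ite_eq', Finset.mem_univ, if_true,
      ← Finset.mul_sum]
    rw [map_mul, map_mul, map_mul, map_X, eval_X, eval_X, TrivSqZeroExt.fst_mul,
      DualNumber.snd_mul, hf.1, hf.2]
    simp only [TrivSqZeroExt.fst_add, TrivSqZeroExt.snd_add, TrivSqZeroExt.fst_inl,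
      TrivSqZeroExt.fst_inr, TrivSqZeroExt.snd_inl, TrivSqZeroExt.snd_inr, add_zero, zero_add,
      true_and]
    ring

theorem eval_dpair_lin (q v : σ → F) (f₀ f₁ : MvPolynomial σ F) :
    (eval (fun l => (TrivSqZeroExt.inl (q l) + TrivSqZeroExt.inr (v l) : DualNumber F))
      (dpair f₀ f₁)).fst = eval q f₀ ∧
    (eval (fun l => (TrivSqZeroExt.inl (q l) + TrivSqZeroExt.inr (v l) : DualNumber F))
      (dpair f₀ f₁)).snd = eval q f₁ + ∑ l, v l * eval q (pderiv l f₀) := by
  rw [dpair, map_add, map_mul, eval_C, TrivSqZeroExt.fst_add, TrivSqZeroExt.snd_add,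
    TrivSqZeroExt.fst_mul, DualNumber.snd_mul, (versa_eval_map q v f₀).1,
    (versa_eval_map q v f₀).2, (versa_eval_map q v f₁).1, DualNumber.fst_eps, DualNumber.snd_eps]
  constructor <;> ring

theorem versa_dpair_sum {ι : Type} (s : Finset ι) (f g : ι → MvPolynomial σ F) :
    ∑ l ∈ s, dpair (f l) (g l) = dpair (∑ l ∈ s, f l) (∑ l ∈ s, g l) := by
  simp only [dpair, map_sum, Finset.mul_sum, Finset.sum_add_distrib]

theorem versa_der {q v : σ → F} (hq : q z = 1) (hv : v z = 0) (a : σ → MvPolynomial σ F) :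
    ∑ l, v l * eval q (pderiv l (∑ m, a m * (X m - C (q m) * X z))) =
      ∑ l, v l * eval q (a l) := by
  refine Finset.sum_congr rfl fun l _ => ?_
  by_cases hl : l = z
  · rw [hl, hv, zero_mul, zero_mul]
  · congr 1
    have h1 : ∀ m, eval q (pderiv l (a m * (X m - C (q m) * X z))) =
        if m = l then eval q (a m) else 0 := by
      intro m
      rw [Derivation.leibniz, map_sub, pderiv_C_mul, pderiv_X, pderiv_X,
        Pi.single_eq_of_ne (Ne.symm hl), mul_zero, sub_zero, smul_eq_mul, smul_eq_mul, map_add,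
        map_mul, map_mul, map_sub, map_mul, eval_X, eval_X, eval_C, hq, mul_one, sub_self, zero_mul,
        add_zero]
      by_cases hm : m = l
      · subst hm
        rw [if_pos rfl, Pi.single_eq_same, map_one, mul_one]
      · rw [if_neg hm, Pi.single_eq_of_ne hm, map_zero, mul_zero]
    rw [map_sum, map_sum]
    simp only [h1, Finset.sum_ite_eq', Finset.mem_univ, if_true]

/-- Let `𝓙 = joinI J p`, equal to `bc dfst 𝒦` in large degrees.  For a form `f₀ ∈ 𝓙` of large
degree with `dpair f₀ f₁ ∈ 𝒦` the value `Ψ f₀ = eval (p j) f₁` is well defined (`dual_eps`), and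
`Ψ (g f₀) = g(p j) Ψ f₀`.  Take `h ∈ J` of large degree with `h (p j') = δ` (`exists_sep`) and
`ℓ l = X l - p j l * X z`; `h * ℓ l ∈ 𝓙`; put `v l = - Ψ (h * ℓ l)` (`v z = 0`).  If
`dpair f₀ f₁ ∈ 𝒦` write `f₀ = ∑ a l * ℓ l`; then `Ψ f₀ = Ψ (h f₀) = ∑ a l (p j) Ψ (h ℓ l)`, and the
value of `dpair f₀ f₁` at `p j + ε v` is `ε (Ψ f₀ + ∑ a l (p j) v l) = 0`. -/
theorem vers_pts (hP : Pair E E' y z μ) (hJ : Marked E' 0 J) (hp : ∀ j, p j z = 1)
    (hdet : (Emat E' μ J p).det ≠ 0) (h𝒦 : Marked E d 𝒦)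
    (hA : Agree (bc (dfst F) 𝒦) (joinI J p)) (j : Fin e) :
    ∃ q : σ → DualNumber F, (∀ l, (q l).fst = p j l) ∧ q z = 1 ∧ ∃ d', LeD d' 𝒦 (ptI q) := by
  obtain ⟨d₀, hA⟩ := hA
  obtain ⟨D, hD, hD1, hD2⟩ : ∃ D, (∀ i, (μ i).degree ≤ D) ∧ d ≤ D ∧ d₀ ≤ D := by
    refine ⟨d + d₀ + ∑ i, (μ i).degree, fun i => ?_, by omega, by omega⟩
    have := Finset.single_le_sum (f := fun i => (μ i).degree) (fun _ _ => Nat.zero_le _)
      (Finset.mem_univ i)
    omega
  obtain ⟨h, hh, hhJ, hc⟩ : ∃ h : MvPolynomial σ F, h.IsHomogeneous D ∧ h ∈ J ∧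
      ∀ j', eval (p j') h = (Pi.single j 1 : Fin e → F) j' := by
    obtain ⟨c, hc⟩ := exists_sep hJ hp (isUnit_iff_ne_zero.2 hdet) hD (Pi.single j 1)
    refine ⟨_, ?_, ?_, hc⟩
    · refine IsHomogeneous.sum _ _ _ fun i _ => ?_
      have h1 := (isHomogeneous_X_pow (R := F) z (D - (μ i).degree)).mul
        (hJ.hel_hom (α := μ i) (Nat.zero_le _))
      rw [Nat.sub_add_cancel (hD i)] at h1
      rw [smul_eq_C_mul]
      exact h1.C_mul _
    · refine J.sum_mem fun i _ => ?_
      rw [smul_eq_C_mul]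
      exact J.mul_mem_left _ (J.mul_mem_left _ (hJ.hel_mem (Nat.zero_le _)))
  have key : ∀ n, D ≤ n → ∀ g : MvPolynomial σ F, g.IsHomogeneous n → dpair 0 g ∈ 𝒦 →
      eval (p j) g = 0 := fun n hn g hg hm =>
    ((mem_joinI hg).1 ((hA n (hD2.trans hn) g hg).1
      ((h𝒦.dual_eps (hD1.trans hn) hg).1 hm))).2 j
  have hw : ∀ l, ∃ w : MvPolynomial σ F, w.IsHomogeneous (D + 1) ∧
      dpair (h * (X l - C (p j l) * X z)) w ∈ 𝒦 := by
    intro l
    have h1 := hh.mul (versa_lin_hom z (p j) l)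
    have h2 : h * (X l - C (p j l) * X z) ∈ joinI J p := by
      refine (mem_joinI h1).2 ⟨J.mul_mem_right _ hhJ, fun j' => ?_⟩
      rw [map_mul, hc]
      by_cases hj : j' = j
      · rw [hj, map_sub, map_mul, eval_X, eval_X, eval_C, hp, mul_one, sub_self, mul_zero]
      · rw [Pi.single_eq_of_ne hj, zero_mul]
    obtain ⟨w, -, h3, h4⟩ := h𝒦.dual_lift (by omega) h1 ((hA _ (by omega) _ h1).2 h2)
    exact ⟨w, h3, h4⟩
  choose w hw1 hw2 using hw
  have hz : eval (p j) (w z) = 0 := by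
    refine key (D + 1) (by omega) _ (hw1 z) ?_
    have h1 := hw2 z
    rwa [hp, map_one, one_mul, sub_self, mul_zero] at h1
  refine ⟨fun l => TrivSqZeroExt.inl (p j l) + TrivSqZeroExt.inr (-eval (p j) (w l)),
    fun l => by simp, ?_, D + 1, fun n hn f hf hm => ?_⟩
  · beta_reduce
    rw [hp, hz, neg_zero, TrivSqZeroExt.inr_zero, add_zero, TrivSqZeroExt.inl_one]
  obtain ⟨m, rfl⟩ : ∃ m, n = m + 1 := ⟨n - 1, by omega⟩
  obtain ⟨f₀, f₁, rfl⟩ := exists_dpair f
  rw [mem_ptI hf]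
  rw [dpair_hom] at hf
  have h1 : f₀ ∈ bc (dfst F) 𝒦 := map_dfst_dpair f₀ f₁ ▸ Ideal.mem_map_of_mem _ hm
  have h2 : eval (p j) f₀ = 0 := ((mem_joinI hf.1).1 ((hA _ (by omega) _ hf.1).1 h1)).2 j
  obtain ⟨a, ha1, ha2⟩ := sub_mem_span_lin (hp j) hf.1 h2
  have h3 := 𝒦.sub_mem (𝒦.mul_mem_left (dpair h 0) hm)
    (𝒦.sum_mem (t := Finset.univ) fun l _ => 𝒦.mul_mem_left (dpair (a l) 0) (hw2 l))
  simp only [dpair_mul, zero_mul, add_zero] at h3
  rw [versa_dpair_sum, dpair_sub] at h3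
  have h4 : h * f₀ - ∑ l, a l * (h * (X l - C (p j l) * X z)) = 0 := by
    rw [sub_eq_zero]
    conv_lhs => rw [ha2, Finset.mul_sum]
    exact Finset.sum_congr rfl fun l _ => by ring
  rw [h4] at h3
  have h5 : (h * f₁ - ∑ l, a l * w l).IsHomogeneous (D + (m + 1)) := by
    refine (hh.mul hf.2).sub (IsHomogeneous.sum _ _ _ fun l _ => ?_)
    have h6 := (ha1 l).mul (hw1 l)
    rwa [show m + (D + 1) = D + (m + 1) by omega] at h6
  have h6 := key _ (by omega) _ h5 h3
  rw [map_sub, map_mul, hc, Pi.single_eq_same, one_mul, map_sum, sub_eq_zero] at h6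
  have h7 := eval_dpair_lin (p j) (fun l => -eval (p j) (w l)) f₀ f₁
  refine TrivSqZeroExt.ext (h7.1.trans h2) (h7.2.trans ?_)
  have h8 := versa_der (v := fun l => -eval (p j) (w l)) (hp j)
    (by rw [hz, neg_zero]) a
  rw [← ha2] at h8
  rw [h8, h6, TrivSqZeroExt.snd_zero, ← Finset.sum_add_distrib]
  exact Finset.sum_eq_zero fun l _ => by rw [map_mul]; ring

end Pool.Agent.MP_24718c_ag

end

end partVersA

section partVersB

/-!
A first order deformation of a scheme with isolated points deforms the rest of the scheme.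
-/

set_option linter.unusedSectionVars false
set_option linter.unusedVariables false

open MvPolynomial

universe u

noncomputable section

namespace Pool.Agent.MP_24718c_ag

variable {σ : Type} [Fintype σ] [DecidableEq σ] {F : Type u} [Field F]
  {e d : ℕ} {E E' : Set (σ →₀ ℕ)} {y z : σ} {μ : Fin e → σ →₀ ℕ} {J : Ideal (MvPolynomial σ F)}
  {p : Fin e → σ → F} {𝒦 : Ideal (MvPolynomial σ (DualNumber F))}

theorem Nsp_mul_lin {B : Type u} [CommRing B] (hy : FreeN E' y) (hz : FreeN E' z)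
    (c : Fin e → B) {f : MvPolynomial σ B} (hf : f ∈ Nsp B E') :
    (∏ j, (X y - C (c j) * X z)) * f ∈ Nsp B E' := by
  induction (Finset.univ : Finset (Fin e)) using Finset.induction_on with
  | empty => rwa [Finset.prod_empty, one_mul]
  | insert j s hj ih =>
    rw [Finset.prod_insert hj, mul_assoc, sub_mul, mul_assoc, C_mul']
    have h1 := Nsp_mul_X_pow hy ih 1
    have h2 := Nsp_mul_X_pow hz ih 1
    rw [pow_one] at h1 h2
    exact sub_mem h1 (Submodule.smul_mem _ _ h2)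

theorem versb_not_dvd (hyz : y ≠ z) (c : Fin e → F) :
    ¬ (X z : MvPolynomial σ F) ∣ ∏ j, (X y - C (c j) * X z) := by
  rw [(X_prime (i := z)).dvd_finsetProd_iff]
  rintro ⟨j, -, h⟩
  exact hyz (X_dvd_X.1 ((dvd_sub_left (dvd_mul_left _ _)).1 h)).symm

/-- `X z` is prime (`MvPolynomial.X_prime`) and does not divide the product -/
theorem pow_dvd_of_lin (hyz : y ≠ z) (c : Fin e → F) {b : MvPolynomial σ F} {D : ℕ}
    (h : X z ^ D ∣ (∏ j, (X y - C (c j) * X z)) ^ 2 * b) : X z ^ D ∣ b :=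
  (X_prime (i := z)).pow_dvd_of_dvd_mul_left D
    (fun h' => versb_not_dvd hyz c ((X_prime (i := z)).dvd_of_dvd_pow h')) h

theorem versb_hom (y z : σ) (c : Fin e → F) :
    (∏ j, (X y - C (c j) * X z) : MvPolynomial σ F).IsHomogeneous e := by
  have h := IsHomogeneous.prod (Finset.univ : Finset (Fin e))
    (fun j => (X y - C (c j) * X z : MvPolynomial σ F)) (fun _ => 1) fun j _ =>
      (isHomogeneous_X F y).sub ((isHomogeneous_X F z).C_mul (c j))
  rwa [Finset.sum_const, Finset.card_fin, smul_eq_mul, mul_one] at h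

theorem versb_eval (hp : ∀ j, p j z = 1) (i : Fin e) :
    eval (p i) (∏ j, (X y - C (p j y) * X z)) = 0 := by
  rw [map_prod]
  refine Finset.prod_eq_zero (Finset.mem_univ i) ?_
  rw [map_sub, map_mul, eval_X, eval_X, eval_C, hp, mul_one, sub_self]

theorem versb_sep (hJ : Marked E' 0 J) (hp : ∀ j, p j z = 1) (hdet : (Emat E' μ J p).det ≠ 0)
    {D : ℕ} (hD : ∀ j, (μ j).degree ≤ D) :
    ∃ h ∈ J, h.IsHomogeneous D ∧ ∀ j, eval (p j) h = 1 := by
  obtain ⟨c, hc⟩ := exists_sep hJ hp (isUnit_iff_ne_zero.2 hdet) hD fun _ => 1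
  refine ⟨_, J.sum_mem fun i _ => ?_, IsHomogeneous.sum _ _ _ fun i _ => ?_, hc⟩
  · rw [← C_mul']
    exact J.mul_mem_left _ (J.mul_mem_left _ (hJ.hel_mem (Nat.zero_le _)))
  · have h := ((isHomogeneous_X F z).pow (D - (μ i).degree)).mul
      (hJ.hel_hom (α := μ i) (Nat.zero_le _))
    rw [one_mul, Nat.sub_add_cancel (hD i)] at h
    rw [← C_mul']
    exact h.C_mul _

theorem versb_key (hP : Pair E E' y z μ) (hJ : Marked E' 0 J) (hp : ∀ j, p j z = 1)
    (hdet : (Emat E' μ J p).det ≠ 0) {D : ℕ} (h𝒦 : Marked E D 𝒦) (hD : ∀ j, (μ j).degree ≤ D)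
    (hA : ∀ n, D ≤ n → ∀ f : MvPolynomial σ F, f.IsHomogeneous n →
      (f ∈ bc (dfst F) 𝒦 ↔ f ∈ joinI J p)) {a : ℕ} (ha : D ≤ a) {H : MvPolynomial σ F}
    (hH : H ∈ J) (hHa : H.IsHomogeneous a) : ∃ n₁ ∈ Nsp F E', n₁.IsHomogeneous a ∧
      dpair H n₁ * dpair ((∏ j, (X y - C (p j y) * X z)) ^ 2) 0 ∈ 𝒦 := by
  have hπ := versb_hom y z fun j => p j y
  have hπ0 := versb_eval (y := y) hp
  have hN : ∀ f ∈ Nsp F E', (∏ j, (X y - C (p j y) * X z)) ^ 2 * f ∈ Nsp F E' := fun f hf => by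
    rw [sq, mul_assoc]
    exact Nsp_mul_lin hP.fy' hP.fz' _ (Nsp_mul_lin hP.fy' hP.fz' _ hf)
  have hdvd := fun b => pow_dvd_of_lin (D := D) (b := b) hP.ne fun j => p j y
  generalize (∏ j, (X y - C (p j y) * X z) : MvPolynomial σ F) = π at *
  have hin : ∀ n, D ≤ n → ∀ f : MvPolynomial σ F, f.IsHomogeneous n → f ∈ J →
      (∀ j, eval (p j) f = 0) → f ∈ bc (dfst F) 𝒦 := fun n hn f h1 h2 h3 =>
    (hA n hn f h1).2 ((mem_joinI h1).2 ⟨h2, h3⟩)
  obtain ⟨g₁, -, hg₁, h1⟩ := h𝒦.dual_lift (d := e + a) (by omega) (hπ.mul hHa)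
    (hin _ (by omega) _ (hπ.mul hHa) (J.mul_mem_left _ hH) fun j => by
      rw [map_mul, hπ0, zero_mul])
  have h2 := 𝒦.mul_mem_left (dpair π 0) h1
  rw [dpair_mul, zero_mul, add_zero] at h2
  obtain ⟨h, hh, hhD, hh1⟩ := versb_sep hJ hp hdet hD
  have hz : (X z ^ D : MvPolynomial σ F).IsHomogeneous D := by
    have := (isHomogeneous_X F z).pow D
    rwa [one_mul] at this
  have hj := (hz.sub hhD).mul hHa
  obtain ⟨k₁, -, hk₁, h3⟩ := h𝒦.dual_lift (d := D + a) (by omega) hj
    (hin _ (by omega) _ hj (J.mul_mem_left _ hH) fun j => by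
      rw [map_mul, map_sub, map_pow, eval_X, hp, hh1, one_pow, sub_self, zero_mul])
  have h4 := 𝒦.sub_mem (𝒦.mul_mem_left (dpair (π ^ 2) 0) h3)
    (𝒦.mul_mem_left (dpair (X z ^ D - h) 0) h2)
  rw [dpair_mul, dpair_mul, dpair_sub, zero_mul, zero_mul, add_zero, add_zero,
    show π ^ 2 * ((X z ^ D - h) * H) - (X z ^ D - h) * (π * (π * H)) = 0 by ring] at h4
  have hf₁ := hπ.mul hg₁
  have h5 : (π ^ 2 * k₁ - (X z ^ D - h) * (π * g₁)).IsHomogeneous (D + (e + (e + a))) := by
    refine IsHomogeneous.sub ?_ ((hz.sub hhD).mul hf₁)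
    have := (hπ.pow 2).mul hk₁
    rwa [show e * 2 + (D + a) = D + (e + (e + a)) by omega] at this
  have h6 := ((mem_joinI h5).1 ((hA _ (by omega) _ h5).1
    ((h𝒦.dual_eps (by omega) h5).1 h4))).1
  obtain ⟨a', ha1, -, ha2⟩ := hJ.span _ (Nat.zero_le _) _ hf₁
  obtain ⟨b, hb1, hb2, hb3⟩ := hJ.span _ (Nat.zero_le _) _ hk₁
  have h7 : π ^ 2 * b - X z ^ D * a' = 0 := by
    refine hJ.indep_zero (sub_mem (hN b hb1) (Nsp_mul_X_pow hP.fz' ha1 D)) ?_
    rw [show π ^ 2 * b - X z ^ D * a' = π ^ 2 * k₁ - (X z ^ D - h) * (π * g₁) -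
      π ^ 2 * (k₁ - b) + X z ^ D * (π * g₁ - a') - h * (π * g₁) by ring]
    exact sub_mem (add_mem (sub_mem h6 (J.mul_mem_left _ hb3)) (J.mul_mem_left _ ha2))
      (J.mul_mem_right _ hh)
  obtain ⟨n₁, rfl⟩ := hdvd b ⟨a', sub_eq_zero.1 h7⟩
  have h8 : π ^ 2 * n₁ = a' := by
    refine mul_left_cancel₀ (pow_ne_zero D (X_ne_zero z)) ?_
    rw [← sub_eq_zero.1 h7]
    ring
  have hn : n₁.IsHomogeneous a := by
    refine isHomogeneous_iff_degree.2 fun γ hγ => ?_
    have h9 := isHomogeneous_iff_degree.1 hb2 (Finsupp.single z D + γ) (by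
      rwa [X_pow_eq_monomial, coeff_monomial_mul, one_mul])
    rw [map_add, Finsupp.degree_single] at h9
    omega
  rw [X_pow_eq_monomial] at hb1
  refine ⟨n₁, Nsp_of_monomial_mul hP.up' hb1, hn, ?_⟩
  have h9 : (π * g₁ - π ^ 2 * n₁).IsHomogeneous (e + (e + a)) := by
    refine hf₁.sub ?_
    have := (hπ.pow 2).mul hn
    rwa [show e * 2 + a = e + (e + a) by omega] at this
  have h10 := h𝒦.dual_eps_of (by omega) h9 (hin _ (by omega) _ h9 (h8 ▸ ha2) fun j => by
    rw [map_sub, map_mul, map_mul, map_pow, hπ0, zero_mul, zero_pow two_ne_zero, zero_mul,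
      sub_self])
  have h11 := 𝒦.sub_mem h2 h10
  rw [dpair_sub] at h11
  rw [dpair_mul, show H * π ^ 2 = π * (π * H) - 0 by ring,
    show H * 0 + n₁ * π ^ 2 = π * g₁ - (π * g₁ - π ^ 2 * n₁) by ring]
  exact h11

/-- Let `𝓙 = joinI J p`, `π = ∏ (X y - p j y * X z)`, `𝒦'' = {f | dpair (π ^ 2) 0 * f ∈ 𝒦}`.
Independence over `E'`: `π ^ 2 * n ∈ Nsp E' ≤ Nsp E`.  Spanning, for `α ∈ E'` of large degree,
`H = Hel E' J α`: lift `π H ∈ 𝓙` to `dpair (π H) g₁ ∈ 𝒦`, so `dpair (π ^ 2 H) f₁ ∈ 𝒦` with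
`f₁ = π g₁` vanishing at the points.  Let `h ∈ J` of degree `D` have value `1` at all points
(`exists_sep`), `j₀ = X z ^ D - h`; lift `dpair (j₀ H) k₁ ∈ 𝒦`; `dual_eps` gives
`π ^ 2 k₁ - j₀ f₁ ∈ 𝓙`, so `π ^ 2 b = X z ^ D a` for the normal forms `a, b` of `f₁, k₁` modulo `J`;
hence `b = X z ^ D n₁`, `a = π ^ 2 n₁`, `n₁ ∈ Nsp E'`, `f₁ - π ^ 2 n₁ ∈ 𝓙`, `dpair H n₁ ∈ 𝒦''`.
Then `𝒦' = satz z 𝒦''` (`ext_marked`), and `eq_of_agree`. -/
theorem vers_big (hP : Pair E E' y z μ) (hJ : Marked E' 0 J) (hp : ∀ j, p j z = 1)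
    (hdet : (Emat E' μ J p).det ≠ 0) (h𝒦 : Marked E d 𝒦)
    (hA : Agree (bc (dfst F) 𝒦) (joinI J p)) :
    ∃ 𝒦' : Ideal (MvPolynomial σ (DualNumber F)), Marked E' 0 𝒦' ∧ bc (dfst F) 𝒦' = J ∧
      𝒦 ≤ 𝒦' := by
  obtain ⟨d₀, hA⟩ := hA
  obtain ⟨D, h1, h2, hD⟩ : ∃ D, d ≤ D ∧ d₀ ≤ D ∧ ∀ j, (μ j).degree ≤ D :=
    ⟨d + d₀ + ∑ j, (μ j).degree, by omega, by omega, fun j => le_add_left
      (Finset.single_le_sum (f := fun j => (μ j).degree) (fun _ _ => Nat.zero_le _)
        (Finset.mem_univ j))⟩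
  have key := fun (α : σ →₀ ℕ) (hα : D ≤ α.degree) => versb_key hP hJ hp hdet (h𝒦.mono h1) hD
    (fun n hn => hA n (h2.trans hn)) hα (hJ.hel_mem (Nat.zero_le _)) (hJ.hel_hom (Nat.zero_le _))
  have hπ := (versb_hom y z fun j => p j y).pow 2
  have hπ0 : (∏ j, (X y - C (p j y) * X z) : MvPolynomial σ F) ^ 2 ≠ 0 :=
    pow_ne_zero 2 fun h => versb_not_dvd hP.ne (fun j => p j y) (h ▸ dvd_zero _)
  have hN : ∀ f ∈ Nsp F E', f * (∏ j, (X y - C (p j y) * X z)) ^ 2 ∈ Nsp F E := fun f hf => by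
    rw [mul_comm, sq, mul_assoc]
    exact hP.Nsp_le (Nsp_mul_lin hP.fy' hP.fz' _ (Nsp_mul_lin hP.fy' hP.fz' _ hf))
  generalize (∏ j, (X y - C (p j y) * X z) : MvPolynomial σ F) ^ 2 = Q at *
  have hQ : (dpair Q 0).IsHomogeneous (e * 2) := dpair_hom.2 ⟨hπ, isHomogeneous_zero _ _ _⟩
  have hm : ∀ f, f ∈ Submodule.colon 𝒦 {dpair Q 0} ↔ f * dpair Q 0 ∈ 𝒦 := fun f =>
    Submodule.mem_colon_singleton
  have hM : Marked E' D (Submodule.colon 𝒦 {dpair Q 0}) := by
    refine marked_of_monomials (h𝒦.homog.colon hQ hm) (fun α _ hα => ?_) fun n hn g g1 g2 g3 => ?_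
    · obtain ⟨n₁, n1, n2, n3⟩ := key α hα
      refine ⟨dpair (nf E' J α) (0 - n₁), dpair_Nsp.2 ⟨hJ.nf_mem (Nat.zero_le _),
        sub_mem (zero_mem _) n1⟩, dpair_hom.2 ⟨hJ.nf_hom (Nat.zero_le _),
          (isHomogeneous_zero _ _ _).sub n2⟩, (hm _).2 ?_⟩
      have h3 : (monomial α 1 : MvPolynomial σ (DualNumber F)) = dpair (monomial α 1) 0 := by
        rw [dpair, map_zero, mul_zero, add_zero, map_monomial, (dinl F).map_one]
      rwa [h3, dpair_sub, sub_sub_cancel]
    · obtain ⟨g₀, g₁, rfl⟩ := exists_dpair g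
      have h3 := h𝒦.indep (n + e * 2) (by omega) _ ?_ (g2.mul hQ) ((hm _).1 g3)
      · rw [dpair_mul, mul_zero, zero_add, dpair_eq_zero] at h3
        exact dpair_eq_zero.2 ⟨(mul_eq_zero.1 h3.1).resolve_right hπ0,
          (mul_eq_zero.1 h3.2).resolve_right hπ0⟩
      · rw [dpair_mul, mul_zero, zero_add]
        exact dpair_Nsp.2 ⟨hN _ (dpair_Nsp.1 g1).1, hN _ (dpair_Nsp.1 g1).2⟩
  have hS := (ext_marked hP.up' hP.ne hP.fy' hP.fz' hM).1
  have hle : ∀ f, f * dpair Q 0 ∈ 𝒦 → f ∈ satz z (Submodule.colon 𝒦 {dpair Q 0}) := fun f hf =>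
    ⟨0, by rwa [pow_zero, one_mul, hm]⟩
  refine ⟨_, hS, ?_, fun f hf => hle f (𝒦.mul_mem_right _ hf)⟩
  have hB := hS.bc (dfst F)
  refine Marked.eq_of_agree hP.fz' hB hJ (hB.agree_of_leD hJ (d := D)
    ((hB.mono (Nat.zero_le D)).leD_of_nf (hJ.mono (Nat.zero_le D)) fun α _ hα => ?_))
  obtain ⟨n₁, -, -, n3⟩ := key α hα
  have h3 := Ideal.mem_map_of_mem (MvPolynomial.map (dfst F)) (hle _ n3)
  rw [map_dfst_dpair] at h3
  exact hB.nf_eq (Nat.zero_le _) (hJ.nf_mem (Nat.zero_le _)) (hJ.nf_hom (Nat.zero_le _)) h3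

end Pool.Agent.MP_24718c_ag

end

end partVersB

section partFieldA

/-!
The field of definition of a scheme with points contains the expected invariants.
-/

set_option linter.unusedSectionVars false
set_option linter.unusedVariables false

open MvPolynomial

universe u

noncomputable section

namespace Pool.Agent.MP_24718c_ag

/-- the monic polynomial whose roots are the `y`-coordinates -/
def gpol {σ : Type} {F : Type u} [Field F] {e : ℕ} (p : Fin e → σ → F) (y : σ) : Polynomial F :=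
  ∏ j, (Polynomial.X - Polynomial.C (p j y))

/-- the polynomial expressing the `l`-coordinate through the `y`-coordinate -/
def fpol {σ : Type} {F : Type u} [Field F] {e : ℕ} (p : Fin e → σ → F) (y l : σ) :
    Polynomial F := Lagrange.interpolate Finset.univ (fun j => p j y) fun j => p j l

variable {σ : Type} [Fintype σ] [DecidableEq σ] {F : Type u} [Field F]
  {e d : ℕ} {E E' : Set (σ →₀ ℕ)} {y z : σ} {μ : Fin e → σ →₀ ℕ} {J : Ideal (MvPolynomial σ F)}
  {p : Fin e → σ → F}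

theorem exists_retraction (L : Subfield F) : ∃ π : F →ₗ[L] F, (∀ a, π a ∈ L) ∧
    ∀ a ∈ L, π a = a := by
  obtain ⟨g, hg⟩ := (Algebra.linearMap L F).exists_leftInverse_of_injective
    (LinearMap.ker_eq_bot.2 Subtype.val_injective)
  refine ⟨(Algebra.linearMap L F).comp g, fun a => (g a).2, fun a ha => ?_⟩
  exact congrArg Subtype.val (LinearMap.congr_fun hg ⟨a, ha⟩)

theorem fielda_mul {L : Subfield F} (π : F →ₗ[L] F) {a : F} (ha : a ∈ L) (b : F) :
    π (a * b) = a * π b := π.map_smul (⟨a, ha⟩ : L) b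

/-- polynomials with coefficients in `L` -/
def fieldaS (σ : Type) [DecidableEq σ] (L : Subfield F) : Subring (MvPolynomial σ F) where
  carrier := {f | ∀ γ, coeff γ f ∈ L}
  mul_mem' ha hb γ := by
    rw [coeff_mul]
    exact sum_mem fun x _ => mul_mem (ha _) (hb _)
  one_mem' γ := by
    rw [coeff_one]
    split_ifs
    exacts [one_mem _, zero_mem _]
  add_mem' ha hb γ := add_mem (ha γ) (hb γ)
  zero_mem' γ := zero_mem _
  neg_mem' ha γ := neg_mem (ha γ)

theorem fielda_mono {L : Subfield F} (α : σ →₀ ℕ) {a : F} (ha : a ∈ L) :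
    monomial α a ∈ fieldaS σ L := fun γ => by
  rw [coeff_monomial]
  split_ifs
  exacts [ha, zero_mem _]

theorem fielda_X {L : Subfield F} (i : σ) : X i ∈ fieldaS σ L := fielda_mono _ (one_mem _)

theorem fielda_hat {L : Subfield F} {I : Ideal (MvPolynomial σ F)} {D : ℕ} (hD : d ≤ D)
    (hL : ∀ α : σ →₀ ℕ, d ≤ α.degree → ∀ γ, coeff γ (nf E I α) ∈ L) {f : MvPolynomial σ F}
    (hf : f ∈ fieldaS σ L) (hh : f.IsHomogeneous D) : hat (nf E I) f ∈ fieldaS σ L := by
  rw [hat_apply]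
  refine sum_mem fun β hβ γ => ?_
  rw [coeff_smul, smul_eq_mul]
  exact mul_mem (hf β) (hL β (basicb_deg hh hβ ▸ hD) γ)

/-- apply the retraction to all coefficients: `c * π f = π (c * f) = c * f` -/
theorem coeff_mem_of_mul (L : Subfield F) {c f : MvPolynomial σ F} (hc0 : c ≠ 0)
    (hc : ∀ γ, coeff γ c ∈ L) (h : ∀ γ, coeff γ (c * f) ∈ L) : ∀ γ, coeff γ f ∈ L := by
  obtain ⟨π, h1, h2⟩ := exists_retraction L
  have h3 : ∀ γ, coeff γ (∑ β ∈ f.support, monomial β (π (coeff β f))) = π (coeff γ f) := by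
    intro γ
    simp only [coeff_sum, coeff_monomial, Finset.sum_ite_eq']
    split_ifs with h4
    · rfl
    · rw [notMem_support_iff.1 h4, map_zero]
  have h4 : c * ∑ β ∈ f.support, monomial β (π (coeff β f)) = c * f := by
    ext γ
    rw [← h2 _ (h γ), coeff_mul, coeff_mul, map_sum]
    refine Finset.sum_congr rfl fun x _ => ?_
    rw [h3, fielda_mul π (hc _)]
  intro γ
  rw [← mul_left_cancel₀ hc0 h4, h3]
  exact h1 _

/-- Multiplication matrices (first replace `d` by a number `≥ d` and `≥` all `|μ i|`).  `H i = X z ^ (d - |μ i|) * Hel E' J (μ i)`, and `n i` the normal form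
modulo `𝓙 = joinI J p` of `X l * x^(μ i + (d - |μ i|) e_z)` if `l = y`, of `X l * H i` in general.
With `Y i i'` the coefficient of `n i` at `μ i' + (d + 1 - |μ i'|) e_z`, the form
`X l * H i - ∑ Y i i' • X z * H i'` is in `J` and congruent modulo `𝓙` to an element of `Nsp E'`
(`Pair.decomp`), which is therefore zero; evaluate at the points. -/
theorem exists_mul_matrix (L : Subfield F) (hP : Pair E E' y z μ) (hJ : Marked E' 0 J)
    (hp : ∀ j, p j z = 1) (hM : Marked E d (joinI J p))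
    (hL : ∀ α : σ →₀ ℕ, d ≤ α.degree → ∀ γ, coeff γ (nf E (joinI J p) α) ∈ L) (l : σ)
    (hl : l = y ∨ ∀ q, coef E' J q ∈ L) :
    ∃ Y : Matrix (Fin e) (Fin e) F, (∀ i j, Y i j ∈ L) ∧
      Y * Emat E' μ J p = Emat E' μ J p * Matrix.diagonal fun j => p j l := by
  obtain ⟨D, hD, hμ⟩ : ∃ D, d ≤ D ∧ ∀ i, (μ i).degree ≤ D :=
    ⟨d + ∑ i, (μ i).degree, Nat.le_add_right _ _, fun i => (Finset.single_le_sum
      (f := fun i => (μ i).degree) (fun _ _ => Nat.zero_le _) (Finset.mem_univ i)).trans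
        (Nat.le_add_left _ _)⟩
  have hE' : ∀ i, μ i ∈ E' := fun i => ((hP.diff (μ i)).2 ⟨i, 0, by simp⟩).1
  have hnf : ∀ i t, X z ^ t * nf E' J (μ i) ∈ Nsp F E' := fun i t =>
    Nsp_mul_X_pow hP.fz' (hJ.nf_mem (Nat.zero_le _)) t
  have hom : ∀ i (g : MvPolynomial σ F), g.IsHomogeneous (μ i).degree →
      (X l * (X z ^ (D - (μ i).degree) * g)).IsHomogeneous (D + 1) := fun i g hg => by
    have := (isHomogeneous_X F l).mul (((isHomogeneous_X F z).pow (D - (μ i).degree)).mul hg)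
    have h1 := hμ i
    rwa [show 1 + (1 * (D - (μ i).degree) + (μ i).degree) = D + 1 by omega] at this
  have hw : ∀ i, ∃ w ∈ fieldaS σ L, w.IsHomogeneous (D + 1) ∧
      X l * (X z ^ (D - (μ i).degree) * Hel E' J (μ i)) - w ∈ Nsp F E' := by
    intro i
    rcases hl with rfl | hl
    · refine ⟨X l * (X z ^ (D - (μ i).degree) * monomial (μ i) 1), mul_mem (fielda_X _)
        (mul_mem (pow_mem (fielda_X _) _) (fielda_mono _ (one_mem _))),
        hom i _ (isHomogeneous_monomial' _ _), ?_⟩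
      have h1 := neg_mem (Nsp_mul_X_pow hP.fy' (hnf i (D - (μ i).degree)) 1)
      convert h1 using 1
      rw [Hel]
      ring
    · refine ⟨_, mul_mem (fielda_X _) (mul_mem (pow_mem (fielda_X _) _)
        (sub_mem (fielda_mono _ (one_mem _)) fun γ => ?_)), hom i _ (hJ.hel_hom (Nat.zero_le _)),
        by rw [Hel, sub_self]; exact zero_mem _⟩
      have h1 := hl (μ i, γ)
      rwa [coef, if_pos (hE' i)] at h1
  choose w hw1 hw2 hw3 using hw
  have hn := fun i => hM.hat_nf (hD.trans (Nat.le_succ D)) (hw2 i)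
  refine ⟨Matrix.of fun i i' => coeff (μ i' + Finsupp.single z (D + 1 - (μ i').degree))
    (hat (nf E (joinI J p)) (w i)), fun i i' => fielda_hat (hD.trans (Nat.le_succ D)) hL (hw1 i)
      (hw2 i) _, ?_⟩
  ext i j
  obtain ⟨h1, h2, h3⟩ := hn i
  set n := hat (nf E (joinI J p)) (w i) with hn'
  have h4 := hP.decomp (fun j => (hμ j).trans (Nat.le_succ D)) h1 h2
  set c : Fin e → F := fun i' => coeff (μ i' + Finsupp.single z (D + 1 - (μ i').degree)) n with hc
  have h5 : X l * (X z ^ (D - (μ i).degree) * Hel E' J (μ i)) -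
      ∑ i', c i' • (X z ^ (D + 1 - (μ i').degree) * Hel E' J (μ i')) - (w i - n) ∈ J := by
    refine sub_mem (sub_mem (J.mul_mem_left _ (J.mul_mem_left _ (hJ.hel_mem (Nat.zero_le _))))
      (sum_mem fun i' _ => ?_)) h3.1
    rw [smul_eq_C_mul]
    exact J.mul_mem_left _ (J.mul_mem_left _ (hJ.hel_mem (Nat.zero_le _)))
  have h6 := hJ.indep_zero (by
    have := add_mem (add_mem (hw3 i) h4) (sum_mem fun i' (_ : i' ∈ Finset.univ) =>
      Submodule.smul_mem _ (c i') (hnf i' (D + 1 - (μ i').degree)))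
    convert this using 1
    simp only [Hel, mul_sub, smul_sub, Finset.sum_sub_distrib, build_pow_mul]
    ring) h5
  have h7 := congrArg (eval (p j)) h6
  rw [map_sub, ((mem_joinI ((hw2 i).sub h2)).1 h3).2 j] at h7
  simp only [map_sub, map_mul, map_pow, eval_X, hp, one_pow, one_mul, map_sum, smul_eval,
    map_zero, sub_zero, sub_eq_zero] at h7
  rw [Matrix.mul_diagonal, Matrix.mul_apply, mul_comm]
  exact h7.symm

theorem fielda_pi (L : Subfield F) (hg : ∀ m, (gpol p y).coeff m ∈ L) :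
    ∏ j, (X y - C (p j y) * X z) ∈ fieldaS σ L := by
  have h1 := Polynomial.homogenize_finsetProd (s := Finset.univ)
    (p := fun j => Polynomial.X - Polynomial.C (p j y)) (n := fun _ => 1)
    fun j _ => (Polynomial.natDegree_X_sub_C _).le
  have h2 := congrArg (rename ![y, z]) h1
  simp only [map_prod, Polynomial.homogenize_sub, Polynomial.homogenize_X one_ne_zero,
    Polynomial.homogenize_C, map_sub, map_mul, rename_X, rename_C, Nat.sub_self, pow_zero, mul_one,
    pow_one, Matrix.cons_val_zero, Matrix.cons_val_one] at h2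
  rw [← h2, Polynomial.homogenize, map_sum]
  refine sum_mem fun x _ => ?_
  rw [rename_monomial]
  exact fielda_mono _ (hg _)

theorem fielda_pow (L : Subfield F) {Y : Matrix (Fin e) (Fin e) F} (hY : ∀ i j, Y i j ∈ L)
    (m : ℕ) : ∀ i j, (Y ^ m) i j ∈ L := by
  induction m with
  | zero =>
    intro i j
    rw [pow_zero, Matrix.one_apply]
    split_ifs
    exacts [one_mem _, zero_mem _]
  | succ m ih =>
    intro i j
    rw [pow_succ, Matrix.mul_apply]
    exact sum_mem fun x _ => mul_mem (ih _ _) (hY _ _)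

theorem fielda_aeval {Y M : Matrix (Fin e) (Fin e) F} {a : Fin e → F}
    (h : Y * M = M * Matrix.diagonal a) (f : Polynomial F) :
    Polynomial.aeval Y f * M = M * Matrix.diagonal fun j => f.eval (a j) := by
  induction f using Polynomial.induction_on with
  | C c =>
    simp only [Polynomial.aeval_C, Polynomial.eval_C]
    rw [Algebra.commutes]
    rfl
  | add f g hf hg =>
    simp only [map_add, add_mul, hf, hg, Polynomial.eval_add, ← Matrix.diagonal_add, mul_add]
  | monomial m c ih =>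
    rw [pow_succ, ← mul_assoc, mul_comm _ Polynomial.X, map_mul, Polynomial.aeval_X, mul_assoc, ih,
      ← mul_assoc, h, mul_assoc, Matrix.diagonal_mul_diagonal]
    simp only [Polynomial.eval_mul, Polynomial.eval_X]

/-- (1) `gpol = charpoly Y` for `l = y` (conjugate to a diagonal matrix; `Matrix.charpoly_map`).
(2) `π = ∏ (X y - p j y * X z)` has coefficients in `L` (they are those of `gpol`);
`π * X z ^ t * Hel E' J α ∈ 𝓙` and `π * X z ^ t * nf E' J α ∈ Nsp E`, so the latter is the normal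
form of `π * X z ^ t * x^α`; `coeff_mem_of_mul`.  (3) `aeval Y (fpol l) = Y_l`; apply the
retraction to the coefficients of `fpol l`: the new polynomial of degree `< e` has the same
property, so it takes the same values at the `p j y` (`Lagrange.eq_interpolate`). -/
theorem field_sub (L : Subfield F) (hP : Pair E E' y z μ) (hJ : Marked E' 0 J)
    (hp : ∀ j, p j z = 1) (hdet : (Emat E' μ J p).det ≠ 0)
    (hinj : Function.Injective fun j => p j y) (hM : Marked E d (joinI J p))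
    (hL : ∀ α : σ →₀ ℕ, d ≤ α.degree → ∀ γ, coeff γ (nf E (joinI J p) α) ∈ L) :
    (∀ q, coef E' J q ∈ L) ∧ (∀ m, (gpol p y).coeff m ∈ L) ∧
      ∀ l m, (fpol p y l).coeff m ∈ L := by
  have hu : IsUnit (Emat E' μ J p).det := Ne.isUnit hdet
  obtain ⟨Y, hY, hY'⟩ := exists_mul_matrix L hP hJ hp hM hL y (Or.inl rfl)
  have hg : ∀ m, (gpol p y).coeff m ∈ L := by
    intro m
    have h1 : Y.charpoly = gpol p y := by
      rw [← Matrix.mul_nonsing_inv_cancel_right _ Y hu, hY', Matrix.charpoly_mul_comm,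
        Matrix.nonsing_inv_mul_cancel_left _ _ hu, Matrix.charpoly_diagonal, gpol]
    have h2 : Y = (Matrix.of fun i j => (⟨Y i j, hY i j⟩ : L)).map L.subtype := rfl
    rw [← h1, h2, Matrix.charpoly_map, Polynomial.coeff_map]
    exact Subtype.property _
  have hc : ∀ q, coef E' J q ∈ L := by
    rintro ⟨α, γ⟩
    rw [coef]
    split_ifs with hα
    swap
    · exact zero_mem _
    have h0 : (∏ j, (X y - C (p j y) * X z) : MvPolynomial σ F).IsHomogeneous e := by
      have := IsHomogeneous.prod Finset.univ (fun j => (X y - C (p j y) * X z : MvPolynomial σ F))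
        (fun _ => 1) fun j _ => (isHomogeneous_X F y).sub ((isHomogeneous_X F z).C_mul _)
      simpa using this
    have hom : ∀ g : MvPolynomial σ F, g.IsHomogeneous α.degree →
        ((∏ j, (X y - C (p j y) * X z)) * (X z ^ d * g)).IsHomogeneous (e + (1 * d + α.degree)) :=
      fun g hg => h0.mul (((isHomogeneous_X F z).pow d).mul hg)
    have hd : d ≤ e + (1 * d + α.degree) := by omega
    have ha := hom _ (isHomogeneous_monomial' α 1)
    obtain ⟨h1, h2, h3⟩ := hM.hat_nf hd ha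
    have h4 : (∏ j, (X y - C (p j y) * X z)) * (X z ^ d * Hel E' J α) ∈ joinI J p := by
      refine (mem_joinI (hom _ (hJ.hel_hom (Nat.zero_le _)))).2
        ⟨J.mul_mem_left _ (J.mul_mem_left _ (hJ.hel_mem (Nat.zero_le _))), fun j => ?_⟩
      rw [map_mul, map_prod, Finset.prod_eq_zero (Finset.mem_univ j), zero_mul]
      simp [hp]
    have h5 := hM.indep _ hd _ (sub_mem (hP.Nsp_le (Nsp_mul_lin hP.fy' hP.fz' (fun j => p j y)
      (Nsp_mul_X_pow hP.fz' (hJ.nf_mem (α := α) (Nat.zero_le _)) d))) h1)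
      ((hom _ (hJ.nf_hom (Nat.zero_le _))).sub h2) (by
        convert sub_mem h3 h4 using 1
        rw [Hel]
        ring)
    have h6 := fielda_pi (y := y) (z := z) L hg
    refine coeff_mem_of_mul L (c := (∏ j, (X y - C (p j y) * X z)) * X z ^ d)
      (mul_ne_zero (Finset.prod_ne_zero_iff.2 fun j _ h => ?_) (pow_ne_zero _ (X_ne_zero z)))
      (mul_mem h6 (pow_mem (fielda_X _) _)) ?_ γ
    · have := congrArg (eval fun l => if l = y then (1 : F) else 0) h
      simp [hP.ne.symm] at this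
    · rw [mul_assoc, sub_eq_zero.1 h5]
      exact fielda_hat hd hL (mul_mem h6 (mul_mem (pow_mem (fielda_X _) _)
        (fielda_mono _ (one_mem _)))) ha
  refine ⟨hc, hg, fun l => ?_⟩
  obtain ⟨Z, hZ, hZ'⟩ := exists_mul_matrix L hP hJ hp hM hL l (Or.inr hc)
  obtain ⟨π, h1, h2⟩ := exists_retraction L
  have hi : Set.InjOn (fun j => p j y) (Finset.univ : Finset (Fin e)) := hinj.injOn
  have h3 : ∀ m, (∑ β ∈ (fpol p y l).support, Polynomial.monomial β
      (π ((fpol p y l).coeff β))).coeff m = π ((fpol p y l).coeff m) := by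
    intro m
    simp only [Polynomial.finsetSum_coeff, Polynomial.coeff_monomial, Finset.sum_ite_eq']
    split_ifs with h4
    · rfl
    · rw [Polynomial.notMem_support_iff.1 h4, map_zero]
  have h4 : Polynomial.aeval Y (fpol p y l) = Z := by
    refine (Matrix.isUnit_iff_isUnit_det _ |>.2 hu).mul_right_cancel ?_
    rw [fielda_aeval hY', hZ']
    congr 2
    funext j
    exact Lagrange.eval_interpolate_at_node _ hi (Finset.mem_univ j)
  have h5 : Polynomial.aeval Y (∑ β ∈ (fpol p y l).support, Polynomial.monomial β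
      (π ((fpol p y l).coeff β))) = Z := by
    ext i j
    rw [← h2 _ (hZ i j), ← h4, (fpol p y l).as_sum_support]
    conv_lhs => rw [← (fpol p y l).as_sum_support]
    simp only [map_sum, Polynomial.aeval_monomial, ← Algebra.smul_def, Matrix.sum_apply,
      Matrix.smul_apply, smul_eq_mul]
    refine Finset.sum_congr rfl fun m _ => ?_
    rw [mul_comm, mul_comm _ ((Y ^ m) i j), fielda_mul π (fielda_pow L hY m i j)]
  have h6 := fielda_aeval hY' (∑ β ∈ (fpol p y l).support, Polynomial.monomial β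
      (π ((fpol p y l).coeff β)))
  rw [h5, hZ'] at h6
  have h7 := Matrix.diagonal_injective ((Matrix.isUnit_iff_isUnit_det _ |>.2 hu).mul_left_cancel h6)
  have h8 := Lagrange.eq_interpolate_of_eval_eq (fun j => p j l) hi
    (lt_of_le_of_lt (Polynomial.degree_mono fun m hm => ?_)
      (Lagrange.degree_interpolate_lt (fun j => p j l) hi)) fun j _ => (congrFun h7 j).symm
  · intro m
    rw [fpol, ← h8, h3]
    exact h1 _
  · rw [Polynomial.mem_support_iff] at hm ⊢
    intro h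
    rw [h3, fpol, h, map_zero] at hm
    exact hm rfl

end Pool.Agent.MP_24718c_ag

end

end partFieldA

section partFieldB

/-!
Galois descent and the transcendence degree count.
-/

set_option linter.unusedSectionVars false
set_option linter.unusedVariables false

open MvPolynomial

universe u

noncomputable section

namespace Pool.Agent.MP_24718c_ag

variable {σ : Type} [Fintype σ] [DecidableEq σ] {F : Type u} [Field F]
  {e d : ℕ} {E E' : Set (σ →₀ ℕ)} {y z : σ} {μ : Fin e → σ →₀ ℕ} {J : Ideal (MvPolynomial σ F)}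
  {p : Fin e → σ → F}

variable {k : Type u} [Field k] [Algebra k F]

theorem fieldb_eval_gpol (p : Fin e → σ → F) (y : σ) (a : F) :
    (gpol p y).eval a = 0 ↔ ∃ j, p j y = a := by
  rw [gpol, Polynomial.eval_prod, Finset.prod_eq_zero_iff]
  constructor
  · rintro ⟨j, -, hj⟩
    rw [Polynomial.eval_sub, Polynomial.eval_X, Polynomial.eval_C, sub_eq_zero] at hj
    exact ⟨j, hj.symm⟩
  · rintro ⟨j, hj⟩
    refine ⟨j, Finset.mem_univ j, ?_⟩
    rw [Polynomial.eval_sub, Polynomial.eval_X, Polynomial.eval_C, hj, sub_self]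

theorem fieldb_gpol_ne (p : Fin e → σ → F) (y : σ) : gpol p y ≠ 0 :=
  (Polynomial.monic_prod_of_monic _ _ fun j _ => Polynomial.monic_X_sub_C (p j y)).ne_zero

theorem fieldb_fix (L : IntermediateField k F) (τ : F ≃ₐ[L] F) {f : Polynomial F}
    (hf : ∀ m, f.coeff m ∈ L) (a : F) : τ (f.eval a) = f.eval (τ a) := by
  have h1 : f.map (τ : F →+* F) = f := by
    ext m
    rw [Polynomial.coeff_map]
    exact τ.commutes (⟨f.coeff m, hf m⟩ : L)
  have h2 := Polynomial.eval_map_apply (p := f) (τ : F →+* F) a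
  rw [h1] at h2
  exact h2.symm

/-- `F` is the splitting field over `L` of the separable polynomial `gpol` (lift it to `L[X]`,
`IsGalois.of_separable_splitting_field`). -/
theorem isGalois_pts (L : IntermediateField k F) (hinj : Function.Injective fun j => p j y)
    (hg : ∀ m, (gpol p y).coeff m ∈ L)
    (hgen : IntermediateField.adjoin L (Set.range fun j => p j y) = ⊤) :
    IsGalois L F ∧ FiniteDimensional L F := by
  classical
  have h1 : gpol p y ∈ Polynomial.lifts (algebraMap L F) :=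
    (Polynomial.lifts_iff_coeff_lifts _).2 fun m => ⟨⟨_, hg m⟩, rfl⟩
  obtain ⟨q, hq⟩ := (Polynomial.mem_lifts _).1 h1
  have hsep : q.Separable := by
    rw [← Polynomial.separable_map (algebraMap L F), hq, gpol]
    exact Polynomial.separable_prod_X_sub_C_iff.2 hinj
  have hq0 : q ≠ 0 := by
    rintro rfl
    rw [Polynomial.map_zero] at hq
    exact fieldb_gpol_ne p y hq.symm
  have hroot : q.rootSet F = Set.range fun j => p j y := by
    ext a
    rw [Polynomial.mem_rootSet, Polynomial.aeval_def, ← Polynomial.eval_map, hq, fieldb_eval_gpol]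
    exact ⟨fun h => h.2, fun h => ⟨hq0, h⟩⟩
  have hsf : q.IsSplittingField L F := by
    rw [isSplittingField_iff_intermediateField, hroot, hq]
    exact ⟨Polynomial.Splits.prod fun j _ => Polynomial.Splits.X_sub_C _, hgen⟩
  exact ⟨IsGalois.of_separable_splitting_field hsep,
    Polynomial.IsSplittingField.finiteDimensional F q⟩

/-- `τ` permutes the roots of `gpol`, and `p j l = fpol l (p j y)` for `l ≠ y, z`. -/
theorem exists_perm (L : IntermediateField k F) (hinj : Function.Injective fun j => p j y)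
    (hp : ∀ j, p j z = 1) (hg : ∀ m, (gpol p y).coeff m ∈ L)
    (hf : ∀ l, l ≠ y → l ≠ z → ∀ m, (fpol p y l).coeff m ∈ L) (τ : F ≃ₐ[L] F) :
    ∃ π : Equiv.Perm (Fin e), ∀ j l, τ (p j l) = p (π j) l := by
  classical
  have h1 : ∀ j, ∃ j', p j' y = τ (p j y) := fun j => by
    rw [← fieldb_eval_gpol, ← fieldb_fix L τ hg, (fieldb_eval_gpol p y _).2 ⟨j, rfl⟩, map_zero]
  choose π hπ using h1
  have hπi : Function.Injective π := fun a b hab => by
    apply hinj
    apply τ.injective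
    show τ (p a y) = τ (p b y)
    rw [← hπ, ← hπ, hab]
  have hev : ∀ l j, (fpol p y l).eval (p j y) = p j l := fun l j =>
    Lagrange.eval_interpolate_at_node (v := fun j => p j y) (fun j => p j l) hinj.injOn
      (Finset.mem_univ j)
  refine ⟨Equiv.ofBijective π (Finite.injective_iff_bijective.1 hπi), fun j l => ?_⟩
  show τ (p j l) = p (π j) l
  by_cases hy : l = y
  · rw [hy, hπ]
  by_cases hz : l = z
  · rw [hz, hp, hp, map_one]
  rw [← hev l j, fieldb_fix L τ (hf l hy hz), ← hπ, hev]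

theorem bc_joinI_aut (hJ : Marked E' 0 J) (τ : F →+* F) (hc : ∀ q, τ (coef E' J q) = coef E' J q)
    (π : Equiv.Perm (Fin e)) (hπ : ∀ j l, τ (p j l) = p (π j) l) :
    bc τ (joinI J p) ≤ joinI J p := by
  have h1 : bc τ J = J := (hJ.bc τ).eq_of_coef hJ fun q => by rw [hJ.coef_bc, hc]
  refine (bc_joinI_le hJ.homog τ).trans ?_
  rw [h1]
  refine inf_le_inf_left J (le_iInf fun j => ?_)
  refine (iInf_le _ (π.symm j)).trans (le_of_eq ?_)
  congr 1
  funext l
  show τ (p (π.symm j) l) = p j l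
  rw [hπ, Equiv.apply_symm_apply]

/-- `Algebra.IsAlgebraic.isTranscendenceBasis_of_lift_le_trdeg_of_finite`,
`AlgebraicIndependent.aevalEquivField`, `MvPolynomial.trdeg_of_isDomain` -/
theorem rational_of_count {ι : Type} [Finite ι] (γ : ι → FractionRing (MvPolynomial ι k))
    (halg : Algebra.IsAlgebraic (IntermediateField.adjoin k (Set.range γ))
      (FractionRing (MvPolynomial ι k))) :
    ∃ N : ℕ, Nonempty (IntermediateField.adjoin k (Set.range γ) ≃ₐ[k] FractionRing (Lam k N)) := by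
  have halg' : Algebra.IsAlgebraic (Algebra.adjoin k (Set.range γ))
      (FractionRing (MvPolynomial ι k)) := IntermediateField.isAlgebraic_adjoin_iff_top.1 halg
  have hX : AlgebraicIndependent k
      ((IsScalarTower.toAlgHom k (MvPolynomial ι k) (FractionRing (MvPolynomial ι k))) ∘ X) :=
    (MvPolynomial.algebraicIndependent_X ι k).map'
      (IsFractionRing.injective (MvPolynomial ι k) (FractionRing (MvPolynomial ι k)))
  have hγ : IsTranscendenceBasis k γ :=
    Algebra.IsAlgebraic.isTranscendenceBasis_of_lift_le_trdeg_of_finite k γ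
      hX.lift_cardinalMk_le_trdeg
  exact ⟨Nat.card ι, ⟨hγ.1.aevalEquivField.symm.trans
    (IsFractionRing.algEquivOfAlgEquiv (MvPolynomial.renameEquiv k (Finite.equivFin ι)))⟩⟩

end Pool.Agent.MP_24718c_ag

end

end partFieldB

end

-- part MP_24718c_ag.Loc
section

section partChart

/-!
Local consequences of the chart axioms; unobstructedness in depth at least two.
-/

set_option linter.unusedSectionVars false
set_option linter.unusedVariables false

open MvPolynomial

universe u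

noncomputable section

namespace Pool.Agent.MP_24718c_ag

variable {σ : Type} [Fintype σ] [DecidableEq σ] {k : Type u} [Field k] {R : Type u} [CommRing R]
  [Algebra k R] {𝓘 : Ideal (MvPolynomial σ R)} {E : Set (σ →₀ ℕ)}

theorem isLocalHom_aug {B : Type u} [CommRing B] [Algebra k B] [IsLocalRing B] (ε : B →ₐ[k] k) :
    IsLocalHom (ε : B →+* k) := by
  exact IsLocalHom.of_surjective (ε : B →+* k) fun c => ⟨algebraMap k B c, ε.commutes c⟩

theorem isLocalRing_of_nilpotent {B : Type u} [CommRing B] [Algebra k B] (ε : B →ₐ[k] k)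
    (h : IsNilpotent (RingHom.ker (ε : B →+* k))) : IsLocalRing B := by
  have : Nontrivial B := (ε : B →+* k).domain_nontrivial
  obtain ⟨n, hn⟩ := h
  have key : ∀ a : B, ε a = 0 → IsNilpotent a := fun a ha => ⟨n, by
    have := Ideal.pow_mem_pow (I := RingHom.ker (ε : B →+* k)) (x := a) ha n
    rwa [hn] at this⟩
  refine IsLocalRing.of_isUnit_or_isUnit_one_sub_self fun a => ?_
  by_cases ha : ε a = 0
  · exact Or.inr (key a ha).isUnit_one_sub
  · left
    have h1 : IsUnit (algebraMap k B (ε a)) := (Ne.isUnit ha).map _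
    have h2 := (key (a - algebraMap k B (ε a)) (by simp)).isUnit_add_left_of_commute h1
      (Commute.all _ _)
    rwa [add_sub_cancel] at h2

/-- `opn` with `K = k`, then `inj` for `ε.comp φ` and `x₀` (use `bc_bc`, `Agree.bc`). -/
theorem MChart.classify (hM : MChart k E R 𝓘) {x₀ : R →ₐ[k] k}
    (hx₀ : Agree (bc (x₀ : R →+* k) 𝓘) (monI k E)) {B : Type u} [CommRing B] [Algebra k B]
    [IsLocalRing B] (ε : B →ₐ[k] k) {d : ℕ} {J : Ideal (MvPolynomial σ B)} (hJ : Marked E d J)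
    (hr : Agree (bc (ε : B →+* k) J) (monI k E)) :
    ∃ φ : R →ₐ[k] B, Agree (bc (φ : R →+* B) 𝓘) J ∧ ε.comp φ = x₀ := by
  obtain ⟨φ, hφ⟩ := hM.opn B k ε (isLocalHom_aug ε) d J hJ x₀ (hx₀.trans hr.symm)
  refine ⟨φ, hφ, hM.inj k _ _ ?_⟩
  have h1 := hφ.bc (hM.homog.bc _) hJ.homog (ε : B →+* k)
  rw [bc_bc] at h1
  exact (h1.trans hr).trans hx₀.symm

theorem MChart.marked (hE : IsUpperSet E) (hM : MChart k E R 𝓘) {x₀ : R →ₐ[k] k}
    (hx₀ : Agree (bc (x₀ : R →+* k) 𝓘) (monI k E)) {B : Type u} [CommRing B] [Algebra k B]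
    [IsLocalRing B] (ε : B →ₐ[k] k) (φ : R →ₐ[k] B) (hφ : ε.comp φ = x₀) :
    ∃ d, Marked E d (bc (φ : R →+* B) 𝓘) := by
  exact hM.mark B k ε (isLocalHom_aug ε) φ 0 (monI k E) (marked_monI hE) (hφ ▸ hx₀)

/-- `B₁` and `B` are local.  Classify `I₁` by `φ₁ : R → B₁` (`Red.bc_le`, `agree_of_le`), lift to
`φ : R → B` (`Algebra.FormallySmooth.liftOfSurjective`), take `I = satz z (bc φ 𝓘)`
(`ext_marked`); `bc ρ I` and `I₁` agree and are marked in all degrees: `eq_of_agree`. -/
theorem unob_of_free (hE : IsUpperSet E) (hM : MChart k E R 𝓘) [Algebra.FormallySmooth k R]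
    {x₀ : R →ₐ[k] k} (hx₀ : Agree (bc (x₀ : R →+* k) 𝓘) (monI k E)) {y z : σ} (hyz : y ≠ z)
    (hy : FreeN E y) (hz : FreeN E z) : Unob k E := by
  intro B B₁ _ _ _ _ ρ ε hρ hnil hsq I₁ hI₁ hred
  have : IsLocalRing B₁ := isLocalRing_of_nilpotent ε ⟨2, by rw [pow_two, hsq]; rfl⟩
  have : IsLocalRing B := by
    refine isLocalRing_of_nilpotent (ε.comp ρ) ?_
    obtain ⟨n, hn⟩ := hnil
    refine ⟨2 * n, ?_⟩
    have h1 : RingHom.ker (ε.comp ρ : B →+* k) ^ 2 ≤ RingHom.ker (ρ : B →+* B₁) := by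
      rw [pow_two, Ideal.mul_le]
      intro a ha b hb
      have h2 : ρ a * ρ b ∈ RingHom.ker (ε : B₁ →+* k) * RingHom.ker (ε : B₁ →+* k) :=
        Ideal.mul_mem_mul ha hb
      rw [hsq, Ideal.mem_bot] at h2
      rw [RingHom.mem_ker, map_mul]
      exact h2
    rw [pow_mul, Ideal.zero_eq_bot, eq_bot_iff, ← Ideal.zero_eq_bot, ← hn]
    exact Ideal.pow_right_mono h1 n
  obtain ⟨φ₁, h1, h2⟩ := hM.classify hx₀ ε hI₁
    ((hI₁.bc _).agree_of_le (marked_monI hE) (hred.bc_le hE _))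
  obtain ⟨φ, hφ⟩ : ∃ φ : R →ₐ[k] B, ρ.comp φ = φ₁ :=
    ⟨_, Algebra.FormallySmooth.comp_liftOfSurjective φ₁ ρ hρ hnil⟩
  obtain ⟨d, hd⟩ := hM.marked hE hx₀ (ε.comp ρ) φ (by rw [AlgHom.comp_assoc, hφ, h2])
  obtain ⟨h3, h4⟩ := ext_marked hE hyz hy hz hd
  refine ⟨_, h3, le_of_eq (Marked.eq_of_agree hz (h3.bc _) hI₁ ?_)⟩
  have h5 := h4.bc h3.homog hd.homog (ρ : B →+* B₁)
  rw [bc_bc] at h5
  subst hφ
  exact h5.trans h1

/-- One variable: every ideal marked over a set free in that variable agrees with the monomial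
ideal (`E` is empty or everything), so `inj` shows that every deformation of `x₀` is constant. -/
theorem MChart.rigid {E : Set (Fin 1 →₀ ℕ)} {𝓘 : Ideal (MvPolynomial (Fin 1) R)}
    (hE : IsUpperSet E) (hz : FreeN E 0) (hM : MChart k E R 𝓘) {x₀ : R →ₐ[k] k}
    (hx₀ : Agree (bc (x₀ : R →+* k) 𝓘) (monI k E)) {B : Type u} [CommRing B] [Algebra k B]
    [IsLocalRing B] (ε : B →ₐ[k] k) (φ : R →ₐ[k] B) (hφ : ε.comp φ = x₀) :
    φ = (Algebra.ofId k B).comp x₀ := by
  obtain ⟨d, hd⟩ := hM.marked hE hx₀ ε φ hφ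
  have h0 : Marked E d (monI B E) := (marked_monI hE).mono (Nat.zero_le d)
  have h1 : Agree (bc (φ : R →+* B) 𝓘) (monI B E) := by
    refine hd.agree_of_leD h0 (hd.leD_of_nf h0 fun α hα hα' => ?_)
    have h2 : (0 : Fin 1 →₀ ℕ) ∈ E := by
      refine hz.add_single (t := α 0) ?_
      convert hα using 1
      ext
      simp
    rw [nf_monI hE hα]
    ext γ
    exact mem_Nsp.1 (hd.nf_mem hα') γ (hE zero_le h2)
  have h3 := hx₀.bc (hM.homog.bc _) (marked_monI hE).homog (Algebra.ofId k B : k →+* B)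
  rw [bc_bc, bc_monI] at h3
  exact hM.inj B _ _ (h1.trans h3.symm)

end Pool.Agent.MP_24718c_ag

end

end partChart

section partT1a

/-!
The algebraic core of the statement that tangent weights at a smooth point have only one
negative coordinate.
-/

set_option linter.unusedSectionVars false
set_option linter.unusedVariables false

open MvPolynomial

universe u

noncomputable section

namespace Pool.Agent.MP_24718c_ag

variable {σ : Type} [Fintype σ] [DecidableEq σ] {B : Type u} [CommRing B] {E : Set (σ →₀ ℕ)}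

/-- distraction constants: only the variable `l`, only the levels `≥ a` -/
def t1c (l : σ) (a : ℕ) (τ : B) : σ → ℕ → B := fun i b => if i = l ∧ a ≤ b then τ else 0

/-- the exponents that are not below `γ + ℕ e_z` -/
def boxc (z : σ) (γ : σ →₀ ℕ) : Set (σ →₀ ℕ) := {β | ∃ h, h ≠ z ∧ γ h < β h}

theorem isUpperSet_boxc (z : σ) (γ : σ →₀ ℕ) : IsUpperSet (boxc z γ) := 
  fun _ _ hab ⟨h, h1, h2⟩ => ⟨h, h1, h2.trans_le (hab h)⟩

theorem t1a_add {z : σ} {γ β : σ →₀ ℕ} (h : β ∉ boxc z γ) :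
    β + Finsupp.single z 1 ∉ boxc z γ := by
  rintro ⟨k, k1, k2⟩
  refine h ⟨k, k1, ?_⟩
  rwa [Finsupp.add_apply, Finsupp.single_eq_of_ne k1, add_zero] at k2

theorem t1a_cancel {τ : B} (hτ : τ ∈ nonZeroDivisors B) {l z : σ} (hlz : l ≠ z) (γ : σ →₀ ℕ)
    {g : MvPolynomial σ B} (h : (X l - C τ * X z) * g ∈ monI B (boxc z γ)) :
    g ∈ monI B (boxc z γ) := by
  rw [mem_monI (isUpperSet_boxc z γ)] at h ⊢
  have key : ∀ β, β ∉ boxc z γ → coeff (β + Finsupp.single z 1) (X l * g) = 0 → coeff β g = 0 := by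
    intro β hβ h0
    have h1 := h _ (t1a_add hβ)
    rw [sub_mul, coeff_sub, h0, mul_assoc, coeff_C_mul, add_comm β, coeff_X_mul, zero_sub,
      neg_eq_zero] at h1
    exact (mem_nonZeroDivisors_iff.1 hτ).1 _ h1
  intro β hβ
  induction hn : β l generalizing β with
  | zero =>
    refine key β hβ (distr_coeff_X _ _ ?_ _)
    rw [Finsupp.add_apply, hn, Finsupp.single_eq_of_ne hlz, add_zero]
  | succ n ih =>
    rcases distr_split β l with h0 | ⟨δ, rfl⟩
    · omega
    · refine key _ hβ ?_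
      rw [add_assoc, coeff_X_mul]
      refine ih _ (t1a_add fun k => hβ (isUpperSet_boxc z γ le_add_self k)) ?_
      rw [Finsupp.add_apply, Finsupp.single_eq_same] at hn
      rw [Finsupp.add_apply, Finsupp.single_eq_of_ne hlz]
      omega

/-- `x_l - τ z` is a nonzerodivisor modulo the monomial ideal of `boxc z γ`: for `s = 1` show
`coeff β g = 0` for `β ∉ boxc` by induction on `β l`, looking at the coefficient at `β + e_z`. -/
theorem boxc_cancel {τ : B} (hτ : τ ∈ nonZeroDivisors B) {l z : σ} (hlz : l ≠ z) (γ : σ →₀ ℕ)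
    (s : ℕ) {g : MvPolynomial σ B} (h : (X l - C τ * X z) ^ s * g ∈ monI B (boxc z γ)) :
    g ∈ monI B (boxc z γ) := by
  induction s with
  | zero => rwa [pow_zero, one_mul] at h
  | succ s ih =>
    rw [pow_succ', mul_assoc] at h
    exact ih (t1a_cancel hτ hlz γ h)

theorem t1a_pow {z h : σ} (h1 : h ≠ z) {γ : σ →₀ ℕ} {m : ℕ} (hm : γ h < m) :
    (X h : MvPolynomial σ B) ^ m ∈ monI B (boxc z γ) := by
  rw [X_pow_eq_monomial]
  exact Ideal.subset_span ⟨_, ⟨h, h1, by rwa [Finsupp.single_eq_same]⟩, rfl⟩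

/-- For `β ∈ E` some `h ≠ z` has `γ h < β h` (freeness); `Dis β` is divisible by `X h ^ (β h)` if
`h ≠ l` and by `X l ^ min (β l) a` if `h = l`. -/
theorem disI_le_boxc (hE : IsUpperSet E) {z l : σ} (hz : FreeN E z) {γ : σ →₀ ℕ} (hγ : γ ∉ E)
    {a : ℕ} (ha : γ l < a) (τ : B) : disI z (t1c l a τ) E ≤ monI B (boxc z γ) := by
  rw [disI, Ideal.span_le]
  rintro _ ⟨β, hβ, rfl⟩
  obtain ⟨h, h1, h2⟩ : β ∈ boxc z γ := by
    by_contra hn
    refine hγ (hz.add_single (t := β z) (hE (fun k => ?_) hβ))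
    rw [Finsupp.add_apply]
    by_cases e : k = z
    · rw [e, Finsupp.single_eq_same]
      exact le_add_self
    · exact (not_lt.1 fun k2 => hn ⟨k, e, k2⟩).trans le_self_add
  have e : (X h : MvPolynomial σ B) ^ (γ h + 1) =
      ∏ b ∈ Finset.range (γ h + 1), (X h - C (t1c l a τ h b) * X z) := by
    rw [Finset.prod_congr rfl (g := fun _ => (X h : MvPolynomial σ B)), Finset.prod_const,
      Finset.card_range]
    intro b hb
    rw [t1c, if_neg, C_0, zero_mul, sub_zero]
    rintro ⟨rfl, k⟩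
    have := Finset.mem_range.1 hb
    omega
  refine Ideal.mem_of_dvd _ (a := X h ^ (γ h + 1)) ?_ (t1a_pow h1 (Nat.lt_succ_self _))
  rw [e]
  exact (Finset.prod_dvd_prod_of_subset _ _ _ (Finset.range_subset_range.2 h2)).trans
    (Finset.dvd_prod_of_mem (fun i => ∏ b ∈ Finset.range (β i), (X i - C (t1c l a τ i b) * X z))
      (Finset.mem_univ h))

theorem t1a_ss [LinearOrder σ] (hss : SSN E) {l i : σ} (hli : l < i) (n : ℕ) (δ : σ →₀ ℕ)
    (h : δ + Finsupp.single i n ∈ E) : δ + Finsupp.single l n ∈ E := by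
  induction n generalizing δ with
  | zero => simpa using h
  | succ n ih =>
    rw [Finsupp.single_add, ← add_assoc] at h
    have h1 := hss _ l i hli h
    rw [add_right_comm] at h1
    have h2 := ih _ h1
    rwa [add_right_comm, add_assoc, ← Finsupp.single_add] at h2

theorem t1a_dis (z : σ) (τ : B) {l : σ} {a : ℕ} {δ : σ →₀ ℕ} (h : δ l ≤ a) :
    Dis z (t1c l a τ) δ = monomial δ 1 := by
  rw [← dis_zero z]
  refine Finset.prod_congr rfl fun j _ => Finset.prod_congr rfl fun b hb => ?_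
  rw [t1c, if_neg]
  rintro ⟨rfl, k⟩
  have := Finset.mem_range.1 hb
  omega

theorem t1a_dis_up (z : σ) (τ : B) {l : σ} {a : ℕ} {δ : σ →₀ ℕ} (h : a ≤ δ l) (n : ℕ) :
    Dis z (t1c l a τ) (δ + Finsupp.single l n) =
      (X l - C τ * X z) ^ n * Dis z (t1c l a τ) δ := by
  induction n with
  | zero => simp
  | succ n ih =>
    rw [Finsupp.single_add, ← add_assoc, dis_add_single, ih, t1c, if_pos, pow_succ', mul_assoc]
    exact ⟨rfl, h.trans le_self_add⟩

theorem t1a_mono (α : σ →₀ ℕ) :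
    (monomial α 1 : MvPolynomial σ (DualNumber B)) = dpair (monomial α 1) 0 := by
  simp [dpair, map_monomial]

/-- Let `𝒟 = disI z (t1c l (α l) τ) E`, `s = α i`, `α' = α.erase i + single l s ∈ E` (strong
stability, `s` times).  `Dis α = x^α` and `X i ^ s * Dis α' = (X l - C τ * X z) ^ s * x^α`.
In degree `|α|` the ideals `bc dfst 𝒦` and `𝒟` coincide (`leD_of_leD`).  Lift by `dual_lift`:
`dpair x^α f₁, dpair (Dis α') f₁' ∈ 𝒦`, and `nf E 𝒦 α = dpair 0 (-f₁)`.  The relation gives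
`dpair 0 (X i ^ s * f₁' - (X l - C τ X z) ^ s * f₁) ∈ 𝒦`, so this form is in `𝒟 ≤ 𝒬` (`dual_eps`,
`disI_le_boxc`); `X i ^ s ∈ 𝒬`; `boxc_cancel` gives `f₁ ∈ 𝒬`, so `coeff γ f₁ = 0`. -/
theorem t1_core [LinearOrder σ] {τ : B} (hτ : τ ∈ nonZeroDivisors B) (hE : IsUpperSet E)
    (hss : SSN E) {z : σ} (hz : FreeN E z) {α γ : σ →₀ ℕ} (hα : α ∈ E) (hγ : γ ∉ E) {l i : σ}
    (hli : l < i) (hiz : i ≠ z) (hlz : l ≠ z) (hl : γ l < α l) (hi : γ i < α i)
    {𝒦 : Ideal (MvPolynomial σ (DualNumber B))} {d : ℕ} (h𝒦 : Marked E d 𝒦) (hd : d ≤ α.degree)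
    (hD : LeD d (bc (dfst B) 𝒦) (disI z (t1c l (α l) τ) E)) :
    (coeff γ (nf E 𝒦 α)).snd = 0 := by
  have hc : ∀ b, t1c l (α l) τ z b = 0 := fun b => if_neg fun k => hlz k.1.symm
  have hM := marked_disI hE hc
  have hD' := (h𝒦.bc (dfst B)).leD_of_leD (hM.mono (Nat.zero_le d)) hD
  obtain ⟨δ, hδ, hδ'⟩ : ∃ δ : σ →₀ ℕ, α = δ + Finsupp.single i (α i) ∧ δ l = α l :=
    ⟨α.erase i, (Finsupp.erase_add_single i α).symm, Finsupp.erase_ne hli.ne⟩
  have h1 : δ + Finsupp.single l (α i) ∈ E := t1a_ss hss hli _ _ (hδ ▸ hα)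
  have h2 : (δ + Finsupp.single l (α i)).degree = α.degree := by
    conv_rhs => rw [hδ]
    rw [map_add, map_add, Finsupp.degree_single, Finsupp.degree_single]
  have h3 : X i ^ α i * Dis z (t1c l (α l) τ) (δ + Finsupp.single l (α i)) =
      (X l - C τ * X z) ^ α i * monomial α 1 := by
    rw [t1a_dis_up z τ hδ'.ge, t1a_dis z τ hδ'.le, mul_left_comm, build_pow_mul, ← hδ]
  have h4 : (monomial α 1 : MvPolynomial σ B) ∈ disI z (t1c l (α l) τ) E :=
    Ideal.subset_span ⟨α, hα, t1a_dis z τ le_rfl⟩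
  obtain ⟨f, f1, f2, f3⟩ := h𝒦.dual_lift hd (isHomogeneous_monomial' α 1)
    (hD' _ hd _ (isHomogeneous_monomial' α 1) h4)
  have h5 := dis_hom z (t1c l (α l) τ) (δ + Finsupp.single l (α i))
  rw [h2] at h5
  obtain ⟨g, -, g2, g3⟩ := h𝒦.dual_lift hd h5 (hD' _ hd _ h5 (Ideal.subset_span ⟨_, h1, rfl⟩))
  have h6 : nf E 𝒦 α = dpair 0 (-f) := by
    refine h𝒦.nf_eq hd (dpair_Nsp.2 ⟨Submodule.zero_mem _, Submodule.neg_mem _ f1⟩)
      (dpair_hom.2 ⟨isHomogeneous_zero _ _ _, f2.neg⟩) ?_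
    rwa [t1a_mono, dpair_sub, sub_zero, zero_sub, neg_neg]
  have h7 := 𝒦.sub_mem (𝒦.mul_mem_left (dpair (X i ^ α i) 0) g3)
    (𝒦.mul_mem_left (dpair ((X l - C τ * X z) ^ α i) 0) f3)
  rw [dpair_mul, dpair_mul, dpair_sub, h3, sub_self, zero_mul, zero_mul, add_zero, add_zero] at h7
  have h8 : (X i ^ α i * g - (X l - C τ * X z) ^ α i * f).IsHomogeneous (1 * α i + α.degree) :=
    (((isHomogeneous_X B i).pow _).mul g2).sub
      ((((isHomogeneous_X B l).sub ((isHomogeneous_X B z).C_mul τ)).pow _).mul f2)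
  have h9 := disI_le_boxc hE hz hγ hl τ
    (hD _ (hd.trans le_add_self) _ h8 ((h𝒦.dual_eps (hd.trans le_add_self) h8).1 h7))
  have h10 := Ideal.sub_mem _ (Ideal.mul_mem_right g _ (t1a_pow hiz hi)) h9
  rw [sub_sub_cancel] at h10
  rw [h6, (coeff_dpair _ _ γ).2, coeff_neg, (mem_monI (isUpperSet_boxc z γ)).1
    (boxc_cancel hτ hlz γ _ h10) γ fun ⟨_, _, k⟩ => k.false, neg_zero]

open Classical in
theorem t1a_hat {ν : (σ →₀ ℕ) → MvPolynomial σ (DualNumber B)}
    (h1 : ∀ α ∈ E, ∃ g, ν α = dpair 0 g) (h2 : ∀ α, α ∉ E → ν α = monomial α 1)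
    (g : MvPolynomial σ B) (β : σ →₀ ℕ) :
    coeff β (hat ν (dpair 0 g)) = if β ∈ E then 0 else coeff β (dpair 0 g) := by
  induction g using MvPolynomial.induction_on' with
  | monomial δ c =>
    have e : dpair 0 (monomial δ c) = monomial δ (DualNumber.eps * dinl B c) := by
      rw [dpair, map_zero, zero_add, map_monomial, C_mul_monomial]
    rw [e, hat_monomial]
    by_cases hδ : δ ∈ E
    · obtain ⟨g, hg⟩ := h1 δ hδ
      have e2 : (DualNumber.eps * dinl B c) • ν δ = 0 := by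
        rw [hg, dpair, map_zero, zero_add, smul_eq_C_mul, ← mul_assoc, ← map_mul, mul_right_comm,
          DualNumber.eps_mul_eps, zero_mul, map_zero, zero_mul]
      rw [e2, coeff_zero]
      split_ifs with h
      · rfl
      · rw [coeff_monomial, if_neg fun k : δ = β => h (k ▸ hδ)]
    · rw [h2 δ hδ, smul_monomial, smul_eq_mul, mul_one]
      split_ifs with h
      · rw [coeff_monomial, if_neg fun k : δ = β => hδ (k ▸ h)]
      · rfl
  | add p q hp hq =>
    have e : dpair 0 (p + q) = dpair 0 p + dpair 0 q := by rw [dpair_add, add_zero]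
    rw [e, map_add, coeff_add, hp, hq, coeff_add]
    split_ifs
    · rw [add_zero]
    · rfl

/-- `build` with `ν α = ε * ∑ {x^γ : M α γ}` for `α ∈ E` (a finite sum since `|γ| = |α|`). -/
theorem tan_family (hE : IsUpperSet E) {r : ℕ} {M : (σ →₀ ℕ) → (σ →₀ ℕ) → Prop} (hT : Tan E r M)
    (B : Type u) [CommRing B] : ∃ J : Ideal (MvPolynomial σ (DualNumber B)), Marked E r J ∧
      Agree (bc (dfst B) J) (monI B E) ∧ ∀ α γ, M α γ → (coeff γ (nf E J α)).snd = 1 := by
  classical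
  have hf : ∀ α, {γ | M α γ}.Finite := fun α =>
    (Finsupp.finite_of_degree_le α.degree).subset fun γ h => (hT.mem α γ h).2.2.2.le
  let N : (σ →₀ ℕ) → MvPolynomial σ B := fun α => ∑ γ ∈ (hf α).toFinset, monomial γ 1
  have hN : ∀ α γ, coeff γ (N α) = if M α γ then 1 else 0 := fun α γ => by
    simp only [N, coeff_sum, coeff_monomial, Finset.sum_ite_eq', Set.Finite.mem_toFinset,
      Set.mem_setOf_eq]
  let ν : (σ →₀ ℕ) → MvPolynomial σ (DualNumber B) := fun α =>
    if α ∈ E then dpair 0 (N α) else monomial α 1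
  have h1 : ∀ α ∈ E, ν α = dpair 0 (N α) := fun α h => if_pos h
  have h2 : ∀ α, α ∉ E → ν α = monomial α 1 := fun α h => if_neg h
  have p1 : ∀ α ∈ E, r ≤ α.degree → ν α ∈ Nsp (DualNumber B) E ∧ (ν α).IsHomogeneous α.degree := by
    intro α hα _
    rw [h1 α hα, dpair_Nsp, dpair_hom]
    refine ⟨⟨Submodule.zero_mem _, mem_Nsp.2 fun γ hγ => ?_⟩, isHomogeneous_zero _ _ _,
      isHomogeneous_iff_degree.2 fun γ hγ => ?_⟩
    · rw [hN, if_neg fun h => (hT.mem α γ h).2.2.1 hγ]
    · rw [hN] at hγ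
      split_ifs at hγ with h
      exacts [(hT.mem α γ h).2.2.2, (hγ rfl).elim]
  have p2 : ∀ α ∈ E, r ≤ α.degree → ∀ i, hat ν (X i * ν α) = ν (α + Finsupp.single i 1) := by
    intro α hα hr i
    have e : (X i : MvPolynomial σ (DualNumber B)) = dpair (X i) 0 := t1a_mono _
    rw [h1 α hα, h1 _ (hE le_self_add hα), e, dpair_mul, mul_zero, zero_mul, add_zero]
    refine MvPolynomial.ext _ _ fun β => ?_
    rw [t1a_hat (fun α h => ⟨_, h1 α h⟩) h2]
    refine TrivSqZeroExt.ext ?_ ?_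
    · rw [(coeff_dpair _ _ β).1]
      split_ifs
      exacts [rfl, (coeff_dpair _ _ β).1]
    · rw [(coeff_dpair _ _ β).2, hN]
      by_cases hβ : β ∈ E
      · rw [if_pos hβ, if_neg fun h => (hT.mem _ β h).2.2.1 hβ]
        rfl
      · rw [if_neg hβ, (coeff_dpair _ _ β).2]
        rcases distr_split β i with h0 | ⟨δ, rfl⟩
        · rw [distr_coeff_X _ _ h0, if_neg (hT.zero α hα hr β i h0)]
        · rw [coeff_X_mul, hN, add_comm (Finsupp.single i 1) δ]
          rw [add_comm] at hβ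
          simp only [hT.edge α hα hr δ i hβ]
  obtain ⟨J, a, b⟩ := build (E := E) r ν h2 p1 p2
  refine ⟨J, a, (a.bc (dfst B)).agree_of_leD (marked_monI hE) ((a.bc (dfst B)).leD_of_nf
    ((marked_monI hE).mono (Nat.zero_le r)) fun α hα hr => ?_), fun α γ h => ?_⟩
  · rw [a.nf_bc _ hr, b α hr, h1 α hα, map_dfst_dpair, nf_monI hE hα]
  · rw [b α (hT.mem α γ h).2.1, h1 α (hT.mem α γ h).1, (coeff_dpair _ _ γ).2, hN, if_pos h]

end Pool.Agent.MP_24718c_ag

end

end partT1a

section partT1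

/-!
Tangent weights at a smooth point have only one negative coordinate besides `z`.
-/

set_option linter.unusedSectionVars false
set_option linter.unusedVariables false

open MvPolynomial

universe u

noncomputable section

namespace Pool.Agent.MP_24718c_ag

variable {σ : Type} [Fintype σ] [DecidableEq σ] {k : Type u} [Field k] {R : Type u} [CommRing R]
  [Algebra k R] {𝓘 : Ideal (MvPolynomial σ R)} {E : Set (σ →₀ ℕ)}

/-- the constant coefficient as an algebra map -/
def t1b_cc (k : Type u) [Field k] : PowerSeries k →ₐ[k] k :=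
  { PowerSeries.constantCoeff (R := k) with commutes' := fun c => by simp }

theorem t1b_cc_apply (f : PowerSeries k) : t1b_cc k f = PowerSeries.constantCoeff f := rfl

/-- the map `k⟦τ⟧[ε] → k[ε]`, `τ ↦ 0` -/
def t1b_dm (k : Type u) [Field k] : DualNumber (PowerSeries k) →ₐ[k] DualNumber k :=
  DualNumber.lift ⟨((Algebra.ofId k (DualNumber k)).comp (t1b_cc k), DualNumber.eps),
    DualNumber.eps_mul_eps, fun _ => Commute.all _ _⟩

theorem t1b_dm_fst (a : DualNumber (PowerSeries k)) :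
    (t1b_dm k a).fst = PowerSeries.constantCoeff a.fst := by
  simp [t1b_dm, DualNumber.lift_apply_apply, t1b_cc_apply, Algebra.ofId_apply,
    TrivSqZeroExt.algebraMap_eq_inl]

theorem t1b_dm_snd (a : DualNumber (PowerSeries k)) :
    (t1b_dm k a).snd = PowerSeries.constantCoeff a.snd := by
  simp [t1b_dm, DualNumber.lift_apply_apply, t1b_cc_apply, Algebra.ofId_apply,
    TrivSqZeroExt.algebraMap_eq_inl]

/-- the projection `k⟦τ⟧[ε] → k⟦τ⟧` as a map of `k`-algebras -/
abbrev t1b_fst (k : Type u) [Field k] : DualNumber (PowerSeries k) →ₐ[k] PowerSeries k :=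
  TrivSqZeroExt.fstHom k (PowerSeries k) (PowerSeries k)

theorem t1b_local : IsLocalRing (DualNumber (PowerSeries k)) := by
  refine IsLocalRing.of_isUnit_or_isUnit_one_sub_self fun a => ?_
  rw [TrivSqZeroExt.isUnit_iff_isUnit_fst, TrivSqZeroExt.isUnit_iff_isUnit_fst,
    TrivSqZeroExt.fst_sub, TrivSqZeroExt.fst_one]
  exact IsLocalRing.isUnit_or_isUnit_one_sub_self _

/-- Lift the induced map to the fibre product `k⟦τ⟧ ×_k k[ε]` (a subalgebra of the product) along
the surjection from `k⟦τ⟧[ε]`, whose kernel has square zero. -/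
theorem lift_two [Algebra.FormallySmooth k R] (φ₁ : R →ₐ[k] PowerSeries k)
    (φ₂ : R →ₐ[k] DualNumber k) (h : ∀ a, PowerSeries.constantCoeff (φ₁ a) = (φ₂ a).fst) :
    ∃ φ : R →ₐ[k] DualNumber (PowerSeries k), ∀ a, (φ a).fst = φ₁ a ∧
      PowerSeries.constantCoeff (φ a).snd = (φ₂ a).snd := by
  let ρ : DualNumber (PowerSeries k) →ₐ[k] PowerSeries k × DualNumber k :=
    (t1b_fst k).prod (t1b_dm k)
  have hmem : ∀ a, (φ₁.prod φ₂) a ∈ ρ.range := by
    intro a
    refine ⟨TrivSqZeroExt.inl (φ₁ a) + TrivSqZeroExt.inr (PowerSeries.C (φ₂ a).snd), ?_⟩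
    refine Prod.ext ?_ (TrivSqZeroExt.ext ?_ ?_)
    · change (TrivSqZeroExt.inl (φ₁ a) + TrivSqZeroExt.inr (PowerSeries.C (φ₂ a).snd) :
        DualNumber (PowerSeries k)).fst = φ₁ a
      simp
    · change (t1b_dm k _).fst = (φ₂ a).fst
      rw [t1b_dm_fst, ← h]
      simp
    · change (t1b_dm k _).snd = (φ₂ a).snd
      rw [t1b_dm_snd]
      simp
  have hnil : IsNilpotent
      (RingHom.ker (ρ.rangeRestrict : DualNumber (PowerSeries k) →+* ρ.range)) := by
    refine ⟨1 + 1, ?_⟩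
    have h0 : ∀ a ∈ RingHom.ker (ρ.rangeRestrict : DualNumber (PowerSeries k) →+* ρ.range),
        a.fst = 0 := by
      intro a ha
      have h1 : ρ a = 0 := congrArg Subtype.val (RingHom.mem_ker.1 ha)
      exact congrArg Prod.fst h1
    rw [Submodule.pow_succ, Submodule.pow_one, Ideal.zero_eq_bot, eq_bot_iff, Ideal.mul_le]
    intro a ha b hb
    rw [Ideal.mem_bot]
    refine TrivSqZeroExt.ext ?_ ?_
    · rw [TrivSqZeroExt.fst_mul, h0 a ha, zero_mul, TrivSqZeroExt.fst_zero]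
    · rw [DualNumber.snd_mul, h0 a ha, h0 b hb, zero_mul, mul_zero, add_zero,
        TrivSqZeroExt.snd_zero]
  refine ⟨Algebra.FormallySmooth.liftOfSurjective ((φ₁.prod φ₂).codRestrict ρ.range hmem)
    ρ.rangeRestrict ρ.rangeRestrict_surjective hnil, fun a => ?_⟩
  have h1 := congrArg Subtype.val (Algebra.FormallySmooth.liftOfSurjective_apply
    ((φ₁.prod φ₂).codRestrict ρ.range hmem) ρ.rangeRestrict ρ.rangeRestrict_surjective hnil a)
  refine ⟨congrArg Prod.fst h1, ?_⟩
  rw [← t1b_dm_snd]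
  exact congrArg (fun p => (Prod.snd p).snd) h1

theorem t1b_shift (hE : IsUpperSet E) {z : σ} (hz : FreeN E z) {r : ℕ}
    {M : (σ →₀ ℕ) → (σ →₀ ℕ) → Prop} (hT : Tan E r M) {α γ : σ →₀ ℕ} (h : M α γ) (t : ℕ) :
    M (α + Finsupp.single z t) (γ + Finsupp.single z t) := by
  induction t with
  | zero => simpa using h
  | succ t ih =>
    obtain ⟨h1, h2, h3, -⟩ := hT.mem _ _ ih
    rw [Finsupp.single_add, ← add_assoc, ← add_assoc]
    exact (hT.edge _ h1 h2 _ z fun hc => h3 (hz _ hc)).2 ih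

/-- Classify `𝒟 = disI z (t1c l (α l) τ) E` over `k⟦τ⟧` (`marked_disI`, `red_disI`) and the family
of `tan_family` over `k[ε]` (`MChart.classify`), lift by `lift_two`, and let `𝒦 = bc φ 𝓘`, marked
in large degrees (`MChart.marked`; `k⟦τ⟧[ε]` is local).  Replace `α, γ` by `α + t e_z, γ + t e_z`
with `t` large (`Tan.edge`; `α l` does not change).  `t1_core` says that the `ε`-part of the
coefficient vanishes, while its image under `τ ↦ 0` is `1` (`nf_bc`, `nf_eq_of_agree` for the ring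
map `k⟦τ⟧[ε] → k[ε]`). -/
theorem t1 [LinearOrder σ] (hE : IsUpperSet E) (hss : SSN E) {z : σ} (hz : FreeN E z)
    (hM : MChart k E R 𝓘) [Algebra.FormallySmooth k R] {x₀ : R →ₐ[k] k}
    (hx₀ : Agree (bc (x₀ : R →+* k) 𝓘) (monI k E)) {r : ℕ}
    {M : (σ →₀ ℕ) → (σ →₀ ℕ) → Prop} (hT : Tan E r M) {α γ : σ →₀ ℕ} (h : M α γ) {l i : σ}
    (hli : l < i) (hiz : i ≠ z) (hlz : l ≠ z) (hl : γ l < α l) (hi : γ i < α i) : False := by
  have hc : ∀ b, t1c l (α l) (PowerSeries.X : PowerSeries k) z b = 0 := by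
    intro b
    unfold t1c
    rw [if_neg]
    exact fun hh => hlz hh.1.symm
  have hD := marked_disI hE hc
  have hred : Red E (disI z (t1c l (α l) (PowerSeries.X : PowerSeries k)) E)
      (RingHom.ker (t1b_cc k : PowerSeries k →+* k)) := by
    refine red_disI hE fun j b => ?_
    unfold t1c
    split_ifs
    · exact PowerSeries.constantCoeff_X
    · exact Ideal.zero_mem _
  obtain ⟨φ₁, hφ₁, e₁⟩ := hM.classify hx₀ (t1b_cc k) hD
    ((hD.bc _).agree_of_le (marked_monI hE) (hred.bc_le hE _))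
  obtain ⟨J, hJ, hJ0, hJ1⟩ := tan_family hE hT k
  obtain ⟨φ₂, hφ₂, e₂⟩ := hM.classify hx₀ (TrivSqZeroExt.fstHom k k k) hJ hJ0
  obtain ⟨φ, hφ⟩ := lift_two φ₁ φ₂ fun a =>
    (DFunLike.congr_fun e₁ a).trans (DFunLike.congr_fun e₂ a).symm
  have := t1b_local (k := k)
  obtain ⟨d, h𝒦⟩ := hM.marked hE hx₀ ((t1b_cc k).comp (t1b_fst k)) φ (AlgHom.ext fun a => by
    rw [← e₁]
    exact congrArg (t1b_cc k) (hφ a).1)
  have b₁ : bc (dfst (PowerSeries k)) (bc (φ : R →+* DualNumber (PowerSeries k)) 𝓘) =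
      bc (φ₁ : R →+* PowerSeries k) 𝓘 := by
    rw [bc_bc]
    congr 2
    exact RingHom.ext fun a => (hφ a).1
  have b₂ : bc (t1b_dm k : DualNumber (PowerSeries k) →+* DualNumber k)
      (bc (φ : R →+* DualNumber (PowerSeries k)) 𝓘) = bc (φ₂ : R →+* DualNumber k) 𝓘 := by
    rw [bc_bc]
    congr 2
    refine RingHom.ext fun a => TrivSqZeroExt.ext ?_ ?_
    · change (t1b_dm k (φ a)).fst = (φ₂ a).fst
      rw [t1b_dm_fst, (hφ a).1]
      exact (DFunLike.congr_fun e₁ a).trans (DFunLike.congr_fun e₂ a).symm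
    · change (t1b_dm k (φ a)).snd = (φ₂ a).snd
      rw [t1b_dm_snd, (hφ a).2]
  rw [← b₁] at hφ₁
  rw [← b₂] at hφ₂
  obtain ⟨d₁, hd₁⟩ := hφ₁
  obtain ⟨d₂, hd₂⟩ := (h𝒦.bc _).nf_eq_of_agree hJ hφ₂
  have hM' := t1b_shift hE hz hT h (d + d₁ + d₂)
  obtain ⟨h1, -, h3, -⟩ := hT.mem _ _ hM'
  have hdeg : d + d₁ + d₂ ≤ (α + Finsupp.single z (d + d₁ + d₂)).degree := by
    rw [map_add, Finsupp.degree_single]
    omega
  have ea : ∀ (β : σ →₀ ℕ) (j : σ), j ≠ z →
      (β + Finsupp.single z (d + d₁ + d₂) : σ →₀ ℕ) j = β j := by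
    intro β j hj
    rw [Finsupp.add_apply, Finsupp.single_eq_of_ne hj, add_zero]
  have h0 := t1_core (τ := (PowerSeries.X : PowerSeries k))
    (mem_nonZeroDivisors_of_ne_zero PowerSeries.X_ne_zero) hE hss hz h1 h3 hli hiz hlz
    (by rw [ea _ _ hlz, ea _ _ hlz]; exact hl) (by rw [ea _ _ hiz, ea _ _ hiz]; exact hi)
    (h𝒦.mono (d₁ := d + d₁) (by omega)) (by omega) (by
      rw [ea _ _ hlz]
      exact fun e he f hf hf' => (hd₁ e (by omega) f hf).1 hf')
  have h2 := hJ1 _ _ hM'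
  rw [← hd₂ _ (by omega), h𝒦.nf_bc _ (by omega), coeff_map] at h2
  have h4 := (t1b_dm_snd _).symm.trans h2
  rw [h0, map_zero] at h4
  exact zero_ne_one h4

end Pool.Agent.MP_24718c_ag

end

end partT1

section partThetaA

/-!
The family (cell) × (points) maps to the chart near the general distraction.
-/

set_option linter.unusedSectionVars false
set_option linter.unusedVariables false

open MvPolynomial

universe u

noncomputable section

namespace Pool.Agent.MP_24718c_ag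

section
variable {σ : Type} [DecidableEq σ]

/-- coordinates of the cell and affine coordinates of the points -/
abbrev Vr (N e : ℕ) (z : σ) : Type := Fin N ⊕ (Fin e × {l : σ // l ≠ z})

abbrev L1 (k : Type u) [Field k] (N e : ℕ) (z : σ) : Type u := MvPolynomial (Vr N e z) k

abbrev F1 (k : Type u) [Field k] (N e : ℕ) (z : σ) : Type u := FractionRing (L1 k N e z)

/-- the universal points -/
def upt (k : Type u) [Field k] (N e : ℕ) (z : σ) (j : Fin e) (l : σ) : L1 k N e z :=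
  if h : l = z then 1 else X (Sum.inr (j, ⟨l, h⟩))

def uin (k : Type u) [Field k] (N e : ℕ) (z : σ) : Lam k N →ₐ[k] L1 k N e z := rename Sum.inl

def toF (k : Type u) [Field k] (N e : ℕ) (z : σ) : L1 k N e z →ₐ[k] F1 k N e z :=
  IsScalarTower.toAlgHom k (L1 k N e z) (F1 k N e z)

/-- the family over an `L1`-algebra -/
def famAt {k : Type u} [Field k] {N e : ℕ} {z : σ} (𝓤 : Ideal (MvPolynomial σ (Lam k N)))
    {B : Type u} [CommRing B] [Algebra k B] (η : L1 k N e z →ₐ[k] B) :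
    Ideal (MvPolynomial σ B) :=
  joinI (bc (η.comp (uin k N e z) : Lam k N →+* B) 𝓤) fun j l => η (upt k N e z j l)

/-- the determinant that must be invertible -/
def udet {k : Type u} [Field k] {N e : ℕ} (E' : Set (σ →₀ ℕ)) (μ : Fin e → σ →₀ ℕ) (z : σ)
    (𝓤 : Ideal (MvPolynomial σ (Lam k N))) : L1 k N e z :=
  (Emat E' μ (bc (uin k N e z : Lam k N →+* L1 k N e z) 𝓤) (upt k N e z)).det

end

variable {σ : Type} [Fintype σ] [DecidableEq σ] {k : Type u} [Field k] {R : Type u} [CommRing R]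
  [Algebra k R] {𝓘 : Ideal (MvPolynomial σ R)} {e N : ℕ} {E E' : Set (σ →₀ ℕ)} {y z : σ}
  {μ : Fin e → σ →₀ ℕ} {𝓤 : Ideal (MvPolynomial σ (MvPolynomial (Fin N) k))}
  {q : Fin N → (σ →₀ ℕ) × (σ →₀ ℕ)} {G : MvPolynomial ((σ →₀ ℕ) × (σ →₀ ℕ)) k}

theorem det_famAt (hU : Marked E' 0 𝓤) {B : Type u} [CommRing B] [Algebra k B]
    (η : L1 k N e z →ₐ[k] B) :
    (Emat E' μ (bc (η.comp (uin k N e z) : Lam k N →+* B) 𝓤)
      fun j l => η (upt k N e z j l)).det = η (udet E' μ z 𝓤) := by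
  have h := Emat_bc (μ := μ) (p := upt k N e z)
    (hU.bc (uin k N e z : Lam k N →+* L1 k N e z)) (η : L1 k N e z →+* B)
  rw [bc_bc] at h
  exact (congrArg Matrix.det h).trans (RingHom.map_det (η : L1 k N e z →+* B) _).symm

theorem thetaa_one {B : Type u} [CommRing B] [Algebra k B] (η : L1 k N e z →ₐ[k] B) (j : Fin e) :
    η (upt k N e z j z) = 1 := by
  simp [upt]

theorem famAt_marked (hP : Pair E E' y z μ) (hU : Marked E' 0 𝓤) {B : Type u} [CommRing B]
    [Algebra k B] (η : L1 k N e z →ₐ[k] B) (h : IsUnit (η (udet E' μ z 𝓤))) :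
    ∃ d, Marked E d (famAt 𝓤 η) :=
  ⟨Finset.univ.sup fun j => (μ j).degree, pts_marked hP (hU.bc _) (thetaa_one η)
    (by rw [det_famAt hU η]; exact h)
    fun j => Finset.le_sup (f := fun j => (μ j).degree) (Finset.mem_univ j)⟩

theorem famAt_bc (hP : Pair E E' y z μ) (hU : Marked E' 0 𝓤) {B B' : Type u} [CommRing B]
    [Algebra k B] [CommRing B'] [Algebra k B'] (η : L1 k N e z →ₐ[k] B)
    (h : IsUnit (η (udet E' μ z 𝓤))) (φ : B →ₐ[k] B') :
    Agree (bc (φ : B →+* B') (famAt 𝓤 η)) (famAt 𝓤 (φ.comp η)) := by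
  have h1 := agree_bc_joinI hP (hU.bc (η.comp (uin k N e z) : Lam k N →+* B)) (thetaa_one η)
    (by rw [det_famAt hU η]; exact h) (φ : B →+* B')
  rw [bc_bc] at h1
  exact h1

theorem thetaa_dc {B B' : Type u} [CommRing B] [CommRing B'] (φ : B →+* B') (a : ℕ → B) :
    (fun i b => φ (dc z a i b)) = dc z fun b => φ (a b) := by
  funext i b
  unfold dc
  split_ifs
  exacts [map_zero φ, rfl]

theorem thetaa_dcz {B : Type u} [CommRing B] (a : ℕ → B) (b : ℕ) : dc z a z b = 0 := if_pos rfl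

/-- the general distraction as a point of the family -/
theorem thetaa_point [Infinite k] (hM : MChart k E R 𝓘) {x₀ : R →ₐ[k] k}
    (hx₀ : Agree (bc (x₀ : R →+* k) 𝓘) (monI k E)) (hP : Pair E E' y z μ)
    (hU : UnivData k E' 𝓤 q G) :
    ∃ (ξ : L1 k N e z →ₐ[k] FractionRing (PowerSeries k))
      (ψ : R →ₐ[k] FractionRing (PowerSeries k)), ξ (udet E' μ z 𝓤) ≠ 0 ∧
      Agree (bc (ψ : R →+* FractionRing (PowerSeries k)) 𝓘) (famAt 𝓤 ξ) ∧
      ∀ a, ψ a = 0 → x₀ a = 0 := by
  obtain ⟨ε, hε⟩ : ∃ ε : PowerSeries k →ₐ[k] k, ∀ f, ε f = PowerSeries.constantCoeff f :=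
    ⟨⟨PowerSeries.constantCoeff, fun c => PowerSeries.constantCoeff_C c⟩, fun _ => rfl⟩
  obtain ⟨ι, hι⟩ : ∃ ι : PowerSeries k →ₐ[k] FractionRing (PowerSeries k),
      Function.Injective ι :=
    ⟨IsScalarTower.toAlgHom k _ _, IsFractionRing.injective _ _⟩
  obtain ⟨a, ha, ha0⟩ : ∃ a : ℕ → PowerSeries k, Function.Injective a ∧ ∀ b, ε (a b) = 0 := by
    refine ⟨fun b => Infinite.natEmbedding k b • PowerSeries.X, fun b b' h => ?_, fun b => ?_⟩
    · have := congrArg (PowerSeries.coeff 1) h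
      simpa using this
    · rw [map_smul, hε, PowerSeries.constantCoeff_X, smul_zero]
  have hc : ∀ i b, dc z a i b ∈ RingHom.ker (ε : PowerSeries k →+* k) := fun i b => by
    unfold dc
    split_ifs
    exacts [zero_mem _, ha0 b]
  have m1 := marked_disI hP.up (thetaa_dcz (z := z) a)
  have m2 := marked_disI hP.up' (thetaa_dcz (z := z) a)
  obtain ⟨φ, h1, h2⟩ := hM.classify hx₀ ε m1
    ((m1.bc _).agree_of_le (marked_monI hP.up) ((red_disI hP.up hc).bc_le hP.up _))
  have h3 := m2.red_iff.1 (red_disI hP.up' hc)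
  have h4 : aeval (coef E' (disI z (dc z a) E')) G ∈ nonZeroDivisors (PowerSeries k) := by
    refine mem_nonZeroDivisors_of_ne_zero fun h => ?_
    have h5 := comp_aeval_apply (f := coef E' (disI z (dc z a) E')) ε G
    have h6 : (fun p => ε (coef E' (disI z (dc z a) E') p)) = fun _ => 0 := funext h3
    rw [h, map_zero, h6, aeval_zero', hU.const, map_one] at h5
    exact zero_ne_one h5
  have h5 := hU.univ _ _ m2 h4
  have ha' : Function.Injective fun b =>
      (ι : PowerSeries k →+* FractionRing (PowerSeries k)) (a b) := hι.comp ha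
  obtain ⟨ξ, x1, x2⟩ : ∃ ξ : L1 k N e z →ₐ[k] FractionRing (PowerSeries k),
      ξ.comp (uin k N e z) = ι.comp (aeval fun i => coef E' (disI z (dc z a) E') (q i)) ∧
      (fun j l => ξ (upt k N e z j l)) =
        dp z (fun b => (ι : PowerSeries k →+* FractionRing (PowerSeries k)) (a b)) μ := by
    refine ⟨aeval (Sum.elim (fun i => ι (coef E' (disI z (dc z a) E') (q i)))
      fun x => ι (a (μ x.1 x.2.1))), ?_, ?_⟩
    · ext i
      simp [uin]
    · funext j l
      unfold upt dp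
      split_ifs
      · exact map_one _
      · simp
  have h6 : bc (ξ.comp (uin k N e z) : Lam k N →+* FractionRing (PowerSeries k)) 𝓤 =
      disI z (dc z fun b => (ι : PowerSeries k →+* FractionRing (PowerSeries k)) (a b)) E' := by
    rw [x1, ← thetaa_dc, ← bc_disI, h5, bc_bc, ← h5]
    rfl
  have h7 : ξ (udet E' μ z 𝓤) ≠ 0 := by
    rw [← det_famAt hU.marked ξ, h6, x2]
    exact det_dis_ne_zero hP ha'
  refine ⟨ξ, ι.comp φ, h7, ?_, fun r hr => ?_⟩
  · obtain ⟨d, hd⟩ := famAt_marked hP hU.marked ξ h7.isUnit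
    have h8 := h1.bc (hM.homog.bc _) m1.homog
      (ι : PowerSeries k →+* FractionRing (PowerSeries k))
    rw [bc_bc, bc_disI, thetaa_dc] at h8
    refine h8.trans ((marked_disI hP.up (thetaa_dcz _)).agree_of_le hd ?_)
    unfold famAt
    rw [h6, x2]
    exact disI_le_joinI hP ha'
  · have h8 : φ r = 0 := hι (by rw [map_zero]; exact hr)
    rw [← h2, AlgHom.comp_apply, h8, map_zero]

/-- Let `a₀ : ℕ → k` be injective, `P = k⟦τ⟧`, `K = FractionRing P`, `a b = a₀ b • τ`.
`𝒟 = disI z (dc z a) E` over `P` is classified by `φτ : R → P` lifting `x₀` (`MChart.classify`,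
`marked_disI`, `red_disI`).  `𝒟' = disI z (dc z a) E'` has coefficients in the maximal ideal, so
`aeval (coef E' 𝒟') G` has constant term `1` and `UnivData.univ` applies.  Let `ξ : L1 → K` send
`inl i` to the image of `coef E' 𝒟' (q i)` and `inr (j, l)` to the image of `a (μ j l)`; then
`famAt 𝓤 ξ = joinI (disI z (dc z a_K) E') (dp z a_K μ)` (`bc_disI`), `ξ udet ≠ 0`
(`det_dis_ne_zero`), and it agrees with `disI z (dc z a_K) E` (`disI_le_joinI`, `agree_of_le`),
hence with `bc ψ 𝓘`, `ψ : R → P → K`.  Let `𝔮 = ker ξ`, `B = Localization.AtPrime 𝔮`,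
`ρ : B → K` the induced local map; `opn` gives `φ₁`, `inj` gives `ρ.comp φ₁ = ψ`, so
`ker φ₁ ≤ ker φτ ≤ ker x₀`. -/
theorem theta_local [Infinite k] (hM : MChart k E R 𝓘) {x₀ : R →ₐ[k] k}
    (hx₀ : Agree (bc (x₀ : R →+* k) 𝓘) (monI k E)) (hP : Pair E E' y z μ)
    (hU : UnivData k E' 𝓤 q G) :
    ∃ (𝔮 : Ideal (L1 k N e z)) (_ : 𝔮.IsPrime) (φ₁ : R →ₐ[k] Localization.AtPrime 𝔮),
      udet E' μ z 𝓤 ∉ 𝔮 ∧
      Agree (bc (φ₁ : R →+* Localization.AtPrime 𝔮) 𝓘)
        (famAt 𝓤 (IsScalarTower.toAlgHom k (L1 k N e z) (Localization.AtPrime 𝔮))) ∧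
      ∀ a, φ₁ a = 0 → x₀ a = 0 := by
  obtain ⟨ξ, ψ, h1, h2, h3⟩ := thetaa_point hM hx₀ hP hU
  have hq : (RingHom.ker ξ).IsPrime := RingHom.ker_isPrime ξ
  have hu : ∀ s : (RingHom.ker ξ).primeCompl, IsUnit (ξ s) := fun s => Ne.isUnit s.2
  obtain ⟨ρ, hρ⟩ : ∃ ρ : Localization.AtPrime (RingHom.ker ξ) →ₐ[k] FractionRing (PowerSeries k),
      ∀ x, ρ (algebraMap (L1 k N e z) _ x) = ξ x :=
    ⟨IsLocalization.liftAlgHom (M := (RingHom.ker ξ).primeCompl) hu,
      fun x => IsLocalization.lift_eq hu x⟩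
  have hl : IsLocalHom
      (ρ : Localization.AtPrime (RingHom.ker ξ) →+* FractionRing (PowerSeries k)) := by
    refine ⟨fun x hx => ?_⟩
    obtain ⟨⟨r, s⟩, rfl⟩ := IsLocalization.mk'_surjective (RingHom.ker ξ).primeCompl x
    refine (IsLocalization.AtPrime.isUnit_mk'_iff _ (RingHom.ker ξ) r s).2 fun hr => ?_
    have h4 := congrArg ρ (IsLocalization.mk'_spec (Localization.AtPrime (RingHom.ker ξ)) r s)
    rw [map_mul, hρ, hρ, show ξ r = 0 from hr] at h4
    exact (hx.mul (hu s)).ne_zero h4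
  have hc : ρ.comp (IsScalarTower.toAlgHom k (L1 k N e z) _) = ξ := AlgHom.ext hρ
  have hd : IsUnit (IsScalarTower.toAlgHom k (L1 k N e z)
      (Localization.AtPrime (RingHom.ker ξ)) (udet E' μ z 𝓤)) :=
    IsLocalization.map_units (M := (RingHom.ker ξ).primeCompl) _ ⟨_, h1⟩
  obtain ⟨d, h4⟩ := famAt_marked hP hU.marked _ hd
  have h5 := famAt_bc hP hU.marked _ hd ρ
  rw [hc] at h5
  obtain ⟨φ, h6⟩ := hM.opn _ _ ρ hl d _ h4 ψ (h2.trans h5.symm)
  refine ⟨_, hq, φ, h1, h6, fun r hr => h3 r ?_⟩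
  have h7 := h6.bc (hM.homog.bc _) h4.homog
    (ρ : Localization.AtPrime (RingHom.ker ξ) →+* FractionRing (PowerSeries k))
  rw [bc_bc] at h7
  rw [← hM.inj _ (ρ.comp φ) ψ ((h7.trans h5).trans h2.symm), AlgHom.comp_apply, hr, map_zero]

end Pool.Agent.MP_24718c_ag

end

end partThetaA

section partTheta

/-!
The family (cell) × (points) is versal at its generic point.
-/

set_option linter.unusedSectionVars false
set_option linter.unusedVariables false

open MvPolynomial

universe u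

noncomputable section

namespace Pool.Agent.MP_24718c_ag

variable {σ : Type} [Fintype σ] [DecidableEq σ] {k : Type u} [Field k] {R : Type u} [CommRing R]
  [Algebra k R] {𝓘 : Ideal (MvPolynomial σ R)} {e N : ℕ} {E E' : Set (σ →₀ ℕ)} {y z : σ}
  {μ : Fin e → σ →₀ ℕ} {𝓤 : Ideal (MvPolynomial σ (MvPolynomial (Fin N) k))}
  {q : Fin N → (σ →₀ ℕ) × (σ →₀ ℕ)} {G : MvPolynomial ((σ →₀ ℕ) × (σ →₀ ℕ)) k}

theorem theta_toF_ne {a : L1 k N e z} (ha : a ≠ 0) : toF k N e z a ≠ 0 := fun h =>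
  ha (IsFractionRing.injective (L1 k N e z) (F1 k N e z) (h.trans (map_zero _).symm))

theorem theta_unit {b : DualNumber (F1 k N e z)} {a : L1 k N e z} (ha : a ≠ 0)
    (h : b.fst = toF k N e z a) : IsUnit b :=
  TrivSqZeroExt.isUnit_iff_isUnit_fst.2 (h ▸ (theta_toF_ne ha).isUnit)

theorem theta_upt_z (j : Fin e) : upt k N e z j z = 1 := dif_pos rfl

theorem theta_const (hU : UnivData k E' 𝓤 q G) : aeval (coef E' 𝓤) G ≠ 0 := by
  intro h
  have h1 : (constantCoeff : Lam k N →+* k).comp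
      (aeval (coef E' 𝓤) : MvPolynomial _ k →ₐ[k] Lam k N).toRingHom = constantCoeff := by
    refine MvPolynomial.ringHom_ext (fun c => ?_) fun p => ?_
    · simp
    · simp [hU.red p]
  have h2 : constantCoeff (aeval (coef E' 𝓤) G) = constantCoeff G := RingHom.congr_fun h1 G
  rw [h, map_zero, hU.const] at h2
  exact zero_ne_one h2

theorem theta_ext (hM : MChart k E R 𝓘) (hP : Pair E E' y z μ) (hU : Marked E' 0 𝓤)
    {𝔮 : Ideal (L1 k N e z)} [𝔮.IsPrime] {φ₁ : R →ₐ[k] Localization.AtPrime 𝔮}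
    (hd : udet E' μ z 𝓤 ∉ 𝔮)
    (hA : Agree (bc (φ₁ : R →+* Localization.AtPrime 𝔮) 𝓘)
      (famAt 𝓤 (IsScalarTower.toAlgHom k (L1 k N e z) (Localization.AtPrime 𝔮))))
    {B : Type u} [CommRing B] [Algebra k B] (η : L1 k N e z →ₐ[k] B)
    (hη : ∀ a, a ∉ 𝔮 → IsUnit (η a)) :
    ∃ η' : Localization.AtPrime 𝔮 →ₐ[k] B,
      (∀ a, η' (algebraMap (L1 k N e z) (Localization.AtPrime 𝔮) a) = η a) ∧
      Agree (bc (η'.comp φ₁ : R →+* B) 𝓘) (famAt 𝓤 η) := by
  have hu : ∀ s : 𝔮.primeCompl, IsUnit (η s) := fun s => hη s s.2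
  let η' : Localization.AtPrime 𝔮 →ₐ[k] B := IsLocalization.liftAlgHom hu
  have h1 : ∀ a, η' (algebraMap (L1 k N e z) (Localization.AtPrime 𝔮) a) = η a := fun a =>
    IsLocalization.lift_eq (g := (η : L1 k N e z →+* B)) hu a
  have h2 : η'.comp (IsScalarTower.toAlgHom k (L1 k N e z) (Localization.AtPrime 𝔮)) = η :=
    AlgHom.ext h1
  have h3 : IsUnit (IsScalarTower.toAlgHom k (L1 k N e z) (Localization.AtPrime 𝔮)
      (udet E' μ z 𝓤)) :=
    IsLocalization.map_units (Localization.AtPrime 𝔮) (⟨_, hd⟩ : 𝔮.primeCompl)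
  obtain ⟨d, h4⟩ := famAt_marked hP hU _ h3
  have h5 := hA.bc (hM.homog.bc _) h4.homog (η' : Localization.AtPrime 𝔮 →+* B)
  rw [bc_bc] at h5
  have h6 := famAt_bc hP hU _ h3 η'
  rw [h2] at h6
  exact ⟨η', h1, h5.trans h6⟩

/-- `vers_big`, `vers_pts`.  The reduction of `aeval (coef E' 𝒦') G` is the image of
`aeval (coef E' 𝓤) G`, a polynomial with constant term `1`, so it is a unit of `F[ε]` and
`UnivData.univ` applies.  Put `η (inl i) = coef E' 𝒦' (q i)`, `η (inr (j, l)) = q_j l`; then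
`LeD d' 𝒦 (famAt 𝓤 η)`, both sides are marked (`famAt_marked`). -/
theorem exists_eta (hP : Pair E E' y z μ) (hU : UnivData k E' 𝓤 q G) (hdet : udet E' μ z 𝓤 ≠ 0)
    {𝒦 : Ideal (MvPolynomial σ (DualNumber (F1 k N e z)))} {d : ℕ} (h𝒦 : Marked E d 𝒦)
    (hA : Agree (bc (dfst (F1 k N e z)) 𝒦) (famAt 𝓤 (toF k N e z))) :
    ∃ η : L1 k N e z →ₐ[k] DualNumber (F1 k N e z), (∀ a, (η a).fst = toF k N e z a) ∧
      Agree 𝒦 (famAt 𝓤 η) := by
  have hJ : Marked E' 0 (bc ((toF k N e z).comp (uin k N e z) : Lam k N →+* F1 k N e z) 𝓤) :=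
    hU.marked.bc _
  have hp : ∀ j, toF k N e z (upt k N e z j z) = 1 := fun j => by rw [theta_upt_z, map_one]
  have hd : (Emat E' μ (bc ((toF k N e z).comp (uin k N e z) : Lam k N →+* F1 k N e z) 𝓤)
      fun j l => toF k N e z (upt k N e z j l)).det ≠ 0 := by
    rw [det_famAt hU.marked]
    exact theta_toF_ne hdet
  obtain ⟨𝒦', h1, h2, h3⟩ := vers_big hP hJ hp hd h𝒦 hA
  choose qq hq1 hq2 dd hq3 using fun j => vers_pts hP hJ hp hd h𝒦 hA j
  have hc : ∀ x, (coef E' 𝒦' x).fst = toF k N e z (uin k N e z (coef E' 𝓤 x)) := by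
    intro x
    have a1 := h1.coef_bc (dfst (F1 k N e z)) x
    rw [h2, hU.marked.coef_bc] at a1
    exact a1.symm
  have hG : IsUnit (aeval (coef E' 𝒦') G) := by
    refine theta_unit (a := uin k N e z (aeval (coef E' 𝓤) G)) ?_ ?_
    · intro h
      exact theta_const hU (rename_injective _ Sum.inl_injective (h.trans (map_zero _).symm))
    · have a1 : (TrivSqZeroExt.fstHom k (F1 k N e z) (F1 k N e z)).comp (aeval (coef E' 𝒦')) =
          ((toF k N e z).comp (uin k N e z)).comp (aeval (coef E' 𝓤)) := by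
        refine MvPolynomial.algHom_ext fun x => ?_
        simp only [AlgHom.comp_apply, aeval_X]
        exact hc x
      exact AlgHom.congr_fun a1 G
  have h4 := hU.univ _ 𝒦' h1 hG.mem_nonZeroDivisors
  let η : L1 k N e z →ₐ[k] DualNumber (F1 k N e z) :=
    aeval (Sum.elim (fun i => coef E' 𝒦' (q i)) fun x => qq x.1 x.2.1)
  have e1 : η.comp (uin k N e z) = aeval fun i => coef E' 𝒦' (q i) := by
    refine MvPolynomial.algHom_ext fun i => ?_
    simp only [η, uin, AlgHom.comp_apply, rename_X, aeval_X, Sum.elim_inl]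
  have e2 : (fun j l => η (upt k N e z j l)) = qq := by
    funext j l
    by_cases hl : l = z
    · rw [hl, theta_upt_z, map_one, hq2]
    · simp only [η, upt, dif_neg hl, aeval_X, Sum.elim_inr]
  have e3 : (TrivSqZeroExt.fstHom k (F1 k N e z) (F1 k N e z)).comp η = toF k N e z := by
    refine MvPolynomial.algHom_ext fun v => ?_
    rcases v with i | ⟨j, l, hl⟩
    · simp only [η, AlgHom.comp_apply, aeval_X, Sum.elim_inl]
      refine (hc (q i)).trans ?_
      rw [hU.coord, uin, rename_X]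
    · simp only [η, AlgHom.comp_apply, aeval_X, Sum.elim_inr]
      refine (hq1 j l).trans ?_
      rw [upt, dif_neg hl]
  have e4 : ∀ a, (η a).fst = toF k N e z a := fun a => AlgHom.congr_fun e3 a
  refine ⟨η, e4, ?_⟩
  obtain ⟨d', h5⟩ := famAt_marked hP hU.marked η (theta_unit hdet (e4 _))
  refine h𝒦.agree_of_leD h5 (d := Finset.univ.sup dd) fun n hn f hf hm => ?_
  rw [famAt, e1, e2, ← h4]
  refine ⟨h3 hm, ?_⟩
  exact (Submodule.mem_iInf _).2 fun j =>
    hq3 j n ((Finset.le_sup (Finset.mem_univ j)).trans hn) f hf hm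

/-- From `theta_local`: every `η : L1 → B'` that sends the complement of `𝔮` to units extends to
`η' : Localization.AtPrime 𝔮 → B'` (`IsLocalization.liftAlgHom`), and `bc (η'.comp φ₁) 𝓘` agrees
with `famAt 𝓤 η` (`famAt_bc`).  `θ₁` is the case `η = toF`, where `η'` is injective.  For a lift
`θ'`, `bc θ' 𝓘` is marked (`mark` for the local ring `F[ε]`), `exists_eta` and `inj` give
`θ' = η'.comp φ₁`. -/
theorem exists_theta [Infinite k] (hM : MChart k E R 𝓘) {x₀ : R →ₐ[k] k}
    (hx₀ : Agree (bc (x₀ : R →+* k) 𝓘) (monI k E)) (hP : Pair E E' y z μ)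
    (hU : UnivData k E' 𝓤 q G) :
    ∃ θ₁ : R →ₐ[k] F1 k N e z, udet E' μ z 𝓤 ≠ 0 ∧
      Agree (bc (θ₁ : R →+* F1 k N e z) 𝓘) (famAt 𝓤 (toF k N e z)) ∧
      (∀ a, θ₁ a = 0 → x₀ a = 0) ∧
      ∀ θ' : R →ₐ[k] DualNumber (F1 k N e z), (∀ a, (θ' a).fst = θ₁ a) →
        ∀ a, θ₁ a = 0 → θ' a = 0 := by
  obtain ⟨𝔮, h𝔮, φ₁, h1, h2, h3⟩ := theta_local hM hx₀ hP hU
  have hne : ∀ a, a ∉ 𝔮 → a ≠ 0 := fun a ha h => ha (h ▸ 𝔮.zero_mem)
  have hdet := hne _ h1
  obtain ⟨ι, a1, a2⟩ := theta_ext hM hP hU.marked h1 h2 (toF k N e z)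
    fun a ha => (theta_toF_ne (hne a ha)).isUnit
  have hι : ∀ b, ι b = 0 → b = 0 := by
    intro b hb
    obtain ⟨⟨a, s⟩, hs⟩ := IsLocalization.surj 𝔮.primeCompl b
    have b1 := congrArg ι hs
    rw [map_mul, hb, zero_mul, a1] at b1
    have b2 : a = 0 := by
      by_contra h
      exact theta_toF_ne h b1.symm
    rw [b2, map_zero] at hs
    exact (IsLocalization.map_units (Localization.AtPrime 𝔮) s).mul_left_eq_zero.1 hs
  refine ⟨ι.comp φ₁, hdet, a2, fun a ha => h3 a (hι _ ha), fun θ' hθ a ha => ?_⟩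
  obtain ⟨d, h4⟩ := famAt_marked hP hU.marked (toF k N e z) (theta_toF_ne hdet).isUnit
  have e1 : (TrivSqZeroExt.fstHom k (F1 k N e z) (F1 k N e z)).comp θ' = ι.comp φ₁ :=
    AlgHom.ext hθ
  obtain ⟨d', h5⟩ := hM.mark (DualNumber (F1 k N e z)) (F1 k N e z)
    (TrivSqZeroExt.fstHom k (F1 k N e z) (F1 k N e z))
    ⟨fun b hb => TrivSqZeroExt.isUnit_iff_isUnit_fst.2 hb⟩ θ' d _ h4 (e1 ▸ a2)
  have e2 : (dfst (F1 k N e z)).comp (θ' : R →+* DualNumber (F1 k N e z)) =
      (ι.comp φ₁ : R →+* F1 k N e z) := RingHom.ext hθ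
  obtain ⟨η, b1, b2⟩ := exists_eta hP hU hdet h5 (by rw [bc_bc, e2]; exact a2)
  obtain ⟨η', -, c2⟩ := theta_ext hM hP hU.marked h1 h2 η fun a ha => theta_unit (hne a ha) (b1 a)
  rw [hM.inj _ θ' _ (b2.trans c2.symm), AlgHom.comp_apply, hι (φ₁ a) ha, map_zero]

end Pool.Agent.MP_24718c_ag

end

end partTheta

section partFieldM

/-!
The function field of the component is purely transcendental.
-/

set_option linter.unusedSectionVars false
set_option linter.unusedVariables false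

open MvPolynomial

universe u

noncomputable section

namespace Pool.Agent.MP_24718c_ag

variable {σ : Type} [Fintype σ] [DecidableEq σ] {k : Type u} [Field k] {R : Type u} [CommRing R]
  [Algebra k R] {𝓘 : Ideal (MvPolynomial σ R)} {e N : ℕ} {E E' : Set (σ →₀ ℕ)} {y z : σ}
  {μ : Fin e → σ →₀ ℕ} {𝓤 : Ideal (MvPolynomial σ (MvPolynomial (Fin N) k))}
  {q : Fin N → (σ →₀ ℕ) × (σ →₀ ℕ)} {G : MvPolynomial ((σ →₀ ℕ) × (σ →₀ ℕ)) k}

section
variable {F : Type u} [Field F] [Algebra k F] {J : Ideal (MvPolynomial σ F)} {p : Fin e → σ → F}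
  {d : ℕ}

theorem fieldm_sub (hM : MChart k E R 𝓘) (hP : Pair E E' y z μ) (hJ : Marked E' 0 J)
    (hp : ∀ j, p j z = 1) (hdet : (Emat E' μ J p).det ≠ 0)
    (hinj : Function.Injective fun j => p j y) (hK : Marked E d (joinI J p)) (θ₁ : R →ₐ[k] F)
    (hA : Agree (bc (θ₁ : R →+* F) 𝓘) (joinI J p)) (L : IntermediateField k F)
    (hL : ∀ a, θ₁ a ∈ L) : (∀ q, coef E' J q ∈ L) ∧ (∀ m, (gpol p y).coeff m ∈ L) ∧
      ∀ l m, (fpol p y l).coeff m ∈ L := by
  obtain ⟨d', h1⟩ := hM.mark L F L.val inferInstance (θ₁.codRestrict L.toSubalgebra hL) d _ hK hA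
  have h2 := h1.bc (L.val : L →+* F)
  have h3 := fun α => h1.nf_bc (L.val : L →+* F) (α := α)
  rw [bc_bc] at h2 h3
  obtain ⟨d'', h4⟩ := h2.nf_eq_of_agree hK hA
  refine field_sub L.toSubfield hP hJ hp hdet hinj (hK.mono (d₁ := d + d' + d'') (by omega))
    fun α hα γ => ?_
  rw [← h4 α (by omega), h3 α (by omega), coeff_map]
  exact Subtype.property _

theorem fieldm_fix (hM : MChart k E R 𝓘) (hJ : Marked E' 0 J) (hp : ∀ j, p j z = 1)
    (hinj : Function.Injective fun j => p j y) (hK : Marked E d (joinI J p)) (θ₁ : R →ₐ[k] F)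
    (hA : Agree (bc (θ₁ : R →+* F) 𝓘) (joinI J p)) (L : IntermediateField k F)
    (hc : ∀ q, coef E' J q ∈ L) (hg : ∀ m, (gpol p y).coeff m ∈ L)
    (hf : ∀ l, l ≠ y → l ≠ z → ∀ m, (fpol p y l).coeff m ∈ L)
    (hgen : IntermediateField.adjoin L (Set.range fun j => p j y) = ⊤) (a : R) : θ₁ a ∈ L := by
  obtain ⟨h1, h2⟩ := isGalois_pts L hinj hg hgen
  obtain ⟨b, hb⟩ := (IsGalois.mem_range_algebraMap_iff_fixed (F := L) (θ₁ a)).2 fun τ => by
    obtain ⟨π, hπ⟩ := exists_perm L hinj hp hg hf τ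
    let τ' : F →ₐ[k] F := (τ : F →ₐ[L] F).restrictScalars k
    have h3 := bc_joinI_aut hJ (τ' : F →+* F) (fun q => τ.commutes ⟨_, hc q⟩) π hπ
    have h4 := hA.bc (hM.homog.bc _) hK.homog (τ' : F →+* F)
    rw [bc_bc] at h4
    exact AlgHom.congr_fun (hM.inj F (τ'.comp θ₁) θ₁
      ((h4.trans ((hK.bc _).agree_of_le hK h3)).trans hA.symm)) a
  exact hb ▸ b.2

theorem fieldm_out (θ₁ : R →ₐ[k] F) (L : IntermediateField k F) (h1 : ∀ a, θ₁ a ∈ L)
    (h2 : L ≤ IntermediateField.adjoin k (Set.range θ₁)) {K : Type u} [Field K] [Algebra k K]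
    (ε : L ≃ₐ[k] K) : ∃ θ : R →ₐ[k] K, (∀ a, θ a = 0 ↔ θ₁ a = 0) ∧
      ∀ t, ∃ a b, θ b ≠ 0 ∧ t * θ b = θ a := by
  let θ : R →ₐ[k] K := (ε : L →ₐ[k] K).comp (θ₁.codRestrict L.toSubalgebra h1)
  have hθ : ∀ a, θ a = ε ⟨θ₁ a, h1 a⟩ := fun a => rfl
  have h0 : ∀ a, θ a = 0 ↔ θ₁ a = 0 := fun a => by
    rw [hθ, map_eq_zero_iff ε ε.injective, Subtype.ext_iff]
    rfl
  refine ⟨θ, h0, fun t => ?_⟩
  obtain ⟨s, rfl⟩ := ε.surjective t
  obtain ⟨r, hr, r', hr', h3⟩ := IntermediateField.mem_adjoin_iff_div.1 (h2 s.2)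
  have h4 : Algebra.adjoin k (Set.range θ₁) ≤ θ₁.range := Algebra.adjoin_le fun _ h => h
  obtain ⟨a, rfl⟩ := h4 hr
  obtain ⟨b, rfl⟩ := h4 hr'
  by_cases hb : θ₁ b = 0
  · have h5 : s = 0 := Subtype.ext (h3.trans (div_eq_zero_iff.2 (Or.inr hb)))
    exact ⟨0, 1, by simp, by simp [h5]⟩
  · refine ⟨a, b, mt (h0 b).1 hb, ?_⟩
    rw [hθ, hθ, ← map_mul]
    exact congrArg ε (Subtype.ext ((eq_div_iff hb).1 h3))

theorem fieldm_gpol (L : IntermediateField k F) (h : ∀ m : Fin e, (gpol p y).coeff m ∈ L)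
    (m : ℕ) : (gpol p y).coeff m ∈ L := by
  have h1 : (gpol p y).Monic := Polynomial.monic_prod_X_sub_C _ _
  have h2 : (gpol p y).natDegree = e := by
    rw [gpol, Polynomial.natDegree_finsetProd_X_sub_C_eq_card]
    simp
  rcases lt_trichotomy m e with h3 | h3 | h3
  · exact h ⟨m, h3⟩
  · rw [h3.trans h2.symm, h1.coeff_natDegree]
    exact one_mem _
  · rw [Polynomial.coeff_eq_zero_of_natDegree_lt (h2.trans_lt h3)]
    exact zero_mem _

theorem fieldm_fpol (L : IntermediateField k F) (hinj : Function.Injective fun j => p j y) (l : σ)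
    (h : ∀ m : Fin e, (fpol p y l).coeff m ∈ L) (m : ℕ) : (fpol p y l).coeff m ∈ L := by
  rcases lt_or_ge m e with h3 | h3
  · exact h ⟨m, h3⟩
  · have h1 := Lagrange.degree_interpolate_lt (s := Finset.univ) (fun j => p j l) hinj.injOn
    rw [Finset.card_univ, Fintype.card_fin] at h1
    rw [fpol, Polynomial.coeff_eq_zero_of_degree_lt (h1.trans_le (Nat.cast_le.2 h3))]
    exact zero_mem _

end

/-- Notation: `F = F1`, `J = bc (toF.comp uin) 𝓤`, `p j l = toF (upt j l)` (the `p j y` are distinct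
variables).  `γ (inl i) = toF (X (inl i))`, `γ (inr (m, l)) = coeff m gpol` if `l = y` and
`coeff m (fpol l)` otherwise; `L₁ = adjoin k (range γ)`, `L₀ = adjoin k (range θ₁)`.
`L₁ ≤ L₀`: `mark` for the field `L₀`, its inclusion and the corestriction of `θ₁`, `nf_bc`,
`nf_eq_of_agree`, then `field_sub` and `UnivData.coord`, `coef_bc`.  `L₀ ≤ L₁`: all coefficients of
`gpol` (monic of degree `e`) and `fpol l` (degree `< e`) are in `L₁`, `F` is generated over `L₁` by
the `p j y`, the coefficients `coef E' J` are polynomials in the `γ (inl i)`; for `τ` in the Galois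
group `bc τ (famAt ..) ≤ famAt ..`, so `inj` gives `τ ∘ θ₁ = θ₁`, and fixed elements are in `L₁`
(`IsGalois.mem_bot_iff_fixed` or `fixedField_top`).  `rational_of_count`; elements of `L₀` are
quotients (`IntermediateField.mem_adjoin_iff_div`, the algebra generated by the range of `θ₁` is
its range). -/
theorem theta_rational (hM : MChart k E R 𝓘) (hP : Pair E E' y z μ) (hU : UnivData k E' 𝓤 q G)
    (hdet : udet E' μ z 𝓤 ≠ 0) (θ₁ : R →ₐ[k] F1 k N e z)
    (hA : Agree (bc (θ₁ : R →+* F1 k N e z) 𝓘) (famAt 𝓤 (toF k N e z))) :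
    ∃ (N' : ℕ) (θ : R →ₐ[k] FractionRing (Lam k N')), (∀ a, θ a = 0 ↔ θ₁ a = 0) ∧
      ∀ t, ∃ a b, θ b ≠ 0 ∧ t * θ b = θ a := by
  have hinjF : Function.Injective (toF k N e z) := IsFractionRing.injective _ _
  set p : Fin e → σ → F1 k N e z := fun j l => toF k N e z (upt k N e z j l) with hp'
  have hJ := hU.marked.bc ((toF k N e z).comp (uin k N e z) : Lam k N →+* F1 k N e z)
  have hcoef := hU.marked.coef_bc ((toF k N e z).comp (uin k N e z) : Lam k N →+* F1 k N e z)
  have hp : ∀ j, p j z = 1 := fun j => by simp [hp', upt]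
  have hX : ∀ j (l : {l : σ // l ≠ z}), p j l = toF k N e z (X (Sum.inr (j, l))) :=
    fun j l => by simp [hp', upt, l.2]
  have hinj : Function.Injective fun j => p j y := fun i j h => by
    have h1 := X_injective (hinjF ((hX i ⟨y, hP.ne⟩).symm.trans (h.trans (hX j ⟨y, hP.ne⟩))))
    exact (Prod.ext_iff.1 (Sum.inr_injective h1)).1
  have hd0 : toF k N e z (udet E' μ z 𝓤) ≠ 0 := fun h => hdet (hinjF (h.trans (map_zero _).symm))
  obtain ⟨d, hK⟩ := famAt_marked hP hU.marked (toF k N e z) (Ne.isUnit hd0)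
  rw [← det_famAt hU.marked] at hd0
  let γ : Vr N e z → F1 k N e z := Sum.elim (fun i => toF k N e z (X (Sum.inl i))) fun x =>
    if x.2.1 = y then (gpol p y).coeff x.1 else (fpol p y x.2.1).coeff x.1
  have hγ : ∀ v, γ v ∈ IntermediateField.adjoin k (Set.range γ) := fun v =>
    IntermediateField.subset_adjoin _ _ ⟨v, rfl⟩
  have hle : IntermediateField.adjoin k (Set.range γ) ≤
      IntermediateField.adjoin k (Set.range θ₁) := by
    obtain ⟨h1, h2, h3⟩ := fieldm_sub hM hP hJ hp hd0 hinj hK θ₁ hA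
      (IntermediateField.adjoin k (Set.range θ₁)) fun a =>
        IntermediateField.subset_adjoin _ _ ⟨a, rfl⟩
    rw [IntermediateField.adjoin_le_iff]
    rintro _ ⟨i | x, rfl⟩
    · have h4 := h1 (q i)
      rw [hcoef, hU.coord] at h4
      simpa [γ, uin] using h4
    · simp only [γ, Sum.elim_inr]
      split_ifs
      exacts [h2 _, h3 _ _]
  have hrat := rational_of_count γ
  generalize IntermediateField.adjoin k (Set.range γ) = L at hγ hle hrat
  have hg : ∀ m, (gpol p y).coeff m ∈ L := fieldm_gpol L fun m => by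
    simpa [γ] using hγ (Sum.inr (m, ⟨y, hP.ne⟩))
  have hf : ∀ l, l ≠ y → l ≠ z → ∀ m, (fpol p y l).coeff m ∈ L := fun l h1 h2 =>
    fieldm_fpol L hinj l fun m => by simpa [γ, h1] using hγ (Sum.inr (m, ⟨l, h2⟩))
  have hc : ∀ f, toF k N e z (uin k N e z f) ∈ L := fun f => by
    induction f using MvPolynomial.induction_on with
    | C a => simp [uin, ← algebraMap_eq]
    | add a b ha hb => rw [map_add, map_add]; exact add_mem ha hb
    | mul_X a i ha =>
      rw [map_mul, map_mul]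
      exact mul_mem ha (by simpa [γ, uin] using hγ (Sum.inl i))
  have hgen : IntermediateField.adjoin L (Set.range fun j => p j y) = ⊤ := by
    have h0 : ∀ j, p j y ∈ IntermediateField.adjoin L (Set.range fun j => p j y) := fun j =>
      IntermediateField.subset_adjoin _ _ ⟨j, rfl⟩
    generalize IntermediateField.adjoin L (Set.range fun j => p j y) = K at h0
    have h1 : ∀ x ∈ L, x ∈ K := fun x hx => K.algebraMap_mem ⟨x, hx⟩
    have h2 : ∀ f, toF k N e z f ∈ K := fun f => by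
      induction f using MvPolynomial.induction_on with
      | C a => exact h1 _ (by simp [← algebraMap_eq])
      | add a b ha hb => rw [map_add]; exact add_mem ha hb
      | mul_X a v ha =>
        rw [map_mul]
        refine mul_mem ha ?_
        rcases v with i | ⟨j, l⟩
        · exact h1 _ (hγ (Sum.inl i))
        rw [← hX]
        by_cases hl : l.1 = y
        · rw [hl]
          exact h0 j
        · rw [← Lagrange.eval_interpolate_at_node (s := Finset.univ) (fun j => p j l)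
            hinj.injOn (Finset.mem_univ j), Polynomial.eval_eq_sum_range]
          exact sum_mem fun m _ => mul_mem (h1 _ (hf l hl l.2 m)) (pow_mem (h0 j) m)
    refine eq_top_iff.2 fun x _ => ?_
    obtain ⟨a, b, -, rfl⟩ := IsFractionRing.div_surjective (A := L1 k N e z) x
    exact div_mem (h2 a) (h2 b)
  have := (isGalois_pts L hinj hg hgen).2
  obtain ⟨N', ⟨ε⟩⟩ := hrat (Algebra.IsAlgebraic.of_finite _ _)
  exact ⟨N', fieldm_out θ₁ L (fieldm_fix hM hJ hp hinj hK θ₁ hA L
    (fun x => by rw [hcoef]; exact hc _) hg hf hgen) hle ε⟩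

end Pool.Agent.MP_24718c_ag

end

end partFieldM

end
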