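import Pool.Agent.MP_24718c_ag.Marked
import Pool.Agent.MP_24718c_ag.Cell
import Pool.Agent.MP_24718c_ag.Mg.Loc
import Pool.Agent.MP_24718c_ag.HB
import Pool.Agent.MP_24718c_ag.Comb

-- part MP_24718c_ag.Sch
section

section partFamily

/-!
Marked ideals and flat families.
-/

set_option linter.unusedSectionVars false
set_option linter.unusedVariables false

open MvPolynomial

universe u

noncomputable section

namespace Pool.Agent.MP_24718c_ag

section
variable {σ : Type} [Fintype σ] [DecidableEq σ] {B : Type u} [CommRing B]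
  {E : Set (σ →₀ ℕ)} {I J : Ideal (MvPolynomial σ B)} {d d₀ d₁ : ℕ} {P : Polynomial ℚ}

/-- the class of the degree `d` component -/
def family_q (I : Ideal (MvPolynomial σ B)) (d : ℕ) : MvPolynomial σ B →ₗ[B] Piece I d :=
  (Submodule.mkQ _).comp ((homogeneousComponent d).codRestrict (homogeneousSubmodule σ B d)
    (fun f => homogeneousComponent_mem d f))

theorem family_q_eq_zero {f : MvPolynomial σ B} (hf : f.IsHomogeneous d) :
    family_q I d f = 0 ↔ f ∈ I := by
  rw [family_q, LinearMap.comp_apply, Submodule.mkQ_apply, Submodule.Quotient.mk_eq_zero]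
  change homogeneousComponent d f ∈ I ↔ _
  rw [homogeneousComponent_eq_self hf]

theorem family_q_surj (x : Piece I d) : ∃ f : MvPolynomial σ B, f.IsHomogeneous d ∧
    family_q I d f = x := by
  obtain ⟨⟨f, hf⟩, rfl⟩ := Submodule.Quotient.mk_surjective _ x
  refine ⟨f, hf, ?_⟩
  rw [family_q, LinearMap.comp_apply, Submodule.mkQ_apply]
  congr 1
  exact Subtype.ext (homogeneousComponent_eq_self hf)

/-- the polynomial with given coefficients -/
def family_emb (B : Type u) [CommRing B] (E : Set (σ →₀ ℕ)) (d : ℕ) :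
    ({γ : σ →₀ ℕ // γ ∉ E ∧ γ.degree = d} →₀ B) →ₗ[B] MvPolynomial σ B :=
  Finsupp.linearCombination B fun γ => monomial γ.1 1

theorem family_emb_single (γ : {γ : σ →₀ ℕ // γ ∉ E ∧ γ.degree = d}) (c : B) :
    family_emb B E d (Finsupp.single γ c) = monomial γ.1 c := by
  rw [family_emb, Finsupp.linearCombination_single, smul_monomial, smul_eq_mul, mul_one]

theorem family_emb_coeff (c : {γ : σ →₀ ℕ // γ ∉ E ∧ γ.degree = d} →₀ B)
    (γ : {γ : σ →₀ ℕ // γ ∉ E ∧ γ.degree = d}) : coeff γ.1 (family_emb B E d c) = c γ := by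
  classical
  induction c using Finsupp.induction_linear with
  | zero => simp
  | add a b ha hb => rw [map_add, coeff_add, ha, hb, Finsupp.add_apply]
  | single δ b =>
    rw [family_emb_single, coeff_monomial, Finsupp.single_apply]
    simp only [Subtype.ext_iff]

theorem family_emb_off (c : {γ : σ →₀ ℕ // γ ∉ E ∧ γ.degree = d} →₀ B) {γ : σ →₀ ℕ}
    (hγ : ¬ (γ ∉ E ∧ γ.degree = d)) : coeff γ (family_emb B E d c) = 0 := by
  classical
  induction c using Finsupp.induction_linear with
  | zero => simp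
  | add a b ha hb => rw [map_add, coeff_add, ha, hb, add_zero]
  | single δ b =>
    rw [family_emb_single, coeff_monomial, if_neg]
    intro h
    exact hγ (h ▸ δ.2)

theorem family_emb_Nsp (c : {γ : σ →₀ ℕ // γ ∉ E ∧ γ.degree = d} →₀ B) :
    family_emb B E d c ∈ Nsp B E :=
  mem_Nsp.2 fun _ hγ => family_emb_off c fun h => h.1 hγ

theorem family_emb_hom (c : {γ : σ →₀ ℕ // γ ∉ E ∧ γ.degree = d} →₀ B) :
    (family_emb B E d c).IsHomogeneous d :=
  isHomogeneous_iff_degree.2 fun _ hγ => by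
    by_contra h
    exact hγ (family_emb_off c fun h' => h h'.2)

theorem family_finite (E : Set (σ →₀ ℕ)) (d : ℕ) :
    Finite {γ : σ →₀ ℕ // γ ∉ E ∧ γ.degree = d} :=
  Set.Finite.to_subtype ((Finsupp.finite_of_degree_eq d).subset fun _ h => h.2)

theorem family_emb_surj {g : MvPolynomial σ B} (hg : g ∈ Nsp B E) (hd : g.IsHomogeneous d) :
    ∃ c, family_emb B E d c = g := by
  have := family_finite E d
  refine ⟨Finsupp.equivFunOnFinite.symm fun γ => coeff γ.1 g, ?_⟩
  ext γ
  by_cases h : γ ∉ E ∧ γ.degree = d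
  · exact family_emb_coeff _ ⟨γ, h⟩
  · rw [family_emb_off _ h]
    by_contra h0
    exact h ⟨fun hE => h0 (mem_Nsp.1 hg γ hE).symm, isHomogeneous_iff_degree.1 hd γ (Ne.symm h0)⟩

theorem family_emb_eq_zero {c : {γ : σ →₀ ℕ // γ ∉ E ∧ γ.degree = d} →₀ B}
    (h : family_emb B E d c = 0) : c = 0 := by
  ext γ
  rw [← family_emb_coeff, h]
  rfl

theorem family_rank (e : Piece I d ≃ₗ[B] ({γ : σ →₀ ℕ // γ ∉ E ∧ γ.degree = d} →₀ B))
    (p : PrimeSpectrum B) : Module.rankAtStalk (Piece I d) p = cnt E d := by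
  have := family_finite E d
  have := Fintype.ofFinite {γ : σ →₀ ℕ // γ ∉ E ∧ γ.degree = d}
  have := p.nontrivial
  rw [Module.rankAtStalk_eq_of_equiv e, Module.rankAtStalk_eq_finrank_of_free, Pi.natCast_apply,
    Module.finrank_finsupp_self, cnt, Nat.card_eq_fintype_card]
  rfl

theorem family_piece_finite (I : Ideal (MvPolynomial σ B)) (d : ℕ) :
    Module.Finite B (Piece I d) := by
  have := family_finite (∅ : Set (σ →₀ ℕ)) d
  refine Module.Finite.of_surjective ((family_q I d).comp (family_emb B ∅ d)) fun x => ?_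
  obtain ⟨f, hf, rfl⟩ := family_q_surj x
  obtain ⟨c, rfl⟩ := family_emb_surj (E := ∅) (mem_Nsp.2 fun _ h => h.elim) hf
  exact ⟨c, rfl⟩

theorem family_onto [IsLocalRing B] {K : Type u} [Field K] (ρ : B →+* K) [IsLocalHom ρ]
    (hJ : IsHomog J) (hK : ∀ f : MvPolynomial σ K, f.IsHomogeneous d →
      ∃ g ∈ Nsp K E, g.IsHomogeneous d ∧ f - g ∈ bc ρ J) :
    Function.Surjective ((family_q J d).comp (family_emb B E d)) := by
  have := family_piece_finite J d
  rw [← LinearMap.range_eq_top]
  by_contra hne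
  obtain ⟨N, hN, hle⟩ := (eq_top_or_exists_le_coatom _).resolve_left hne
  obtain ⟨m, hm, ⟨e⟩⟩ := isSimpleModule_iff_quot_maximal.1 (isSimpleModule_iff_isCoatom.2 hN)
  obtain rfl := IsLocalRing.eq_maximalIdeal hm
  let lam : MvPolynomial σ B →ₗ[B] IsLocalRing.ResidueField B :=
    e.toLinearMap.comp (N.mkQ.comp (family_q J d))
  let ι := IsLocalRing.ResidueField.lift ρ
  let Λ : MvPolynomial σ K →ₗ[K] K := (basisMonomials σ K).constr K fun γ => ι (lam (monomial γ 1))
  have hΛ : ∀ γ (c : K), Λ (monomial γ c) = c * ι (lam (monomial γ 1)) := by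
    intro γ c
    have h1 : (monomial γ c : MvPolynomial σ K) = c • basisMonomials σ K γ := by
      rw [coe_basisMonomials, smul_monomial, smul_eq_mul, mul_one]
    rw [h1, map_smul, Module.Basis.constr_basis, smul_eq_mul]
  have h1 : ∀ f : MvPolynomial σ B, Λ (MvPolynomial.map ρ f) = ι (lam f) := by
    intro f
    induction f using MvPolynomial.induction_on' with
    | monomial γ c =>
      have h2 : (monomial γ c : MvPolynomial σ B) = c • monomial γ 1 := by
        rw [smul_monomial, smul_eq_mul, mul_one]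
      rw [map_monomial, hΛ, h2, map_smul, Algebra.smul_def, map_mul]
      rfl
    | add a b ha hb => rw [map_add, map_add, ha, hb, map_add, map_add]
  have h2 : ∀ c, Λ (family_emb K E d c) = 0 := by
    intro c
    induction c using Finsupp.induction_linear with
    | zero => simp
    | add a b ha hb => rw [map_add, map_add, ha, hb, add_zero]
    | single δ b =>
      have h3 : N.mkQ (family_q J d (monomial δ.1 1)) = 0 := by
        rw [Submodule.mkQ_apply, Submodule.Quotient.mk_eq_zero, ← family_emb_single]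
        exact hle ⟨Finsupp.single δ 1, rfl⟩
      have h4 : lam (monomial δ.1 1) = 0 := by
        change e (N.mkQ (family_q J d (monomial δ.1 1))) = 0
        rw [h3, map_zero]
      rw [family_emb_single, hΛ, h4, map_zero, mul_zero]
  have h3 : ∀ f : MvPolynomial σ K, f.IsHomogeneous d → f ∈ bc ρ J → Λ f = 0 := by
    intro f hf hfJ
    have h4 : Submodule.span K (MvPolynomial.map ρ '' {g | g ∈ J ∧ g.IsHomogeneous d}) ≤
        LinearMap.ker Λ := by
      rw [Submodule.span_le]
      rintro _ ⟨g, ⟨hg, hg'⟩, rfl⟩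
      have h5 : lam g = 0 := by
        change e (N.mkQ (family_q J d g)) = 0
        rw [(family_q_eq_zero hg').2 hg, map_zero, map_zero]
      change Λ _ = 0
      rw [h1, h5, map_zero]
    exact h4 ((hJ.mem_bc_iff ρ hf).1 hfJ)
  obtain ⟨x, hx⟩ := N.mkQ_surjective (e.symm 1)
  obtain ⟨f, hf, rfl⟩ := family_q_surj x
  have h4 : lam f = 1 := by
    change e (N.mkQ (family_q J d f)) = 1
    rw [hx, e.apply_symm_apply]
  obtain ⟨g, hg, hg', hfg⟩ := hK _ (hf.map ρ)
  obtain ⟨c, rfl⟩ := family_emb_surj hg hg'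
  have h5 := h3 _ ((hf.map ρ).sub hg') hfg
  rw [map_sub, h1, h2, h4, map_one, sub_zero] at h5
  exact one_ne_zero h5

theorem family_inj [IsLocalRing B] {K : Type u} [Field K] (ρ : B →+* K) [IsLocalHom ρ]
    (hp : Module.Projective B (Piece J d))
    (hs : Function.Surjective ((family_q J d).comp (family_emb B E d)))
    (hK : ∀ g ∈ Nsp K E, g.IsHomogeneous d → g ∈ bc ρ J → g = 0) :
    LinearMap.ker ((family_q J d).comp (family_emb B E d)) = ⊥ := by
  have := family_finite E d
  have := Fintype.ofFinite {γ : σ →₀ ℕ // γ ∉ E ∧ γ.degree = d}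
  set ψ := (family_q J d).comp (family_emb B E d) with hψ
  obtain ⟨s, hs'⟩ := Module.projective_lifting_property ψ LinearMap.id hs
  let r := LinearMap.id - s.comp ψ
  have hr1 : ∀ c, r c ∈ LinearMap.ker ψ := by
    intro c
    have h1 : ψ (s (ψ c)) = ψ c := LinearMap.congr_fun hs' (ψ c)
    change ψ (c - s (ψ c)) = 0
    rw [map_sub, h1, sub_self]
  have hr2 : ∀ c ∈ LinearMap.ker ψ, r c = c := by
    intro c hc
    change c - s (ψ c) = c
    rw [LinearMap.mem_ker.1 hc, map_zero, sub_zero]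
  have hrange : LinearMap.range r = LinearMap.ker ψ := by
    apply le_antisymm
    · rintro _ ⟨c, rfl⟩
      exact hr1 c
    · intro c hc
      exact ⟨c, hr2 c hc⟩
  refine Submodule.eq_bot_of_le_smul_of_le_jacobson_bot (IsLocalRing.maximalIdeal B) _ ?_ ?_
    (IsLocalRing.maximalIdeal_le_jacobson _)
  · rw [← hrange, ← Submodule.map_top]
    exact Module.Finite.fg_top.map _
  · intro c hc
    have h1 : family_emb B E d c ∈ J := (family_q_eq_zero (family_emb_hom c)).1 hc
    have h2 := hK _ (Nsp_map ρ (family_emb_Nsp c)) ((family_emb_hom c).map ρ)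
      (Ideal.mem_map_of_mem _ h1)
    have h3 : ∀ γ, c γ ∈ IsLocalRing.maximalIdeal B := by
      intro γ
      have h4 : ρ (c γ) = 0 := by
        rw [← family_emb_coeff, ← coeff_map, h2, coeff_zero]
      intro hu
      exact (hu.map ρ).ne_zero h4
    have h5 : c = ∑ γ, c γ • r (Finsupp.single γ 1) := by
      simp only [← map_smul, Finsupp.smul_single, smul_eq_mul, mul_one]
      rw [← map_sum, Finsupp.univ_sum_single, hr2 c hc]
    rw [h5]
    exact Submodule.sum_mem _ fun γ _ => Submodule.smul_mem_smul (h3 γ) (hr1 _)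

/-- the monomials of degree `d` outside `E` give a basis of the degree `d` piece -/
theorem Marked.piece_equiv (h : Marked E d₀ I) (hd : d₀ ≤ d) :
    Nonempty (Piece I d ≃ₗ[B] ({γ : σ →₀ ℕ // γ ∉ E ∧ γ.degree = d} →₀ B)) := by
  refine ⟨(LinearEquiv.ofBijective ((family_q I d).comp (family_emb B E d)) ⟨?_, ?_⟩).symm⟩
  · rw [injective_iff_map_eq_zero]
    intro c hc
    exact family_emb_eq_zero (h.indep d hd _ (family_emb_Nsp c) (family_emb_hom c)
      ((family_q_eq_zero (family_emb_hom c)).1 hc))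
  · intro x
    obtain ⟨f, hf, rfl⟩ := family_q_surj x
    obtain ⟨g, hg, hg', hfg⟩ := h.span d hd f hf
    obtain ⟨c, rfl⟩ := family_emb_surj hg hg'
    refine ⟨c, ?_⟩
    have h1 := (family_q_eq_zero (hf.sub hg')).2 hfg
    rw [map_sub, sub_eq_zero] at h1
    exact h1.symm

theorem finite_degree_eq (E : Set (σ →₀ ℕ)) (d : ℕ) :
    Finite {γ : σ →₀ ℕ // γ ∉ E ∧ γ.degree = d} := family_finite E d

theorem Marked.isFamily (h : Marked E d₀ I)
    (hP : ∃ d₁ : ℕ, ∀ d, d₁ ≤ d → (cnt E d : ℚ) = P.eval (d : ℚ)) : IsFamily P I := by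
  obtain ⟨d₁, hP⟩ := hP
  refine ⟨h.homog, max d₀ d₁, fun d hd => ?_⟩
  obtain ⟨e⟩ := h.piece_equiv (le_of_max_le_left hd)
  refine ⟨Module.Projective.of_equiv e.symm, fun p => ?_⟩
  rw [family_rank e p, hP d (le_of_max_le_right hd)]

theorem Marked.count [Nontrivial B] (h : Marked E d₀ I) (hF : IsFamily P I) :
    ∃ d₁ : ℕ, ∀ d, d₁ ≤ d → (cnt E d : ℚ) = P.eval (d : ℚ) := by
  obtain ⟨-, d₁, hF⟩ := hF
  refine ⟨max d₀ d₁, fun d hd => ?_⟩
  obtain ⟨e⟩ := h.piece_equiv (le_of_max_le_left hd)
  obtain ⟨p⟩ : Nonempty (PrimeSpectrum B) := inferInstance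
  rw [← family_rank e p]
  exact (hF d (le_of_max_le_right hd)).2 p

theorem IsFamily.of_agree (hF : IsFamily P I) (hJ : IsHomog J) (h : Agree I J) :
    IsFamily P J := by
  obtain ⟨-, d₁, hF⟩ := hF
  obtain ⟨d₂, h⟩ := h
  refine ⟨hJ, max d₁ d₂, fun d hd => ?_⟩
  have e : Piece I d ≃ₗ[B] Piece J d := Submodule.quotEquivOfEq _ _ (by
    ext f
    exact h d (le_of_max_le_right hd) f.1 f.2)
  obtain ⟨h1, h2⟩ := hF d (le_of_max_le_left hd)
  refine ⟨Module.Projective.of_equiv e, fun p => ?_⟩
  rw [← Module.rankAtStalk_eq_of_equiv e]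
  exact h2 p

/-- Nakayama.  Fix a large degree `d`, `S_d` the finite free module of forms.
Spanning: it suffices that `S_d ≤ J_d + Nsp_d + 𝔪 S_d`; otherwise a nonzero functional of the
residue field vector space `S_d / (J_d + Nsp_d + 𝔪 S_d)`, composed with the embedding of the
residue field in `K`, extends to a `K`-linear functional on `K[x]` (prescribe the values on
monomials) that kills `(bc ρ J)_d` (use `IsHomog.mem_bc_iff`) and `Nsp`, hence all forms of
degree `d`.  Independence: `Nsp_d → Piece J d` is onto a projective module, so its kernel `N₀` is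
a direct summand; `N₀ ≤ 𝔪 Nsp_d` by independence over `K`; applying the retraction gives
`N₀ ≤ 𝔪 N₀`, so `N₀ = 0`. -/
theorem mark_local [IsLocalRing B] {K : Type u} [Field K] (ρ : B →+* K) [IsLocalHom ρ]
    (hJ : IsHomog J) (hp : ∀ d, d₀ ≤ d → Module.Projective B (Piece J d))
    (hK : Marked E d₁ (bc ρ J)) : Marked E (max d₀ d₁) J := by
  have hs : ∀ d, max d₀ d₁ ≤ d → Function.Surjective ((family_q J d).comp (family_emb B E d)) :=
    fun d hd => family_onto ρ hJ (hK.span d (le_of_max_le_right hd))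
  refine ⟨hJ, fun d hd f hf => ?_, fun d hd g hg hg' hgJ => ?_⟩
  · obtain ⟨c, hc⟩ := hs d hd (family_q J d f)
    refine ⟨_, family_emb_Nsp c, family_emb_hom c,
      (family_q_eq_zero (hf.sub (family_emb_hom c))).1 ?_⟩
    rw [map_sub, ← hc]
    exact sub_self _
  · obtain ⟨c, rfl⟩ := family_emb_surj hg hg'
    have h1 := family_inj ρ (hp d (le_of_max_le_left hd)) (hs d hd)
      (hK.indep d (le_of_max_le_right hd))
    have h2 : c ∈ LinearMap.ker ((family_q J d).comp (family_emb B E d)) :=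
      (family_q_eq_zero hg').2 hgJ
    rw [h1, Submodule.mem_bot] at h2
    rw [h2, map_zero]

end

end Pool.Agent.MP_24718c_ag

end

end partFamily

section partBorel

/-!
Borel-fixed ideals in characteristic zero are strongly stable monomial ideals.
-/

set_option linter.unusedSectionVars false
set_option linter.unusedVariables false

open MvPolynomial

universe u

noncomputable section

namespace Pool.Agent.MP_24718c_ag

section
variable {n : ℕ} {k : Type u} [Field k]

theorem borel_coeff_diag (t : Fin n → k) (f : MvPolynomial (Fin n) k) (γ : Fin n →₀ ℕ) :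
    coeff γ (aeval (fun j => C (t j) * X j : Fin n → MvPolynomial (Fin n) k) f) =
      (γ.prod fun i e => t i ^ e) * coeff γ f := by
  induction f using MvPolynomial.induction_on' with
  | monomial β c =>
    have h : aeval (fun j => C (t j) * X j : Fin n → MvPolynomial (Fin n) k) (monomial β c) =
        monomial β ((β.prod fun i e => t i ^ e) * c) := by
      rw [aeval_monomial, monomial_eq, algebraMap_eq, mul_comm _ c, C_mul, mul_assoc,
        map_finsuppProd, ← Finsupp.prod_mul]
      simp only [mul_pow, C_pow]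
    rw [h, coeff_monomial, coeff_monomial]
    split_ifs with e
    · rw [e]
    · rw [mul_zero]
  | add p q hp hq => rw [map_add, coeff_add, coeff_add, hp, hq, mul_add]

theorem borel_diag {I : Ideal (MvPolynomial (Fin n) k)} (hB : IsBorelFixed I) {t : Fin n → k}
    (ht : ∀ i, t i ≠ 0) {f : MvPolynomial (Fin n) k} (hf : f ∈ I) :
    aeval (fun j => C (t j) * X j : Fin n → MvPolynomial (Fin n) k) f ∈ I := by
  have h := hB (Matrix.diagonal t) (Matrix.blockTriangular_diagonal t)
    (by rw [Matrix.det_diagonal]; exact Finset.prod_ne_zero_iff.2 fun i _ => ht i)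
  have e : (fun j => ∑ i, C (Matrix.diagonal t i j) * X i : Fin n → MvPolynomial (Fin n) k) =
      fun j => C (t j) * X j := funext fun j => by
    rw [Finset.sum_eq_single j]
    · rw [Matrix.diagonal_apply_eq]
    · intro i _ h
      rw [Matrix.diagonal_apply_ne _ h, C_0, zero_mul]
    · intro h
      exact absurd (Finset.mem_univ j) h
  rw [e] at h
  exact h ▸ Ideal.mem_map_of_mem _ hf

theorem borel_sep [Infinite k] {α β : Fin n →₀ ℕ} (h : α ≠ β) : ∃ t : Fin n → k,
    (∀ i, t i ≠ 0) ∧ (α.prod fun i e => t i ^ e) ≠ β.prod fun i e => t i ^ e := by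
  obtain ⟨i, hi⟩ : ∃ i, α i ≠ β i := by
    by_contra hc
    push Not at hc
    exact h (Finsupp.ext hc)
  obtain ⟨s, hs⟩ : ∃ s : k, s * (s ^ α i - s ^ β i) ≠ 0 := by
    by_contra hc
    push Not at hc
    have h1 : (Polynomial.X * (Polynomial.X ^ α i - Polynomial.X ^ β i) : Polynomial k) = 0 :=
      Polynomial.funext fun r => by simpa using hc r
    rcases mul_eq_zero.1 h1 with h2 | h2
    · exact Polynomial.X_ne_zero h2
    · have := congrArg Polynomial.natDegree (sub_eq_zero.1 h2)
      rw [Polynomial.natDegree_X_pow, Polynomial.natDegree_X_pow] at this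
      exact hi this
  have e : ∀ γ : Fin n →₀ ℕ,
      (γ.prod fun l e => Function.update (1 : Fin n → k) i s l ^ e) = s ^ γ i := fun γ => by
    rw [Finsupp.prod_fintype _ _ fun _ => pow_zero _, Finset.prod_eq_single i]
    · rw [Function.update_self]
    · intro l _ hl
      rw [Function.update_of_ne hl, Pi.one_apply, one_pow]
    · intro h
      exact absurd (Finset.mem_univ i) h
  refine ⟨Function.update 1 i s, fun l => ?_, ?_⟩
  · rcases eq_or_ne l i with rfl | hl
    · rw [Function.update_self]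
      exact left_ne_zero_of_mul hs
    · rw [Function.update_of_ne hl]
      exact one_ne_zero
  · rw [e, e]
    exact sub_ne_zero.1 (right_ne_zero_of_mul hs)

/-- An ideal fixed by the diagonal torus over an infinite field is monomial: if `f ∈ I` has two
monomials `α ≠ β`, choose a diagonal matrix `t` with `t^α ≠ t^β`; `t·f - t^β f ∈ I` has smaller
support and still contains `x^α`. -/
theorem monomial_of_borel [Infinite k] {I : Ideal (MvPolynomial (Fin n) k)} (hB : IsBorelFixed I)
    {f : MvPolynomial (Fin n) k} (hf : f ∈ I) {α : Fin n →₀ ℕ} (hα : α ∈ f.support) :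
    monomial α (1 : k) ∈ I := by
  induction h : f.support.card using Nat.strong_induction_on generalizing f with
  | _ m ih =>
    by_cases hβ : ∃ β ∈ f.support, α ≠ β
    · obtain ⟨β, h1, h2⟩ := hβ
      obtain ⟨t, t1, t2⟩ := borel_sep (k := k) h2
      have h3 := I.sub_mem (borel_diag hB t1 hf)
        (I.mul_mem_left (C (β.prod fun i e => t i ^ e)) hf)
      have h4 : ∀ γ, coeff γ (aeval (fun j => C (t j) * X j : Fin n → MvPolynomial (Fin n) k) f -
          C (β.prod fun i e => t i ^ e) * f) =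
          ((γ.prod fun i e => t i ^ e) - β.prod fun i e => t i ^ e) * coeff γ f := fun γ => by
        rw [coeff_sub, borel_coeff_diag, coeff_C_mul, sub_mul]
      refine ih _ (h ▸ Finset.card_lt_card ⟨fun γ hγ => ?_, fun hs => ?_⟩) h3 ?_ rfl
      · rw [mem_support_iff, h4]
        exact mul_ne_zero (sub_ne_zero.2 t2) (mem_support_iff.1 hα)
      · rw [mem_support_iff, h4] at hγ
        exact mem_support_iff.2 (right_ne_zero_of_mul hγ)
      · have := mem_support_iff.1 (hs h1)
        rw [h4, sub_self, zero_mul] at this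
        exact this rfl
    · push Not at hβ
      have h1 : monomial α (1 : k) = C (coeff α f)⁻¹ * f := by
        ext γ
        rw [coeff_C_mul, coeff_monomial]
        split_ifs with e
        · rw [← e, inv_mul_cancel₀ (mem_support_iff.1 hα)]
        · rw [notMem_support_iff.1 fun m => e (hβ γ m), mul_zero]
      rw [h1]
      exact I.mul_mem_left _ hf

theorem borel_coeff_pow {i j : Fin n} (h : i ≠ j) (a : ℕ) :
    coeff (Finsupp.single j a + Finsupp.single i 1) ((X j + X i : MvPolynomial (Fin n) k) ^ (a + 1)) =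
      (a + 1 : ℕ) := by
  rw [add_pow, coeff_sum, Finset.sum_eq_single a]
  · rw [X_pow_eq_monomial, X_pow_eq_monomial, monomial_mul, ← C_eq_coe_nat, mul_comm, coeff_C_mul,
      coeff_monomial, Nat.add_sub_cancel_left, if_pos rfl, Nat.choose_succ_self_right]
    simp
  · intro b _ hb
    rw [X_pow_eq_monomial, X_pow_eq_monomial, monomial_mul, ← C_eq_coe_nat, mul_comm, coeff_C_mul,
      coeff_monomial, if_neg, mul_zero]
    intro e
    have := DFunLike.congr_fun e j
    simp [h] at this
    exact hb this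
  · intro h
    exact absurd (Finset.mem_range.2 (by omega)) h

theorem borel_move [CharZero k] {I : Ideal (MvPolynomial (Fin n) k)} (hB : IsBorelFixed I)
    {α : Fin n →₀ ℕ} {i j : Fin n} (hij : i < j)
    (h : monomial (α + Finsupp.single j 1) (1 : k) ∈ I) :
    monomial (α + Finsupp.single i 1) (1 : k) ∈ I := by
  have h1 := hB (Matrix.transvection i j 1) (fun a b hab => by
    have hab' : b < a := hab
    rw [Matrix.transvection, Matrix.add_apply, Matrix.one_apply_ne hab'.ne',
      Matrix.single_apply_of_ne, add_zero]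
    rintro ⟨rfl, rfl⟩
    exact hij.not_gt hab') (by rw [Matrix.det_transvection_of_ne _ _ hij.ne]; exact one_ne_zero)
  have e : (fun l => ∑ a, C (Matrix.transvection i j (1 : k) a l) * X a :
      Fin n → MvPolynomial (Fin n) k) = fun l => if l = j then X j + X i else X l := funext fun l => by
    simp only [Matrix.transvection, Matrix.add_apply, C_add, add_mul, Finset.sum_add_distrib,
      Matrix.one_apply, Matrix.single_apply, apply_ite C, C_1, C_0, ite_mul, one_mul, zero_mul]
    rcases eq_or_ne l j with rfl | hl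
    · simp
    · simp [hl, hl.symm]
  rw [e] at h1
  have h2 := h1 ▸ Ideal.mem_map_of_mem _ h
  have h3 : α + Finsupp.single j 1 = α.erase j + Finsupp.single j (α j + 1) := by
    rw [Finsupp.single_add, ← add_assoc, Finsupp.erase_add_single]
  have h4 : α + Finsupp.single i 1 = α.erase j + (Finsupp.single j (α j) + Finsupp.single i 1) := by
    rw [← add_assoc, Finsupp.erase_add_single]
  have h5 : aeval (fun l => if l = j then X j + X i else X l : Fin n → MvPolynomial (Fin n) k)
      (monomial (α.erase j) (1 : k)) = monomial (α.erase j) 1 := by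
    rw [aeval_monomial, monomial_eq, algebraMap_eq]
    congr 1
    refine Finsupp.prod_congr fun l hl => ?_
    rw [Finsupp.support_erase] at hl
    rw [if_neg (Finset.ne_of_mem_erase hl)]
  refine monomial_of_borel hB h2 (mem_support_iff.2 ?_)
  rw [h3, h4, ← one_mul (1 : k), ← monomial_mul, map_mul, h5, ← X_pow_eq_monomial, map_pow, aeval_X,
    if_pos rfl, coeff_monomial_mul, borel_coeff_pow hij.ne, one_mul]
  exact Nat.cast_ne_zero.2 (Nat.succ_ne_zero _)

/-- Apply the elementary matrix `x_j ↦ x_j + x_i` to `x^(α + e_j)`; the coefficient of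
`x^(α + e_i)` is `α j + 1 ≠ 0`.  Saturation gives freeness in the last variable. -/
theorem borel_struct [CharZero k] {I : Ideal (MvPolynomial (Fin (n + 1)) k)}
    (hsat : IsSaturated I) (hB : IsBorelFixed I) :
    ∃ E : Set (Fin (n + 1) →₀ ℕ), IsUpperSet E ∧ SSN E ∧ FreeN E (Fin.last n) ∧ I = monI k E := by
  refine ⟨{α | monomial α (1 : k) ∈ I}, fun α β h hα => ?_, fun α i j => borel_move hB,
    fun α h => hsat _ fun i => ?_, le_antisymm (fun f hf => ?_) (Ideal.span_le.2 ?_)⟩
  · have := I.mul_mem_left (monomial (β - α) (1 : k)) hα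
    rwa [monomial_mul, tsub_add_cancel_of_le h, one_mul] at this
  · rw [X, monomial_mul, one_mul, add_comm _ α]
    rcases (Fin.le_last i).eq_or_lt with rfl | hi
    · exact h
    · exact borel_move hB hi h
  · rw [f.as_sum]
    refine Ideal.sum_mem _ fun α hα => ?_
    rw [← mul_one (coeff α f), ← C_mul_monomial]
    exact Ideal.mul_mem_left _ _ (Ideal.subset_span ⟨α, monomial_of_borel hB hf hα, rfl⟩)
  · rintro _ ⟨α, hα, rfl⟩
    exact hα

end

end Pool.Agent.MP_24718c_ag

end

end partBorel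

section partSchA

/-!
A domain whose fraction field is purely transcendental has a rational spectrum.
-/

set_option linter.unusedSectionVars false
set_option linter.unusedVariables false

open MvPolynomial

universe u

noncomputable section

namespace Pool.Agent.MP_24718c_ag

open AlgebraicGeometry CategoryTheory

variable {k : Type u} [Field k] {H : Scheme.{u}} {π : H ⟶ Spec (CommRingCat.of k)}

section
variable {A B K : Type u} [CommRing A] [Algebra k A] [CommRing B] [Algebra k B] [Field K]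
  [Algebra k K]

/-- the subalgebra generated by the image of `θ` and the inverse of `θ f` -/
def scha_loc (θ : A →ₐ[k] K) (f : A) : Subalgebra k K := θ.range ⊔ Algebra.adjoin k {(θ f)⁻¹}

theorem scha_mem (θ : A →ₐ[k] K) (f a : A) : θ a ∈ scha_loc θ f :=
  (le_sup_left : θ.range ≤ scha_loc θ f) ⟨a, rfl⟩

theorem scha_inv (θ : A →ₐ[k] K) (f : A) : (θ f)⁻¹ ∈ scha_loc θ f :=
  (le_sup_right : _ ≤ scha_loc θ f) (Algebra.subset_adjoin rfl)

theorem scha_le {θ : A →ₐ[k] K} {f : A} {T : Subalgebra k K} (h1 : ∀ a, θ a ∈ T)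
    (h2 : (θ f)⁻¹ ∈ T) : scha_loc θ f ≤ T := by
  refine sup_le ?_ (Algebra.adjoin_le ?_)
  · rintro _ ⟨a, rfl⟩
    exact h1 a
  · rintro _ rfl
    exact h2

theorem scha_mono (θ : A →ₐ[k] K) (f : A) {h : A} (hh : θ h ≠ 0) :
    scha_loc θ f ≤ scha_loc θ (f * h) := by
  refine scha_le (scha_mem θ _) ?_
  have e : (θ f)⁻¹ = θ h * (θ (f * h))⁻¹ := by
    rw [map_mul, mul_inv, mul_left_comm, mul_inv_cancel₀ hh, mul_one]
  rw [e]
  exact mul_mem (scha_mem θ _ h) (scha_inv θ _)

theorem scha_lift (θ : A →ₐ[k] K) (hinj : Function.Injective θ) {f : A} (hf : θ f ≠ 0) :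
    Nonempty (Localization.Away f ≃ₐ[k] scha_loc θ f) ∧
      ∀ t ∈ scha_loc θ f, ∃ (a : A) (n : ℕ), t * θ f ^ n = θ a := by
  have hu : ∀ y : Submonoid.powers f, IsUnit (θ y) := by
    rintro ⟨_, n, rfl⟩
    exact isUnit_iff_ne_zero.2 (by rw [map_pow]; exact pow_ne_zero n hf)
  let ψ : Localization.Away f →ₐ[k] K := IsLocalization.liftAlgHom (M := Submonoid.powers f) hu
  have h1 : ∀ a, ψ (algebraMap A _ a) = θ a :=
    fun a => IsLocalization.lift_eq (g := (θ : A →+* K)) hu a
  have h2 : ∀ x, ∃ (a : A) (n : ℕ), ψ x * θ f ^ n = θ a := by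
    intro x
    obtain ⟨⟨a, _, n, rfl⟩, h⟩ := IsLocalization.surj (Submonoid.powers f) x
    refine ⟨a, n, ?_⟩
    rw [← map_pow, ← h1, ← h1, ← map_mul]
    exact congrArg ψ h
  have h3 : Function.Injective ψ := by
    rw [injective_iff_map_eq_zero]
    intro x hx
    obtain ⟨⟨a, s⟩, h⟩ := IsLocalization.surj (Submonoid.powers f) x
    have h4 := congrArg ψ h
    rw [map_mul, hx, zero_mul, h1] at h4
    have h5 : a = 0 := hinj (by rw [← h4, map_zero])
    rw [h5, map_zero] at h
    exact (IsLocalization.map_units (Localization.Away f) s).mul_left_eq_zero.1 h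
  have h4 : ψ.range = scha_loc θ f := by
    refine le_antisymm ?_ (scha_le (fun a => ⟨_, h1 a⟩) ⟨IsLocalization.Away.invSelf f, ?_⟩)
    · rintro _ ⟨x, rfl⟩
      obtain ⟨a, n, h⟩ := h2 x
      have e : ψ x = θ a * (θ f)⁻¹ ^ n := by
        rw [← h, mul_assoc, ← mul_pow, mul_inv_cancel₀ hf, one_pow, mul_one]
      change ψ x ∈ _
      rw [e]
      exact mul_mem (scha_mem θ f a) (pow_mem (scha_inv θ f) n)
    · refine eq_inv_of_mul_eq_one_right ?_
      change θ f * ψ _ = 1
      rw [← h1, ← map_mul, IsLocalization.Away.mul_invSelf, map_one]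
  refine ⟨⟨(AlgEquiv.ofInjective ψ h3).trans (Subalgebra.equivOfEq _ _ h4)⟩, ?_⟩
  rw [← h4]
  rintro _ ⟨x, rfl⟩
  exact h2 x

theorem scha_finset (θ : A →ₐ[k] K) (hq : ∀ t, ∃ a b, θ b ≠ 0 ∧ t * θ b = θ a) (s : Finset K) :
    ∃ f, θ f ≠ 0 ∧ ∀ t ∈ s, t ∈ scha_loc θ f := by
  classical
  induction s using Finset.induction_on with
  | empty => exact ⟨1, by simp, by simp⟩
  | insert t s _ ih =>
    obtain ⟨f, hf, h⟩ := ih
    obtain ⟨a, b, hb, e⟩ := hq t
    refine ⟨f * b, by rw [map_mul]; exact mul_ne_zero hf hb, fun x hx => ?_⟩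
    rcases Finset.mem_insert.1 hx with rfl | hx
    · rw [mul_comm]
      refine scha_mono θ b hf ?_
      rw [(eq_mul_inv_iff_mul_eq₀ hb).2 e]
      exact mul_mem (scha_mem θ b a) (scha_inv θ b)
    · exact scha_mono θ f hb (h x hx)

theorem scha_cover [Algebra.FiniteType k B] (θ : A →ₐ[k] K)
    (hq : ∀ t, ∃ a b, θ b ≠ 0 ∧ t * θ b = θ a) (η : B →ₐ[k] K) (t₀ : K) :
    ∃ f, θ f ≠ 0 ∧ t₀ ∈ scha_loc θ f ∧ ∀ b, η b ∈ scha_loc θ f := by
  classical
  obtain ⟨s, hs⟩ := Algebra.FiniteType.out (R := k) (A := B)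
  obtain ⟨f, hf, h⟩ := scha_finset θ hq (insert t₀ (s.image η))
  refine ⟨f, hf, h _ (Finset.mem_insert_self _ _), fun b => ?_⟩
  have h1 : Algebra.adjoin k (s : Set B) ≤ (scha_loc θ f).comap η :=
    Algebra.adjoin_le fun x hx =>
      h _ (Finset.mem_insert_of_mem (Finset.mem_image_of_mem η (Finset.mem_coe.1 hx)))
  exact h1 (hs ▸ Algebra.mem_top)

theorem scha_common [Algebra.FiniteType k A] [Algebra.FiniteType k B] (θ : A →ₐ[k] K)
    (hθ : Function.Injective θ) (hq : ∀ t, ∃ a b, θ b ≠ 0 ∧ t * θ b = θ a) (η : B →ₐ[k] K)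
    (hη : Function.Injective η) (hr : ∀ t, ∃ a b, η b ≠ 0 ∧ t * η b = η a) :
    ∃ (f : A) (g : B), f ≠ 0 ∧ g ≠ 0 ∧
      Nonempty (Localization.Away f ≃ₐ[k] Localization.Away g) := by
  obtain ⟨f, hf, -, h1⟩ := scha_cover θ hq η 0
  obtain ⟨g, hg, h2, h3⟩ := scha_cover η hr θ (θ f)⁻¹
  obtain ⟨h, n, e⟩ := (scha_lift θ hθ hf).2 _ (h1 g)
  have hh : θ h ≠ 0 := e ▸ mul_ne_zero hg (pow_ne_zero n hf)
  have hfh : θ (f * h) ≠ 0 := by
    rw [map_mul]
    exact mul_ne_zero hf hh
  have key : scha_loc θ (f * h) = scha_loc η g := by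
    refine le_antisymm (scha_le h3 ?_) (scha_le (fun b => scha_mono θ f hh (h1 b)) ?_)
    · rw [map_mul, ← e, mul_inv, mul_inv, ← inv_pow]
      exact mul_mem h2 (mul_mem (scha_inv η g) (pow_mem h2 n))
    · have e' : (η g)⁻¹ = θ (f ^ (n + 1)) * (θ (f * h))⁻¹ := by
        rw [map_mul, ← e, map_pow]
        field_simp
        ring
      rw [e']
      exact mul_mem (scha_mem θ _ _) (scha_inv θ _)
  obtain ⟨e₁⟩ := (scha_lift θ hθ hfh).1
  obtain ⟨e₂⟩ := (scha_lift η hη hg).1
  exact ⟨f * h, g, fun h0 => hfh (by rw [h0, map_zero]), fun h0 => hg (by rw [h0, map_zero]),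
    ⟨(e₁.trans (Subalgebra.equivOfEq _ _ key)).trans e₂.symm⟩⟩

theorem scha_bir (φ : A →ₐ[k] B) (hinj : Function.Injective φ)
    (ho : IsOpenImmersion (Spec.map (CommRingCat.ofHom (φ : A →+* B)))) :
    Scheme.BirationalOver (Spec.map (CommRingCat.ofHom (algebraMap k B)))
      (Spec.map (CommRingCat.ofHom (algebraMap k A))) := by
  have hd : IsDominant (Spec.map (CommRingCat.ofHom (φ : A →+* B))) := by
    refine ⟨(PrimeSpectrum.denseRange_comap_iff_ker_le_nilRadical (φ : A →+* B)).2 ?_⟩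
    rw [(RingHom.injective_iff_ker_eq_bot (φ : A →+* B)).1 hinj]
    exact bot_le
  refine Scheme.Hom.birationalOver (Spec.map (CommRingCat.ofHom (φ : A →+* B))) _ _ ?_
  rw [← Spec.map_comp, ← CommRingCat.ofHom_comp, AlgHom.comp_algebraMap]

theorem scha_bir_equiv (e : A ≃ₐ[k] B) :
    Scheme.BirationalOver (Spec.map (CommRingCat.ofHom (algebraMap k B)))
      (Spec.map (CommRingCat.ofHom (algebraMap k A))) := by
  refine scha_bir (e : A →ₐ[k] B) e.injective ?_
  exact (inferInstance : IsOpenImmersion (Spec.map e.toRingEquiv.toCommRingCatIso.hom))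

theorem scha_bir_away [IsDomain A] {f : A} (hf : f ≠ 0) :
    Scheme.BirationalOver (Spec.map (CommRingCat.ofHom (algebraMap k (Localization.Away f))))
      (Spec.map (CommRingCat.ofHom (algebraMap k A))) := by
  refine scha_bir (IsScalarTower.toAlgHom k A (Localization.Away f)) ?_ ?_
  · exact IsLocalization.injective (Localization.Away f)
      (powers_le_nonZeroDivisors_of_noZeroDivisors hf)
  · exact (inferInstance : IsOpenImmersion
      (Spec.map (CommRingCat.ofHom (algebraMap A (Localization.Away f)))))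

theorem scha_affine (n : Type u) :
    Scheme.IsRationalOver (Spec.map (CommRingCat.ofHom (algebraMap k (MvPolynomial n k)))) :=
  ⟨n, Scheme.Hom.birationalOver (AffineSpace.SpecIso n (CommRingCat.of k)).inv _ _
    (AffineSpace.SpecIso_inv_over (CommRingCat.of k))⟩

end

/-- Choose `f ≠ 0` in `D` with every `X i` in `θ(D)[1/θ f]`, then `g ≠ 0` in `Lam` with the images
of finitely many generators of `D` and `1 / θ f` in `Lam[1/g]`, and write `g = θ h / θ f ^ m`.  The
subalgebra `T` of the field generated by `Lam` and `1 / g` is both `Localization.Away g` of `Lam`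
and `Localization.Away (f * h)` of `D`. -/
theorem exists_common_localization {D : Type u} [CommRing D] [IsDomain D] [Algebra k D]
    [Algebra.FiniteType k D] {N : ℕ} (θ : D →ₐ[k] FractionRing (Lam k N))
    (hinj : Function.Injective θ) (hq : ∀ t, ∃ a b, θ b ≠ 0 ∧ t * θ b = θ a) :
    ∃ (f : D) (g : Lam k N), f ≠ 0 ∧ g ≠ 0 ∧
      Nonempty (Localization.Away f ≃ₐ[k] Localization.Away g) := by
  refine scha_common θ hinj hq (IsScalarTower.toAlgHom k (Lam k N) (FractionRing (Lam k N)))
    (IsFractionRing.injective (Lam k N) (FractionRing (Lam k N))) fun t => ?_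
  obtain ⟨⟨a, b⟩, h⟩ := IsLocalization.surj (nonZeroDivisors (Lam k N)) t
  exact ⟨a, b, (IsLocalization.map_units (FractionRing (Lam k N)) b).ne_zero, h⟩

/-- `Spec` of `Localization.Away f` is a dominant open immersion into `Spec D` (and into
`Spec Lam ≅ 𝔸(ULift (Fin N); Spec k)`, see `AffineSpace.SpecIso`, `renameEquiv`);
`Scheme.Hom.birationalOver`. -/
theorem rational_of_fraction {D : Type u} [CommRing D] [IsDomain D] [Algebra k D]
    [Algebra.FiniteType k D] {N : ℕ} (θ : D →ₐ[k] FractionRing (Lam k N))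
    (hinj : Function.Injective θ) (hq : ∀ t, ∃ a b, θ b ≠ 0 ∧ t * θ b = θ a) :
    Scheme.IsRationalOver (Spec.map (CommRingCat.ofHom (algebraMap k D))) := by
  obtain ⟨f, g, hf, hg, ⟨e⟩⟩ := exists_common_localization θ hinj hq
  have := scha_affine (k := k) (ULift.{u} (Fin N))
  exact Scheme.BirationalOver.isRationalOver _ _ ((((scha_bir_away hf).symm.trans
    (scha_bir_equiv e.symm)).trans (scha_bir_away hg)).trans
      (scha_bir_equiv (renameEquiv k (Equiv.ulift : ULift.{u} (Fin N) ≃ Fin N))))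

end Pool.Agent.MP_24718c_ag

end

end partSchA

section partSchB

/-!
Irreducible components and affine charts.
-/

set_option linter.unusedSectionVars false
set_option linter.unusedVariables false

open MvPolynomial

universe u

noncomputable section

namespace Pool.Agent.MP_24718c_ag

open AlgebraicGeometry CategoryTheory

variable {k : Type u} [Field k] {H : Scheme.{u}} {π : H ⟶ Spec (CommRingCat.of k)}

/-- Let `W = pullback ι j`: nonempty open in the integral scheme `Z` (so integral and dominant) and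
closed in `Spec R`, hence `W ≅ Spec (R ⧸ 𝔞)` over `Spec R` (`IsClosedImmersion.Spec_iff`) with
`R ⧸ 𝔞` a domain.  Its image `zeroLocus 𝔞 = j ⁻¹' range ι` is an irreducible component of `Spec R`
(open embedding), so `𝔞` is a minimal prime. -/
theorem component_birational {R : Type u} [CommRing R] [Algebra k R] (j : Pts π R)
    [IsOpenImmersion j.1] {Z : Scheme.{u}} [IsIntegral Z] (ι : Z ⟶ H) [IsClosedImmersion ι]
    (hZ : Set.range ι ∈ irreducibleComponents H) (x : PrimeSpectrum R)
    (hx : j.1 x ∈ Set.range ι) :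
    ∃ 𝔞 : Ideal R, 𝔞 ∈ minimalPrimes R ∧ 𝔞 ≤ x.asIdeal ∧
      Scheme.BirationalOver (Spec.map (CommRingCat.ofHom (algebraMap k (R ⧸ 𝔞)))) (ι ≫ π) := by
  obtain ⟨𝔞, e, he⟩ := IsClosedImmersion.Spec_iff.1
    (inferInstance : IsClosedImmersion (Limits.pullback.snd ι j.1))
  obtain ⟨z, hz⟩ := hx
  obtain ⟨w, hw1, hw2⟩ := Scheme.Pullback.exists_preimage_pullback (f := ι) (g := j.1) z x hz
  have hne : Nonempty (Limits.pullback ι j.1 : Scheme.{u}) := ⟨w⟩
  have hint : IsIntegral (Limits.pullback ι j.1) :=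
    isIntegral_of_isOpenImmersion (Limits.pullback.fst ι j.1)
  have hint' : IsIntegral (Spec (CommRingCat.of (R ⧸ 𝔞))) := IsIntegral.of_isIso e.hom
  have hdom : IsDomain (R ⧸ 𝔞) := (affine_isIntegral_iff (CommRingCat.of (R ⧸ 𝔞))).1 hint'
  have hprime : Ideal.IsPrime (α := R) 𝔞 := (Ideal.Quotient.isDomain_iff_prime _).1 hdom
  have hrange : (j.1 : _ → _) ⁻¹' Set.range ι = PrimeSpectrum.zeroLocus (R := R) 𝔞 := by
    rw [← Scheme.Pullback.range_snd, he, Scheme.Hom.comp_base, TopCat.coe_comp,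
      e.hom.surjective.range_comp]
    have := range_comap_of_surjective (R ⧸ 𝔞) (Ideal.Quotient.mk 𝔞)
      Ideal.Quotient.mk_surjective
    rw [Ideal.mk_ker] at this
    exact this
  have hcomp : PrimeSpectrum.zeroLocus (R := R) 𝔞 ∈ irreducibleComponents (PrimeSpectrum R) := by
    rw [← hrange]
    exact preimage_mem_irreducibleComponents hZ j.1.isOpenEmbedding ⟨j.1 x, ⟨z, hz⟩, x, rfl⟩
  have hmin := PrimeSpectrum.zeroLocus_ideal_mem_irreducibleComponents.1 hcomp
  rw [hprime.radical] at hmin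
  have hxa : x ∈ PrimeSpectrum.zeroLocus (R := R) 𝔞 := by
    rw [← hrange]
    exact ⟨z, hz⟩
  have hdominant : IsDominant (Limits.pullback.fst ι j.1) :=
    ⟨(Limits.pullback.fst ι j.1).isOpenEmbedding.isOpen_range.dense (Set.range_nonempty _)⟩
  refine ⟨𝔞, hmin, hxa, Scheme.Hom.birationalOver (e.inv ≫ Limits.pullback.fst ι j.1) _ _ ?_⟩
  rw [Category.assoc, Limits.pullback.condition_assoc, he, Category.assoc,
    e.inv_hom_id_assoc, j.2, ← Spec.map_comp]
  rfl

/-- Take an affine open `V ≤ U` containing the point, `R = Γ(H, V)`, `j = hV.fromSpec`, the algebra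
structure given by `Spec.preimage (j ≫ π)`; `j ≫ π` is smooth (`j` factors through `U.ι`), so `R`
is smooth (`HasRingHomProperty.Spec_iff`); `s₀` factors through `j` (`IsOpenImmersion.lift`). -/
theorem exists_affine_chart (s₀ : Pts π k) (U : H.Opens)
    (hU : s₀.1 (IsLocalRing.closedPoint k) ∈ U) (hsm : Smooth (U.ι ≫ π)) :
    ∃ (R : Type u) (_ : CommRing R) (_ : Algebra k R) (j : Pts π R) (x₀ : R →ₐ[k] k),
      Algebra.Smooth k R ∧ IsOpenImmersion j.1 ∧
      s₀.1 = Spec.map (CommRingCat.ofHom x₀.toRingHom) ≫ j.1 := by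
  obtain ⟨_, ⟨V, hV, rfl⟩, hxV, hVU⟩ :=
    H.isBasis_affineOpens.exists_subset_of_mem_open hU U.isOpen
  have hV' : IsAffineOpen V := hV
  let φ : CommRingCat.of k ⟶ Γ(H, V) := Spec.preimage (hV'.fromSpec ≫ π)
  have hφ : Spec.map φ = hV'.fromSpec ≫ π := Spec.map_preimage _
  let _ : Algebra k Γ(H, V) := φ.hom.toAlgebra
  have hr : Set.range hV'.fromSpec = (V : Set H) := hV'.range_fromSpec
  have hs : Smooth (Spec.map φ) := by
    have h1 : Set.range hV'.fromSpec ⊆ Set.range U.ι := by
      rw [hr, Scheme.Opens.range_ι]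
      exact hVU
    have h2 : IsOpenImmersion (IsOpenImmersion.lift U.ι hV'.fromSpec h1) := inferInstance
    rw [hφ, ← IsOpenImmersion.lift_fac U.ι hV'.fromSpec h1, Category.assoc]
    infer_instance
  have hs' : φ.hom.Smooth := (HasRingHomProperty.Spec_iff (P := @Smooth)).1 hs
  have h3 : Set.range s₀.1 ⊆ Set.range hV'.fromSpec := by
    rw [hr]
    rintro _ ⟨y, rfl⟩
    rw [Subsingleton.elim y (IsLocalRing.closedPoint k)]
    exact hxV
  let ψ : Γ(H, V) ⟶ CommRingCat.of k := Spec.preimage (IsOpenImmersion.lift hV'.fromSpec s₀.1 h3)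
  have hψ : Spec.map ψ ≫ hV'.fromSpec = s₀.1 := by
    rw [Spec.map_preimage, IsOpenImmersion.lift_fac]
  have hc : φ ≫ ψ = 𝟙 _ := by
    apply Spec.map_injective
    rw [Spec.map_comp, hφ, ← Category.assoc, hψ, s₀.2]
    rfl
  refine ⟨Γ(H, V), inferInstance, inferInstance, ⟨hV'.fromSpec, hφ.symm⟩,
    ⟨ψ.hom, fun c => ?_⟩, hs', inferInstanceAs (IsOpenImmersion hV'.fromSpec), hψ.symm⟩
  exact congrArg (fun f : CommRingCat.of k ⟶ CommRingCat.of k => f.hom c) hc

end Pool.Agent.MP_24718c_ag

end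

end partSchB

section partSchC

/-!
An affine open part of the Hilbert scheme is a chart.
-/

set_option linter.unusedSectionVars false
set_option linter.unusedVariables false

open MvPolynomial

universe u

noncomputable section

namespace Pool.Agent.MP_24718c_ag

open AlgebraicGeometry CategoryTheory

variable {k : Type u} [Field k] {H : Scheme.{u}} {π : H ⟶ Spec (CommRingCat.of k)}

/-- the point obtained by composing with an algebra map -/
def Pts.comp {B B' : Type u} [CommRing B] [Algebra k B] [CommRing B'] [Algebra k B']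
    (s : Pts π B) (φ : B →ₐ[k] B') : Pts π B' :=
  ⟨Spec.map (CommRingCat.ofHom φ.toRingHom) ≫ s.1, by
    rw [Category.assoc, s.2, ← Spec.map_comp, ← CommRingCat.ofHom_comp]
    exact congrArg (fun f => Spec.map (CommRingCat.ofHom f)) φ.comp_algebraMap⟩

theorem schc_nat {n : ℕ} {P : Polynomial ℚ}
    {fam : ∀ (B : Type u) [CommRing B] [Algebra k B], Pts π B →
      Ideal (MvPolynomial (Fin (n + 1)) B)} (hH : IsHilbertScheme n P π fam)
    {B B' : Type u} [CommRing B] [Algebra k B] [CommRing B'] [Algebra k B']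
    (s : Pts π B) (φ : B →ₐ[k] B') :
    Agree (fam B' (s.comp φ)) (bc (φ : B →+* B') (fam B s)) :=
  hH.natural B B' φ s (s.comp φ) rfl

theorem schc_comp_inj {R B : Type u} [CommRing R] [Algebra k R] [CommRing B] [Algebra k B]
    (j : Pts π R) [IsOpenImmersion j.1] {φ ψ : R →ₐ[k] B} (h : j.comp φ = j.comp ψ) :
    φ = ψ := by
  have h1 : Spec.map (CommRingCat.ofHom φ.toRingHom) ≫ j.1 =
      Spec.map (CommRingCat.ofHom ψ.toRingHom) ≫ j.1 := congrArg Subtype.val h
  rw [cancel_mono, Spec.map_inj] at h1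
  have h2 : φ.toRingHom = ψ.toRingHom := congrArg CommRingCat.Hom.hom h1
  exact AlgHom.ext fun x => RingHom.congr_fun h2 x

theorem schc_lift {R B : Type u} [CommRing R] [Algebra k R] [CommRing B] [Algebra k B]
    (j : Pts π R) [IsOpenImmersion j.1] (s : Pts π B) (h : Set.range s.1 ⊆ Set.range j.1) :
    ∃ φ : R →ₐ[k] B, j.comp φ = s := by
  obtain ⟨f, hf⟩ := Spec.map_surjective (IsOpenImmersion.lift j.1 s.1 h)
  have h1 : Spec.map f ≫ j.1 = s.1 := by rw [hf, IsOpenImmersion.lift_fac]
  have h2 : CommRingCat.ofHom (algebraMap k R) ≫ f = CommRingCat.ofHom (algebraMap k B) := by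
    rw [← Spec.map_inj, Spec.map_comp, ← j.2, ← s.2, ← h1, Category.assoc]
  have h3 : f.hom.comp (algebraMap k R) = algebraMap k B := congrArg CommRingCat.Hom.hom h2
  exact ⟨⟨f.hom, fun c => RingHom.congr_fun h3 c⟩, Subtype.ext h1⟩

theorem schc_range {R B K : Type u} [CommRing R] [Algebra k R] [CommRing B] [Algebra k B]
    [IsLocalRing B] [Field K] [Algebra k K] (ρ : B →ₐ[k] K) (hρ : IsLocalHom (ρ : B →+* K))
    (j : Pts π R) [IsOpenImmersion j.1] (s : Pts π B) (ψ : R →ₐ[k] K)
    (h : s.comp ρ = j.comp ψ) : Set.range s.1 ⊆ Set.range j.1 := by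
  have h1 : Spec.map (CommRingCat.ofHom ρ.toRingHom) ≫ s.1 =
      Spec.map (CommRingCat.ofHom ψ.toRingHom) ≫ j.1 := congrArg Subtype.val h
  have hl : IsLocalHom (CommRingCat.ofHom ρ.toRingHom).hom := hρ
  have h2 : s.1 (IsLocalRing.closedPoint B) ∈ Set.range j.1 := by
    refine ⟨Spec.map (CommRingCat.ofHom ψ.toRingHom) (IsLocalRing.closedPoint K), ?_⟩
    rw [← Scheme.Hom.comp_apply, ← h1, Scheme.Hom.comp_apply]
    exact congrArg s.1 (Spec_closedPoint (f := CommRingCat.ofHom ρ.toRingHom))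
  rintro _ ⟨x, rfl⟩
  exact ((IsLocalRing.specializes_closedPoint x).map s.1.continuous).mem_open
    j.1.isOpenEmbedding.isOpen_range h2

/-- `fam B (j.comp φ)` agrees with `bc φ (fam R j)` by naturality.  `inj`: `j` is a monomorphism and
`Spec.map` is injective.  `opn`: `cnt E d = P(d)` for large `d` (`marked_monI`, `IsFamily.of_agree`,
`Marked.count`), so `J` is a family (`Marked.isFamily`), `J` agrees with `fam B s`;
`s.comp ρ = j.comp ψ` by `inj`; the closed point of `Spec K` maps to the closed point of `Spec B`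
(`ρ` is local), so every point of `Spec B` is mapped into the open range of `j` (specialisation),
`IsOpenImmersion.lift`, `Spec.preimage`.  `mark`: `IsFamily.of_agree`, `Marked.of_agree`, `bc_bc`,
`mark_local`. -/
theorem mchart_of_hilb {n : ℕ} {P : Polynomial ℚ}
    {fam : ∀ (B : Type u) [CommRing B] [Algebra k B], Pts π B →
      Ideal (MvPolynomial (Fin (n + 1)) B)} (hH : IsHilbertScheme n P π fam)
    {E : Set (Fin (n + 1) →₀ ℕ)} (hE : IsUpperSet E) (s₀ : Pts π k)
    (hs₀ : Agree (fam k s₀) (monI k E)) {R : Type u} [CommRing R] [Algebra k R] (j : Pts π R)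
    [IsOpenImmersion j.1] : MChart k E R (fam R j) := by
  have hh : IsHomog (fam R j) := (hH.isFamily R j).1
  have hm : Marked E 0 (monI k E) := marked_monI hE
  have hP := hm.count ((hH.isFamily k s₀).of_agree hm.homog hs₀)
  refine ⟨hh, fun B _ _ φ ψ h => ?_, fun B _ _ _ K _ _ ρ hρ d J hJ ψ h => ?_,
    fun B _ _ _ K _ _ ρ hρ φ d J hJ h => ?_⟩
  · exact schc_comp_inj j (hH.inj B _ _
      ((schc_nat hH j φ).trans (h.trans (schc_nat hH j ψ).symm)))
  · obtain ⟨s, hs⟩ := hH.surj B J (hJ.isFamily hP)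
    have h1 : s.comp ρ = j.comp ψ := hH.inj K _ _ ((schc_nat hH s ρ).trans
      ((hs.bc (hH.isFamily B s).1 hJ.homog _).trans (h.symm.trans (schc_nat hH j ψ).symm)))
    obtain ⟨φ, rfl⟩ := schc_lift j s (schc_range ρ hρ j s ψ h1)
    exact ⟨φ, (schc_nat hH j φ).symm.trans hs⟩
  · have h1 : IsFamily P (bc (φ : R →+* B) (fam R j)) :=
      (hH.isFamily B (j.comp φ)).of_agree (hh.bc _) (schc_nat hH j φ)
    obtain ⟨h2, d₀, h3⟩ := h1
    obtain ⟨d₁, h4⟩ := hJ.of_agree (hh.bc _) h.symm
    have h5 : Marked E d₁ (bc (ρ : B →+* K) (bc (φ : R →+* B) (fam R j))) := by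
      rw [bc_bc]
      exact h4
    exact ⟨_, mark_local (ρ : B →+* K) h2 (fun e he => (h3 e he).1) h5⟩

end Pool.Agent.MP_24718c_ag

end

end partSchC

end

-- part MP_24718c_ag.Top
section

section partMain

/-!
The algebraic form of the theorem.
-/

set_option linter.unusedSectionVars false
set_option linter.unusedVariables false

open MvPolynomial

universe u

noncomputable section

namespace Pool.Agent.MP_24718c_ag

variable {k : Type u} [Field k] {R : Type u} [CommRing R] [Algebra k R]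

/-- the minimal prime below `x₀` has a purely transcendental residue field -/
def AlgGoal (x₀ : R →ₐ[k] k) : Prop :=
  ∃ (N : ℕ) (θ : R →ₐ[k] FractionRing (Lam k N)),
    RingHom.ker (θ : R →+* FractionRing (Lam k N)) ∈ minimalPrimes R ∧
    (∀ a, θ a = 0 → x₀ a = 0) ∧ ∀ t, ∃ a b, θ b ≠ 0 ∧ t * θ b = θ a

theorem alg_main [IsAlgClosed k] [Algebra.FormallySmooth k R] [Algebra.FiniteType k R] {n : ℕ}
    {E : Set (Fin (n + 2) →₀ ℕ)} (hE : IsUpperSet E) (hss : SSN E) (hz : FreeN E (zi n))
    {𝓘 : Ideal (MvPolynomial (Fin (n + 2)) R)} (hM : MChart k E R 𝓘) {x₀ : R →ₐ[k] k}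
    (hx₀ : Agree (bc (x₀ : R →+* k) 𝓘) (monI k E)) : AlgGoal x₀ := by
  have hzt : ∀ i : Fin (n + 2), i ≤ zi n := fun i => Fin.le_last i
  have hS := ss_toZ hE hss
  have hF := (free_toZ (E := E) (zi n)).mpr hz
  have hT : T1L (toZ '' E) (zi n) := t1l_of_tan hzt fun r M hT α γ h l i hli hiz hlz hl hi =>
    t1 hE hss hz hM hx₀ hT h hli hiz hlz hl hi
  obtain ⟨hN1, hSG⟩ := n1_sg_of_t1 hzt hS hF hT
  obtain ⟨e, μ, hP⟩ := exists_pair hE hss hz
  have key : N1N (satN E (yi n)) ∧ Unob k (satN E (yi n)) := by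
    by_cases hy : FreeN E (yi n)
    · rw [satN_of_free hy]
      exact ⟨n1n_of_n1' hN1, unob_of_free hE hM hx₀ hP.ne hy hz⟩
    · obtain ⟨h1, h2⟩ := nice_satZ n _ hS hF (fun h => hy ((free_toZ _).mp h)) hN1 hSG
      rw [← ex_satZ]
      exact ⟨n1n_of_n1 (fun v hv => hv.1) h1, fun B B₁ _ _ _ _ ρ ε hρ hn hK =>
        nice_lifts hρ hn hK h2⟩
  obtain ⟨N, 𝓤, q, G, hU⟩ := exists_univData (k := k) (satN_upper hE _) (satN_ssn hss _) key.1 key.2
  obtain ⟨θ₁, hdet, hA, hk, hv⟩ := exists_theta hM hx₀ hP hU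
  have hmin := minimal_of_versal θ₁ hv
  obtain ⟨N', θ, hθ, hq⟩ := theta_rational hM hP hU hdet θ₁ hA
  refine ⟨N', θ, ?_, fun a ha => hk a ((hθ a).mp ha), hq⟩
  convert hmin using 1
  ext a
  simpa [RingHom.mem_ker] using hθ a

theorem alg_zero [IsAlgClosed k] [Algebra.FiniteType k R] {E : Set (Fin 1 →₀ ℕ)}
    (hE : IsUpperSet E) (hz : FreeN E 0) {𝓘 : Ideal (MvPolynomial (Fin 1) R)}
    (hM : MChart k E R 𝓘) {x₀ : R →ₐ[k] k} (hx₀ : Agree (bc (x₀ : R →+* k) 𝓘) (monI k E)) :
    AlgGoal x₀ := by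
  have hmin := minimal_of_versal x₀ fun θ' hθ a ha => by
    have h := hM.rigid hE hz hx₀ (TrivSqZeroExt.fstHom k k k) θ' (AlgHom.ext hθ)
    rw [h, AlgHom.comp_apply, ha, map_zero]
  have hinj : Function.Injective (algebraMap k (FractionRing (Lam k 0))) :=
    (algebraMap k (FractionRing (Lam k 0))).injective
  refine ⟨0, (Algebra.ofId k _).comp x₀, ?_, fun a ha => hinj (by simpa using ha), fun t => ?_⟩
  · convert hmin using 1
    ext a
    simp [RingHom.mem_ker]
  · obtain ⟨a, b, hb, rfl⟩ := IsFractionRing.div_surjective (A := Lam k 0) t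
    have hb0 : algebraMap (Lam k 0) (FractionRing (Lam k 0)) b ≠ 0 :=
      IsFractionRing.to_map_ne_zero_of_mem_nonZeroDivisors hb
    have key : ∀ c : Lam k 0, ((Algebra.ofId k (FractionRing (Lam k 0))).comp x₀)
        (algebraMap k R (coeff 0 c)) = algebraMap (Lam k 0) (FractionRing (Lam k 0)) c := by
      intro c
      rw [AlgHom.commutes, IsScalarTower.algebraMap_apply k (Lam k 0)]
      congr 1
      exact (eq_C_of_isEmpty c).symm
    exact ⟨algebraMap k R (coeff 0 a), algebraMap k R (coeff 0 b), by rw [key b]; exact hb0,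
      by rw [key b, key a, div_mul_cancel₀ _ hb0]⟩

end Pool.Agent.MP_24718c_ag

end

end partMain

section partFinal

/-!
The theorem for strongly stable ideals in every characteristic.
-/

set_option linter.unusedSectionVars false
set_option linter.unusedVariables false

open MvPolynomial

universe u

noncomputable section

namespace Pool.Agent.MP_24718c_ag

open AlgebraicGeometry CategoryTheory

variable {k : Type u} [Field k] {H : Scheme.{u}} {π : H ⟶ Spec (CommRingCat.of k)}

theorem rational_of_stable [IsAlgClosed k] {n : ℕ} {P : Polynomial ℚ}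
    {fam : ∀ (B : Type u) [CommRing B] [Algebra k B], Pts π B →
      Ideal (MvPolynomial (Fin (n + 1)) B)} (hH : IsHilbertScheme n P π fam)
    {E : Set (Fin (n + 1) →₀ ℕ)} (hE : IsUpperSet E) (hss : SSN E) (hz : FreeN E (Fin.last n))
    (s₀ : Pts π k) (hs₀ : Agree (fam k s₀) (monI k E)) (U : H.Opens)
    (hU : s₀.1 (IsLocalRing.closedPoint k) ∈ U) (hsm : Smooth (U.ι ≫ π))
    {Z : Scheme.{u}} [IsIntegral Z] (ι : Z ⟶ H) [IsClosedImmersion ι]
    (hZ : Set.range ι ∈ irreducibleComponents H)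
    (hx : s₀.1 (IsLocalRing.closedPoint k) ∈ Set.range ι) : Scheme.IsRationalOver (ι ≫ π) := by
  obtain ⟨R, _, _, j, x₀, hR, hj, hs⟩ := exists_affine_chart s₀ U hU hsm
  have hM := mchart_of_hilb hH hE s₀ hs₀ j
  have hx₀ : Agree (bc (x₀ : R →+* k) (fam R j)) (monI k E) :=
    (hH.natural R k x₀ j s₀ hs).symm.trans hs₀
  have hG : AlgGoal x₀ := by
    cases n with
    | zero => exact alg_zero hE hz hM hx₀
    | succ n => exact alg_main hE hss hz hM hx₀
  obtain ⟨N, θ, hmin, hle, hq⟩ := hG
  let x : PrimeSpectrum R := PrimeSpectrum.comap (x₀ : R →+* k) (IsLocalRing.closedPoint k)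
  have hxj : j.1 x ∈ Set.range ι := by
    rw [hs] at hx
    exact hx
  obtain ⟨𝔞, h𝔞, h𝔞x, hbir⟩ := component_birational j ι hZ x hxj
  have hxk : x.asIdeal = RingHom.ker (x₀ : R →+* k) := by
    change Ideal.comap (x₀ : R →+* k) (IsLocalRing.maximalIdeal k) = _
    rw [IsLocalRing.maximalIdeal_eq_bot]
    rfl
  have heq : 𝔞 = RingHom.ker (θ : R →+* FractionRing (Lam k N)) :=
    unique_minimal x₀ h𝔞 hmin (hxk ▸ h𝔞x) fun a ha => hle a ha
  subst heq
  have : IsDomain (R ⧸ RingHom.ker (θ : R →+* FractionRing (Lam k N))) :=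
    (Ideal.Quotient.isDomain_iff_prime _).mpr hmin.1.1
  let θ' := Ideal.Quotient.liftₐ (RingHom.ker (θ : R →+* FractionRing (Lam k N))) θ fun a ha => ha
  have hinj : Function.Injective θ' := by
    rw [injective_iff_map_eq_zero]
    intro a ha
    obtain ⟨a, rfl⟩ := Ideal.Quotient.mk_surjective a
    exact Ideal.Quotient.eq_zero_iff_mem.mpr ha
  have := rational_of_fraction θ' hinj fun t => by
    obtain ⟨a, b, hb, h⟩ := hq t
    exact ⟨Ideal.Quotient.mk _ a, Ideal.Quotient.mk _ b, hb, h⟩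
  exact hbir.symm.isRationalOver _ _

end Pool.Agent.MP_24718c_ag

end

end partFinal

end
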